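import Mathlib

open Finset

namespace Pool.Agent.P.MP_ad1e8a_co

theorem sum_lin (N : ℕ) (x : ℝ) :
    ∑ j ∈ range N, (x - (j : ℝ)) = x * N - N * (N - 1) / 2 := by
  induction N with
  | zero => simp
  | succ N ih => rw [Finset.sum_range_succ, ih]; push_cast; ring

theorem sum_quad (N : ℕ) (x : ℝ) :
    ∑ j ∈ range N, ((j : ℝ) + 1) * (x - (j + 1)) =
      x * (N * (N + 1) / 2) - N * (N + 1) * (2 * N + 1) / 6 := by
  induction N with
  | zero => simp
  | succ N ih => rw [Finset.sum_range_succ, ih]; push_cast; ring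

theorem tri_sum (n : ℕ) (w : ℕ → ℝ) :
    ∑ k ∈ range n, ∑ j ∈ range (k + 1), w j = ∑ j ∈ range n, ((n : ℝ) - j) * w j := by
  induction n with
  | zero => simp
  | succ n ih =>
    rw [Finset.sum_range_succ, ih, Finset.sum_range_succ (fun j => (((n + 1 : ℕ) : ℝ) - j) * w j),
      Finset.sum_range_succ, ← add_assoc, ← Finset.sum_add_distrib]
    push_cast
    congr 1
    · exact Finset.sum_congr rfl fun j _ => by ring
    · ring

theorem sq_expand (n : ℕ) (w : ℕ → ℝ) (s : ℝ) (hs : s ^ 2 = 1) :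
    ∑ k ∈ range n, ∑ j ∈ range (k + 1), (w j + s * w (k - j)) ^ 2 =
      2 * ∑ k ∈ range n, ∑ j ∈ range (k + 1), w j ^ 2 +
        2 * s * ∑ k ∈ range n, ∑ j ∈ range (k + 1), w j * w (k - j) := by
  rw [Finset.mul_sum, Finset.mul_sum, ← Finset.sum_add_distrib]
  refine Finset.sum_congr rfl fun k _ => ?_
  have h := Finset.sum_range_reflect (fun j => w j ^ 2) (k + 1)
  simp only [Nat.add_sub_cancel] at h
  rw [two_mul]
  nth_rewrite 2 [← h]
  rw [Finset.mul_sum, ← Finset.sum_add_distrib, ← Finset.sum_add_distrib]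
  refine Finset.sum_congr rfl fun j _ => ?_
  linear_combination (w (k - j) ^ 2) * hs

theorem first_le (n : ℕ) (w : ℕ → ℝ) (s : ℝ) :
    ∑ k ∈ range n, (w 0 + s * w k) ^ 2 ≤
      ∑ k ∈ range n, ∑ j ∈ range (k + 1), (w j + s * w (k - j)) ^ 2 := by
  refine Finset.sum_le_sum fun k _ => ?_
  exact Finset.single_le_sum (f := fun j => (w j + s * w (k - j)) ^ 2)
    (fun j _ => sq_nonneg _) (Finset.mem_range.mpr (Nat.succ_pos k))

theorem diag_le (n : ℕ) (w : ℕ → ℝ) :
    ∑ i ∈ range ((n + 1) / 2), (2 * w i) ^ 2 ≤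
      ∑ k ∈ range n, ∑ j ∈ range (k + 1), (w j + 1 * w (k - j)) ^ 2 := by
  have h1 : ∑ i ∈ range ((n + 1) / 2), (2 * w i) ^ 2 ≤ ∑ i ∈ range ((n + 1) / 2),
      ∑ j ∈ range (2 * i + 1), (w j + 1 * w (2 * i - j)) ^ 2 := by
    refine Finset.sum_le_sum fun i _ => ?_
    have := Finset.single_le_sum (f := fun j => (w j + 1 * w (2 * i - j)) ^ 2)
      (fun j _ => sq_nonneg _) (Finset.mem_range.mpr (show i < 2 * i + 1 by omega))
    simp only [show 2 * i - i = i by omega] at this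
    calc (2 * w i) ^ 2 = (w i + 1 * w i) ^ 2 := by ring
      _ ≤ _ := this
  refine h1.trans ?_
  rw [← Finset.sum_image (s := range ((n + 1) / 2)) (g := fun i => 2 * i)
    (f := fun k => ∑ j ∈ range (k + 1), (w j + 1 * w (k - j)) ^ 2)
    (fun a _ b _ h => by simpa using h)]
  refine Finset.sum_le_sum_of_subset_of_nonneg ?_
    (fun k _ _ => Finset.sum_nonneg fun j _ => sq_nonneg _)
  intro k hk
  simp only [Finset.mem_image, Finset.mem_range] at hk ⊢
  omega

theorem core (n : ℕ) (hn : 2 ≤ n) (η : ℝ) (h0 : 0 < η) (h1 : 30 * n * η ≤ 1) (K l : ℝ)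
    (w : ℕ → ℝ) (hw : 0 < ∑ j ∈ range n, w j ^ 2)
    (hK : (K = 2 ∧ ∑ j ∈ range n, w j = 0) ∨ (-2 ≤ K ∧ K ≤ 2 * (1 - η)))
    (heq : ∀ j < n, l * w j = ∑ k ∈ range n, if j ≤ k then K * w (k - j) else 2 * w j) :
    l < 2 * n - 2 / 3 * η * (n + 1) := by
  have hn' : (2 : ℝ) ≤ n := by exact_mod_cast hn
  set S := ∑ k ∈ range n, ∑ j ∈ range (k + 1), w j ^ 2 with hS
  set P := ∑ k ∈ range n, ∑ j ∈ range (k + 1), w j * w (k - j) with hP
  set N := ∑ j ∈ range n, w j ^ 2 with hN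
  have hΦ : (2 * n - l) * N = 2 * S - K * P := by
    have e1 : (2 * n - l) * N = ∑ j ∈ range n, ∑ k ∈ range n,
        if j ≤ k then 2 * w j ^ 2 - K * (w j * w (k - j)) else 0 := by
      rw [hN, Finset.mul_sum]
      refine Finset.sum_congr rfl fun j hj => ?_
      have e2 : (2 * n - l) * w j ^ 2 = ∑ k ∈ range n, 2 * w j ^ 2 - w j * (l * w j) := by
        simp only [Finset.sum_const, Finset.card_range, nsmul_eq_mul]; ring
      rw [e2, heq j (Finset.mem_range.mp hj), Finset.mul_sum, ← Finset.sum_sub_distrib]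
      refine Finset.sum_congr rfl fun k _ => ?_
      split_ifs <;> ring
    rw [e1, Finset.sum_comm, hS, hP, Finset.mul_sum, Finset.mul_sum, ← Finset.sum_sub_distrib]
    refine Finset.sum_congr rfl fun k hk => ?_
    rw [Finset.mul_sum, Finset.mul_sum, ← Finset.sum_sub_distrib, ← Finset.sum_filter]
    refine Finset.sum_congr ?_ fun _ _ => rfl
    ext j
    simp only [Finset.mem_filter, Finset.mem_range] at hk ⊢
    omega
  have hm := sq_expand n w (-1) (by norm_num)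
  have hp := sq_expand n w 1 (by norm_num)
  rw [← hS, ← hP] at hm hp
  have hWm := first_le n w (-1)
  have hWp := first_le n w 1
  have hD := diag_le n w
  rw [hm] at hWm
  rw [hp] at hWp hD
  set W := ∑ k ∈ range n, (w 0 + -1 * w k) ^ 2 with hW
  set U := ∑ k ∈ range n, (w 0 + 1 * w k) ^ 2 with hU
  suffices h : 2 / 3 * η * (n + 1) * N < 2 * S - K * P by
    rw [← hΦ] at h
    have := lt_of_mul_lt_mul_right h hw.le
    linarith
  have hηn : η * (n + 1) ≤ 1 / 20 := by nlinarith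
  rcases hK with ⟨rfl, hsum⟩ | ⟨hK1, hK2⟩
  · have e : W = N + n * w 0 ^ 2 := by
      have : W = ∑ k ∈ range n, (w k ^ 2 + w 0 ^ 2 - 2 * w 0 * w k) :=
        Finset.sum_congr rfl fun k _ => by ring
      rw [this, Finset.sum_sub_distrib, Finset.sum_add_distrib, ← Finset.mul_sum, hsum]
      simp [hN]
    have : 0 ≤ n * w 0 ^ 2 := by positivity
    nlinarith
  rcases le_total 0 P with hP0 | hP0
  · have hW0 : 0 ≤ W := Finset.sum_nonneg fun _ _ => sq_nonneg _
    have e1 : S - (n + 1) / 3 * N = ∑ j ∈ range n, ((n : ℝ) - (n + 1) / 3 - j) * w j ^ 2 := by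
      rw [hS, tri_sum, hN, Finset.mul_sum, ← Finset.sum_sub_distrib]
      exact Finset.sum_congr rfl fun j _ => by ring
    have e2 : ∑ j ∈ range n, (((n : ℝ) - (n + 1) / 3 - j) * w 0 ^ 2 -
        n * (w 0 ^ 2 / 12) - 13 * n * (w 0 + -1 * w j) ^ 2) ≤ S - (n + 1) / 3 * N := by
      rw [e1]
      refine Finset.sum_le_sum fun j hj => ?_
      have hj' : (j : ℝ) ≤ n := by exact_mod_cast (Finset.mem_range.mp hj).le
      have hj0 : (0 : ℝ) ≤ j := Nat.cast_nonneg j
      set a := (n : ℝ) - (n + 1) / 3 - j with ha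
      have a1 : 0 ≤ (n : ℝ) + a := by rw [ha]; linarith
      have a2 : 0 ≤ (n : ℝ) - a := by rw [ha]; linarith
      have b1 : 0 ≤ w 0 ^ 2 / 12 + 13 * (w 0 + -1 * w j) ^ 2 + (w j ^ 2 - w 0 ^ 2) := by
        nlinarith [sq_nonneg (w 0 - 12 * (w 0 - w j)), sq_nonneg (w 0 - w j)]
      have b2 : 0 ≤ w 0 ^ 2 / 12 + 13 * (w 0 + -1 * w j) ^ 2 - (w j ^ 2 - w 0 ^ 2) := by
        nlinarith [sq_nonneg (w 0 + 12 * (w 0 - w j)), sq_nonneg (w 0 - w j)]
      nlinarith [mul_nonneg a1 b1, mul_nonneg a2 b2]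
    rw [Finset.sum_sub_distrib, Finset.sum_sub_distrib, ← Finset.sum_mul, sum_lin,
      ← Finset.mul_sum, ← Finset.mul_sum, ← hW] at e2
    simp only [Finset.sum_const, Finset.card_range, nsmul_eq_mul] at e2
    have e3 : n * n / 12 * w 0 ^ 2 - 13 * n * W ≤ S - (n + 1) / 3 * N := by
      have : 0 ≤ n * w 0 ^ 2 := by positivity
      nlinarith
    have hc : 0 < 1 - η - 26 * n * η := by nlinarith
    have hpos : 0 < (1 - η - 26 * n * η) * W + η * (n * n / 6 * w 0 ^ 2) := by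
      by_cases hw0 : w 0 = 0
      · have : W = N := Finset.sum_congr rfl fun k _ => by rw [hw0]; ring
        rw [hw0, this]
        nlinarith [mul_pos hc hw]
      · have : 0 < η * (n * n / 6 * w 0 ^ 2) := by positivity
        nlinarith [mul_nonneg hc.le hW0]
    have f1 : K * P ≤ 2 * (1 - η) * P := mul_le_mul_of_nonneg_right hK2 hP0
    have f2 : (1 - η) * W ≤ (1 - η) * (2 * S + 2 * -1 * P) :=
      mul_le_mul_of_nonneg_left hWm (by nlinarith)
    have f3 := mul_le_mul_of_nonneg_left e3 h0.le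
    nlinarith
  · have g1 : ∑ i ∈ range ((n + 1) / 2), 4 * w 0 ^ 2 ≤ ∑ i ∈ range ((n + 1) / 2),
        (8 * (w 0 + 1 * w i) ^ 2 + 2 * (2 * w i) ^ 2) :=
      Finset.sum_le_sum fun i _ => by nlinarith [sq_nonneg (w 0 + 2 * w i)]
    rw [Finset.sum_add_distrib, ← Finset.mul_sum, ← Finset.mul_sum, ← Finset.mul_sum] at g1
    simp only [Finset.sum_const, Finset.card_range, nsmul_eq_mul] at g1
    have g2 : ∑ i ∈ range ((n + 1) / 2), (w 0 + 1 * w i) ^ 2 ≤ U :=
      Finset.sum_le_sum_of_subset_of_nonneg (Finset.range_subset_range.mpr (by omega))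
        fun _ _ _ => sq_nonneg _
    have g3 : (n : ℝ) ≤ 2 * (((n + 1) / 2 : ℕ) : ℝ) := by
      exact_mod_cast (show n ≤ 2 * ((n + 1) / 2) by omega)
    have g4 : n * w 0 ^ 2 ≤ 5 * (2 * S + 2 * 1 * P) := by
      nlinarith [mul_le_mul_of_nonneg_right g3 (sq_nonneg (w 0))]
    have g5 : N ≤ 2 * U + 2 * (n * w 0 ^ 2) := by
      have : N ≤ ∑ k ∈ range n, (2 * (w 0 + 1 * w k) ^ 2 + 2 * w 0 ^ 2) :=
        Finset.sum_le_sum fun k _ => by nlinarith [sq_nonneg (2 * w 0 + w k)]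
      rw [Finset.sum_add_distrib, ← Finset.mul_sum, ← hU] at this
      simp only [Finset.sum_const, Finset.card_range, nsmul_eq_mul] at this
      linarith
    have g6 : K * P ≤ -2 * P := mul_le_mul_of_nonpos_right hK1 hP0
    nlinarith [mul_le_mul_of_nonneg_right hηn hw.le]

end Pool.Agent.P.MP_ad1e8a_co
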