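import Mathlib

/-!
Generalised pancake graphs, the parts of the equitable partition, and the spectral gap.
-/

open Polynomial

namespace Pool.Agent.P.MP_ad1e8a_co

/-- Coloured permutations `(χ, ψ)`; positions and letters are `0, …, n-1`. -/
abbrev ColPerm (m n : ℕ) : Type := (Fin n → ZMod m) × Equiv.Perm (Fin n)

/-- The position map reversing the first `k` positions (when `k ≤ n`) and fixing the others. -/
def revPos {n : ℕ} (k : ℕ) (t : Fin n) : Fin n :=
  if h : t.val < k ∧ k ≤ n then ⟨k - 1 - t.val, by omega⟩ else t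

theorem revPos_involutive {n : ℕ} (k : ℕ) : Function.Involutive (revPos (n := n) k) := by
  intro t
  unfold revPos
  by_cases h : t.val < k ∧ k ≤ n
  · have h' : k - 1 - t.val < k ∧ k ≤ n := by omega
    simp only [h, h', and_self, dite_true]
    ext
    simp only
    omega
  · simp only [h, dite_false]

/-- The reversal `r_k^ε` of the first `k` positions, adding `ε` to their colours. -/
def flipTop {m n : ℕ} (k : ℕ) (ε : ZMod m) (σ : ColPerm m n) : ColPerm m n :=
  (fun t => if t.val < k then σ.1 (revPos k t) + ε else σ.1 t,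
    σ.2 * (revPos_involutive k).toPerm)

/-- The generalised pancake graph `P_m(n)`. -/
def pancake (m n : ℕ) : SimpleGraph (ColPerm m n) :=
  SimpleGraph.fromRel fun u v =>
    ∃ k : ℕ, 1 ≤ k ∧ k ≤ n ∧ (flipTop k 1 u = v ∨ flipTop k (-1) u = v)

/-- The part `V_{i,j}`: the first letter sits at position `j` with colour `i`. -/
def part (m n : ℕ) (a : ZMod m × Fin n) : Set (ColPerm m n) :=
  {σ | (σ.2 a.2).val = 0 ∧ σ.1 a.2 = a.1}

/-- The eigenvalues (real roots of the characteristic polynomial, with multiplicity), in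
nonincreasing order. -/
noncomputable def eigs {ι : Type} [Fintype ι] [DecidableEq ι] (A : Matrix ι ι ℝ) : List ℝ :=
  A.charpoly.roots.sort (· ≥ ·)

/-- `gap = λ₁ - λ₂`. -/
noncomputable def gap {ι : Type} [Fintype ι] [DecidableEq ι] (A : Matrix ι ι ℝ) : ℝ :=
  (eigs A).getD 0 0 - (eigs A).getD 1 0

/-- The adjacency matrix of `P_m(n)`. -/
noncomputable def adjMat (m n : ℕ) : Matrix (ColPerm m n) (ColPerm m n) ℝ :=
  open Classical in (pancake m n).adjMatrix ℝ

end Pool.Agent.P.MP_ad1e8a_co
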