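import Mathlib
import Pool.Agent.P.MP_ad1e8a_co.Defs

open Matrix Finset

namespace Pool.Agent.P.MP_ad1e8a_co

variable {ι : Type} [Fintype ι] [DecidableEq ι]

theorem spec (A : Matrix ι ι ℝ) (hA : A.IsSymm) :
    ∃ (l : Fin (Fintype.card ι) → ℝ) (v : Fin (Fintype.card ι) → ι → ℝ),
      Antitone l ∧ eigs A = List.ofFn l ∧ (∀ i, A *ᵥ v i = l i • v i) ∧
      (∀ i j, v i ⬝ᵥ v j = if i = j then 1 else 0) ∧
      (∀ f g : ι → ℝ, f ⬝ᵥ g = ∑ i, (v i ⬝ᵥ f) * (v i ⬝ᵥ g)) := by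
  have hH : A.IsHermitian := by
    rw [Matrix.IsHermitian, Matrix.conjTranspose_eq_transpose_of_trivial]; exact hA
  let e : Fin (Fintype.card ι) ≃ ι := Fintype.equivOfCardEq (Fintype.card_fin _)
  have hin : ∀ x y : EuclideanSpace ℝ ι, inner ℝ x y = x.ofLp ⬝ᵥ y.ofLp := by
    intro x y
    rw [EuclideanSpace.inner_eq_star_dotProduct, dotProduct_comm]
    simp
  refine ⟨hH.eigenvalues₀, fun i => (hH.eigenvectorBasis (e i)).ofLp,
    hH.eigenvalues₀_antitone, ?_, ?_, ?_, ?_⟩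
  · have := hH.sort_roots_charpoly_eq_eigenvalues₀
    simpa [eigs] using this
  · intro i
    have := hH.mulVec_eigenvectorBasis (e i)
    rw [this]
    congr 1
    simp [Matrix.IsHermitian.eigenvalues, e]
  · intro i j
    have h := orthonormal_iff_ite.mp hH.eigenvectorBasis.orthonormal (e i) (e j)
    rw [hin] at h
    simpa using h
  · intro f g
    have h := hH.eigenvectorBasis.sum_inner_mul_inner (WithLp.toLp 2 f) (WithLp.toLp 2 g)
    simp only [hin] at h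
    rw [← h, ← e.sum_comp]
    refine Finset.sum_congr rfl fun i _ => ?_
    rw [dotProduct_comm f]

theorem dot_one_of_ne (A : Matrix ι ι ℝ) (hA : A.IsSymm) (d : ℝ) (hrow : ∀ u, ∑ v, A u v = d)
    (x : ι → ℝ) (l : ℝ) (hx : A *ᵥ x = l • x) (hl : l ≠ d) : ∑ u, x u = 0 := by
  have h1 : ∑ u, (A *ᵥ x) u = d * ∑ u, x u := by
    simp only [Matrix.mulVec, dotProduct]
    rw [Finset.sum_comm, Finset.mul_sum]
    refine Finset.sum_congr rfl fun v _ => ?_
    rw [← Finset.sum_mul, ← hrow v]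
    congr 1
    exact Finset.sum_congr rfl fun u _ => hA.apply v u
  rw [hx] at h1
  simp only [Pi.smul_apply, smul_eq_mul, ← Finset.mul_sum] at h1
  have : (l - d) * ∑ u, x u = 0 := by linarith
  exact (mul_eq_zero.mp this).resolve_left (sub_ne_zero.mpr hl)

theorem eig_le (A : Matrix ι ι ℝ) (d : ℝ) (hnn : ∀ u v, 0 ≤ A u v) (hrow : ∀ u, ∑ v, A u v = d)
    (x : ι → ℝ) (l : ℝ) (hx0 : x ≠ 0) (hx : A *ᵥ x = l • x) : l ≤ d := by
  obtain ⟨w, hw⟩ := Function.ne_iff.mp hx0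
  obtain ⟨u, -, hu⟩ := Finset.exists_max_image Finset.univ (fun u => |x u|) ⟨w, Finset.mem_univ _⟩
  have hpos : 0 < |x u| := lt_of_lt_of_le (abs_pos.mpr hw) (hu w (Finset.mem_univ _))
  have h1 := congrFun hx u
  simp only [Matrix.mulVec, dotProduct, Pi.smul_apply, smul_eq_mul] at h1
  have h2 : |l| * |x u| ≤ d * |x u| := by
    rw [← abs_mul, ← h1, ← hrow u, Finset.sum_mul]
    refine (Finset.abs_sum_le_sum_abs _ _).trans (Finset.sum_le_sum fun v _ => ?_)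
    rw [abs_mul, abs_of_nonneg (hnn u v)]
    exact mul_le_mul_of_nonneg_left (hu v (Finset.mem_univ _)) (hnn u v)
  exact (le_abs_self l).trans (le_of_mul_le_mul_right h2 hpos)

theorem gap_eq (A : Matrix ι ι ℝ) (l : Fin (Fintype.card ι) → ℝ) (h : eigs A = List.ofFn l)
    (hc : 2 ≤ Fintype.card ι) : gap A = l ⟨0, by omega⟩ - l ⟨1, by omega⟩ := by
  unfold gap
  rw [h, List.getD_eq_getElem _ _ (by simp; omega), List.getD_eq_getElem _ _ (by simp; omega)]
  simp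

theorem gap_le (A : Matrix ι ι ℝ) (hA : A.IsSymm) (d : ℝ) (hnn : ∀ u v, 0 ≤ A u v)
    (hrow : ∀ u, ∑ v, A u v = d) (hc : 2 ≤ Fintype.card ι) (f : ι → ℝ) (hf0 : ∑ u, f u = 0)
    (hf : 0 < f ⬝ᵥ f) (g : ℝ) (hg : 0 ≤ g) (hR : (d - g) * (f ⬝ᵥ f) ≤ f ⬝ᵥ A *ᵥ f) :
    gap A ≤ g := by
  obtain ⟨l, v, hanti, heig, hv, horth, hpars⟩ := spec A hA
  rw [gap_eq A l heig hc]
  set i0 : Fin (Fintype.card ι) := ⟨0, by omega⟩ with hi0
  set i1 : Fin (Fintype.card ι) := ⟨1, by omega⟩ with hi1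
  have hvne : ∀ i, v i ≠ 0 := by
    intro i h
    have := horth i i
    rw [h] at this
    simp at this
  have h0 : l i0 ≤ d := eig_le A d hnn hrow (v i0) _ (hvne _) (hv _)
  by_contra hcon
  have hlt : l i1 < d - g := by linarith
  have hli : ∀ i, i ≠ i0 → l i < d - g := by
    intro i hi
    refine lt_of_le_of_lt (hanti ?_) hlt
    have : i.val ≠ 0 := fun h => hi (Fin.ext h)
    show 1 ≤ i.val
    omega
  have hone : ∀ i, i ≠ i0 → v i ⬝ᵥ (fun _ => (1 : ℝ)) = 0 := by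
    intro i hi
    have := dot_one_of_ne A hA d hrow (v i) (l i) (hv i) (by linarith [hli i hi])
    simpa [dotProduct] using this
  have hsum : ∀ y : ι → ℝ, y ⬝ᵥ (fun _ => (1 : ℝ)) = (v i0 ⬝ᵥ y) * (v i0 ⬝ᵥ fun _ => (1 : ℝ)) := by
    intro y
    rw [hpars, Finset.sum_eq_single i0]
    · intro i _ hi
      rw [hone i hi, mul_zero]
    · simp
  have h11 : (v i0 ⬝ᵥ fun _ => (1 : ℝ)) ≠ 0 := by
    intro h
    have := hsum fun _ => 1
    rw [h] at this
    simp [dotProduct] at this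
    omega
  have hf1 : v i0 ⬝ᵥ f = 0 := by
    have := hsum f
    have h2 : f ⬝ᵥ (fun _ => (1 : ℝ)) = 0 := by simpa [dotProduct] using hf0
    rw [h2] at this
    exact (mul_eq_zero.mp this.symm).resolve_right h11
  have hAf : ∀ i, v i ⬝ᵥ A *ᵥ f = l i * (v i ⬝ᵥ f) := by
    intro i
    rw [Matrix.dotProduct_mulVec, ← Matrix.mulVec_transpose, hA.eq, hv, smul_dotProduct,
      smul_eq_mul]
  rw [hpars f (A *ᵥ f), hpars f f, Finset.mul_sum] at hR
  rw [hpars f f] at hf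
  obtain ⟨j, -, hj⟩ := Finset.exists_lt_of_sum_lt (s := Finset.univ) (f := fun _ => (0 : ℝ))
    (g := fun i => (v i ⬝ᵥ f) * (v i ⬝ᵥ f)) (by simpa using hf)
  have hj0 : j ≠ i0 := by
    rintro rfl
    rw [hf1] at hj
    simp at hj
  refine absurd hR (not_le.mpr (Finset.sum_lt_sum (fun i _ => ?_) ⟨j, Finset.mem_univ _, ?_⟩))
  · rw [hAf]
    by_cases hi : i = i0
    · rw [hi, hf1]; simp
    · nlinarith [hli i hi, mul_self_nonneg (v i ⬝ᵥ f)]
  · rw [hAf]
    nlinarith [hli j hj0]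

theorem lt_gap (A : Matrix ι ι ℝ) (hA : A.IsSymm) (d : ℝ)
    (hrow : ∀ u, ∑ v, A u v = d) (hc : 2 ≤ Fintype.card ι) (g : ℝ)
    (h : ∀ (x : ι → ℝ) (l : ℝ), x ≠ 0 → ∑ u, x u = 0 → A *ᵥ x = l • x → l < d - g) :
    g < gap A := by
  obtain ⟨l, v, hanti, heig, hv, horth, hpars⟩ := spec A hA
  rw [gap_eq A l heig hc]
  set i0 : Fin (Fintype.card ι) := ⟨0, by omega⟩ with hi0
  set i1 : Fin (Fintype.card ι) := ⟨1, by omega⟩ with hi1
  have hvne : ∀ i, v i ≠ 0 := by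
    intro i h
    have := horth i i
    rw [h] at this
    simp at this
  have h0 : d ≤ l i0 := by
    have h1 := hpars (fun _ => 1) (fun _ => 1)
    have h2 : (0 : ℝ) < (fun _ : ι => (1 : ℝ)) ⬝ᵥ fun _ => 1 := by
      simp [dotProduct]; omega
    rw [h1] at h2
    obtain ⟨j, -, hj⟩ := Finset.exists_lt_of_sum_lt (s := Finset.univ) (f := fun _ => (0 : ℝ))
      (g := fun i => (v i ⬝ᵥ fun _ => (1 : ℝ)) * (v i ⬝ᵥ fun _ => (1 : ℝ))) (by simpa using h2)
    have hjd : l j = d := by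
      by_contra hne
      have := dot_one_of_ne A hA d hrow (v j) (l j) (hv j) hne
      have h3 : (v j ⬝ᵥ fun _ => (1 : ℝ)) = 0 := by simpa [dotProduct] using this
      rw [h3] at hj
      simp at hj
    rw [← hjd]
    exact hanti (Nat.zero_le _)
  by_contra hcon
  have hge : d - g ≤ l i1 := by linarith
  have h01 : l i1 ≤ l i0 := hanti (Nat.zero_le _)
  have hs1 : ∑ u, v i1 u ≠ 0 := fun hs => by linarith [h _ _ (hvne i1) hs (hv i1)]
  have hs0 : ∑ u, v i0 u ≠ 0 := fun hs => by linarith [h _ _ (hvne i0) hs (hv i0)]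
  have e1 : l i1 = d := by
    by_contra hne; exact hs1 (dot_one_of_ne A hA d hrow _ _ (hv _) hne)
  have e0 : l i0 = d := by
    by_contra hne; exact hs0 (dot_one_of_ne A hA d hrow _ _ (hv _) hne)
  have hne : i0 ≠ i1 := by simp [hi0, hi1]
  have := h ((∑ u, v i1 u) • v i0 - (∑ u, v i0 u) • v i1) d ?_ ?_ ?_
  · linarith
  · intro hz
    have h2 := congrArg (fun y => v i0 ⬝ᵥ y) hz
    simp only [dotProduct_sub, dotProduct_smul, horth, hne, if_true, if_false, smul_eq_mul,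
      dotProduct_zero] at h2
    exact hs1 (by linarith)
  · simp only [Pi.sub_apply, Pi.smul_apply, smul_eq_mul, Finset.sum_sub_distrib,
      ← Finset.mul_sum]
    ring
  · rw [Matrix.mulVec_sub, Matrix.mulVec_smul, Matrix.mulVec_smul, hv, hv, e0, e1, smul_sub,
      smul_comm, smul_comm (∑ u, v i0 u)]

end Pool.Agent.P.MP_ad1e8a_co
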