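import Mathlib
import Pool.Agent.P.MP_ad1e8a_co.Spectral

/-!
Arrangements of letters as position functions, reversals, insertion of a letter.
-/

open Finset

namespace Pool.Agent.P.MP_ad1e8a_co.FC

/-- The reversal of the positions `0, …, k`. -/
def rv (k t : ℕ) : ℕ := if t ≤ k then k - t else t

variable {α : Type} [Fintype α] [DecidableEq α]

/-- Injective positions below `n` for the letters of `s`, the value `N` for the other letters. -/
def St (N n : ℕ) (s : Finset α) : Finset (α → ℕ) :=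
  (Fintype.piFinset fun a => if a ∈ s then range n else {N}).filter
    fun p => ∀ a ∈ s, ∀ b ∈ s, p a = p b → a = b

variable {N n k : ℕ} {s : Finset α} {p : α → ℕ}

theorem mem_St : p ∈ St N n s ↔ (∀ a ∈ s, p a < n) ∧ (∀ a, a ∉ s → p a = N) ∧
    ∀ a ∈ s, ∀ b ∈ s, p a = p b → a = b := by
  rw [St, mem_filter, Fintype.mem_piFinset, ← and_assoc]
  refine and_congr_left' ⟨fun h => ⟨fun a ha => ?_, fun a ha => ?_⟩, fun h a => ?_⟩
  · simpa [ha] using h a
  · simpa [ha] using h a
  · split_ifs with ha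
    · exact mem_range.2 (h.1 a ha)
    · exact mem_singleton.2 (h.2 a ha)

theorem St.val (hp : p ∈ St N n s) (a : α) : p a < n ∨ p a = N := by
  by_cases ha : a ∈ s
  · exact Or.inl ((mem_St.1 hp).1 a ha)
  · exact Or.inr ((mem_St.1 hp).2.1 a ha)

/-- A move. -/
def mo (k : ℕ) (p : α → ℕ) : α → ℕ := fun a => rv k (p a)

omit [Fintype α] [DecidableEq α] in
theorem mo_mo (k : ℕ) (p : α → ℕ) : mo k (mo k p) = p := by
  funext a
  simp only [mo, rv]
  split_ifs <;> omega

theorem mo_mem (hk : k < n) (hN : n ≤ N) (hp : p ∈ St N n s) : mo k p ∈ St N n s := by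
  obtain ⟨h1, h2, h3⟩ := mem_St.1 hp
  refine mem_St.2 ⟨fun a ha => ?_, fun a ha => ?_, fun a ha b hb h => h3 a ha b hb ?_⟩
  · have := h1 a ha
    simp only [mo, rv]
    split_ifs <;> omega
  · simp only [mo, rv, h2 a ha]
    split_ifs <;> omega
  · simp only [mo, rv] at h
    split_ifs at h <;> omega

theorem sum_mo (hk : k < n) (hN : n ≤ N) (F : (α → ℕ) → ℝ) :
    ∑ p ∈ St N n s, F (mo k p) = ∑ p ∈ St N n s, F p :=
  Finset.sum_nbij' (mo k) (mo k) (fun _ h => mo_mem hk hN h) (fun _ h => mo_mem hk hN h)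
    (fun _ _ => mo_mo _ _) (fun _ _ => mo_mo _ _) fun _ _ => rfl

/-- Insertion of the letter `y` at position `i`. -/
def ins (N i : ℕ) (y : α) (p : α → ℕ) : α → ℕ :=
  fun a => if a = y then i else if i ≤ p a ∧ p a < N then p a + 1 else p a

omit [Fintype α] in
theorem ins_self (N i : ℕ) (y : α) (p : α → ℕ) : ins N i y p y = i := if_pos rfl

theorem ins_mem {y : α} {i : ℕ} (hy : y ∈ s) (hN : n + 1 ≤ N) (hp : p ∈ St N n (s.erase y))
    (hi : i < n + 1) : ins N i y p ∈ St N (n + 1) s := by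
  obtain ⟨h1, h2, h3⟩ := mem_St.1 hp
  refine mem_St.2 ⟨fun a ha => ?_, fun a ha => ?_, fun a ha b hb h => ?_⟩
  · by_cases e : a = y
    · rwa [e, ins_self]
    · have := h1 a (mem_erase.2 ⟨e, ha⟩)
      simp only [ins, e, if_false]
      split_ifs <;> omega
  · have e : a ≠ y := fun e => ha (e ▸ hy)
    simp [ins, e, h2 a fun h => ha (mem_of_mem_erase h)]
  · by_cases e : a = y <;> by_cases e' : b = y
    · rw [e, e']
    · have := h1 b (mem_erase.2 ⟨e', hb⟩)
      simp only [ins, e, e', if_true, if_false] at h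
      split_ifs at h <;> omega
    · have := h1 a (mem_erase.2 ⟨e, ha⟩)
      simp only [ins, e, e', if_true, if_false] at h
      split_ifs at h <;> omega
    · have := h1 a (mem_erase.2 ⟨e, ha⟩)
      have := h1 b (mem_erase.2 ⟨e', hb⟩)
      refine h3 a (mem_erase.2 ⟨e, ha⟩) b (mem_erase.2 ⟨e', hb⟩) ?_
      simp only [ins, e, e', if_false] at h
      split_ifs at h <;> omega

theorem sum_ins {y : α} (hy : y ∈ s) (hN : n + 1 ≤ N) (F : (α → ℕ) → ℝ) :
    ∑ p ∈ St N (n + 1) s, F p =
      ∑ p ∈ St N n (s.erase y), ∑ i ∈ range (n + 1), F (ins N i y p) := by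
  rw [← Finset.sum_product']
  refine (Finset.sum_nbij' (fun x => ins N x.2 y x.1) (fun p => (fun a => if a = y then N else
    if p y < p a ∧ p a < N then p a - 1 else p a, p y)) (fun x hx => ?_) (fun p hp => ?_)
    (fun x hx => ?_) (fun p hp => ?_) fun _ _ => rfl).symm
  · exact ins_mem hy hN (mem_product.1 hx).1 (mem_range.1 (mem_product.1 hx).2)
  · obtain ⟨h1, h2, h3⟩ := mem_St.1 hp
    have h0 := h1 y hy
    refine mem_product.2 ⟨mem_St.2 ⟨fun a ha => ?_, fun a ha => ?_, fun a ha b hb h => ?_⟩,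
      mem_range.2 h0⟩
    · obtain ⟨e, ha⟩ := mem_erase.1 ha
      have := h1 a ha
      have : p a ≠ p y := fun h => e (h3 a ha y hy h)
      simp only [e, if_false]
      split_ifs <;> omega
    · by_cases e : a = y
      · exact if_pos e
      · simp [e, h2 a fun h => ha (mem_erase.2 ⟨e, h⟩)]
    · obtain ⟨e, ha⟩ := mem_erase.1 ha
      obtain ⟨e', hb⟩ := mem_erase.1 hb
      have := h1 a ha
      have := h1 b hb
      have : p a ≠ p y := fun h => e (h3 a ha y hy h)
      have : p b ≠ p y := fun h => e' (h3 b hb y hy h)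
      refine h3 a ha b hb ?_
      simp only [e, e', if_false] at h
      split_ifs at h <;> omega
  · have h1 := (mem_product.1 hx).1
    refine Prod.ext (funext fun a => ?_) (ins_self _ _ _ _)
    by_cases e : a = y
    · simp only [e, if_true]
      exact ((mem_St.1 h1).2.1 y (notMem_erase _ _)).symm
    · have := St.val h1 a
      simp only [ins, e, if_true, if_false]
      split_ifs <;> omega
  · funext a
    by_cases e : a = y
    · rw [e, ins_self]
    · have := St.val hp a
      have h0 := (mem_St.1 hp).1 y hy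
      have : p a ≠ p y := fun h => by
        by_cases ha : a ∈ s
        · exact e ((mem_St.1 hp).2.2 a ha y hy h)
        · have := (mem_St.1 hp).2.1 a ha
          omega
      simp only [ins, e, if_false]
      split_ifs <;> omega

theorem sum_pos (hs : s.card = n) (hp : p ∈ St N n s) (F : ℕ → ℝ) :
    ∑ j ∈ range n, F j = ∑ a ∈ s, F (p a) := by
  obtain ⟨h1, -, h3⟩ := mem_St.1 hp
  rw [← Finset.sum_image h3, Finset.eq_of_subset_of_card_le (s := s.image p) (t := range n)
    (fun j hj => by obtain ⟨a, ha, rfl⟩ := mem_image.1 hj; exact mem_range.2 (h1 a ha))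
    (by rw [card_range, Finset.card_image_of_injOn h3, hs])]

theorem dec (hs : s.card = n + 1) (hN : n + 1 ≤ N) (H : (α → ℕ) → ℕ → ℝ) :
    ∑ p ∈ St N (n + 1) s, ∑ j ∈ range (n + 1), H p j =
      ∑ y ∈ s, ∑ p ∈ St N n (s.erase y), ∑ i ∈ range (n + 1), H (ins N i y p) i := by
  rw [Finset.sum_congr rfl fun p hp => sum_pos hs hp (H p), Finset.sum_comm]
  refine Finset.sum_congr rfl fun y hy => ?_
  rw [sum_ins hy hN]
  simp only [ins_self]

theorem plate (hs : s.card = n + 1) (hN : n + 1 ≤ N) (F : (α → ℕ) → ℝ) :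
    ∑ p ∈ St N (n + 1) s, F p = ∑ y ∈ s, ∑ p ∈ St N n (s.erase y), F (ins N n y p) := by
  simpa using dec hs hN fun p j => if j = n then F p else 0

theorem glue (hs : s.card = n + 1) (hN : n + 1 ≤ N) (F : (α → ℕ) → ℕ → ℝ) :
    2 * ∑ p ∈ St N (n + 1) s, ∑ j ∈ range (n + 1), F p j =
      ∑ y ∈ s, (2 * ∑ p ∈ St N n (s.erase y), F (ins N n y p) n +
        ∑ x ∈ s.erase y, ∑ p ∈ St N n (s.erase y),
          (F (ins N (p x) y p) (p x) + F (ins N (p x + 1) y p) (p x))) := by
  have h1 := dec hs hN F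
  have h2 := dec hs hN fun p j => if j = 0 then 0 else F p (j - 1)
  have h3 := plate hs hN fun p => F p n
  simp only [Finset.sum_range_succ', Nat.succ_ne_zero, if_true, if_false, add_zero,
    Nat.add_sub_cancel] at h2
  simp only [Finset.sum_range_succ, Finset.sum_add_distrib] at h1 ⊢
  have h4 : ∀ G : α → (α → ℕ) → ℕ → ℝ, ∑ y ∈ s, ∑ p ∈ St N n (s.erase y), ∑ i ∈ range n, G y p i =
      ∑ y ∈ s, ∑ x ∈ s.erase y, ∑ p ∈ St N n (s.erase y), G y p (p x) := fun G =>
    Finset.sum_congr rfl fun y hy => by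
      rw [Finset.sum_comm (s := s.erase y)]
      exact Finset.sum_congr rfl fun p hp =>
        sum_pos (by rw [card_erase_of_mem hy, hs, Nat.add_sub_cancel]) hp _
  rw [← h4 fun y p i => F (ins N i y p) i, ← h4 fun y p i => F (ins N (i + 1) y p) i,
    ← Finset.mul_sum]
  linarith

/-- The index of a move that avoids the cut `t`. -/
def lift (t k : ℕ) : ℕ := if k < t then k else k + 1

theorem sum_lift {t : ℕ} (ht : t ≤ n) (f : ℕ → ℝ) :
    ∑ k ∈ range (n + 1), f k - f t = ∑ k ∈ range n, f (lift t k) := by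
  induction n, ht using Nat.le_induction with
  | base =>
    rw [Finset.sum_range_succ, add_sub_cancel_right]
    exact Finset.sum_congr rfl fun k hk => by rw [lift, if_pos (mem_range.1 hk)]
  | succ n hn ih =>
    rw [Finset.sum_range_succ, Finset.sum_range_succ _ n, Finset.sum_range_succ _ n, ← ih,
      Finset.sum_range_succ, lift, if_neg (by omega)]
    ring

theorem mo_ins_last (y : α) (hp : p ∈ St N n s) (hk : k < n) :
    mo k (ins N n y p) = ins N n y (mo k p) := by
  funext a
  have := St.val hp a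
  simp only [mo, ins, rv]
  split_ifs <;> omega

theorem mo_ins (y : α) {t : ℕ} (hp : p ∈ St N n s) (hk : k < n) (hN : n + 1 ≤ N) :
    mo (lift t k) (ins N t y p) = ins N (rv k t + if t ≤ k then 1 else 0) y (mo k p) ∧
    mo (lift t k) (ins N (t + 1) y p) = ins N (rv k t + if t ≤ k then 0 else 1) y (mo k p) := by
  constructor <;> funext a <;> have := St.val hp a <;> simp only [mo, ins, rv, lift] <;> grind

section charge
variable {G : Type} [AddCommMonoid G] (ch : α → G)

/-- The total charge of the letters at the positions `0, …, k`. -/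
def pc (p : α → ℕ) (k : ℕ) : G := ∑ a, if p a ≤ k then ch a else 0

omit [DecidableEq α] in
theorem pc_mo (p : α → ℕ) (k : ℕ) : pc ch (mo k p) k = pc ch p k :=
  Finset.sum_congr rfl fun a _ => if_congr (by simp only [mo, rv]; split_ifs <;> omega) rfl rfl

theorem pc_update (x : α) (z : G) (p : α → ℕ) (k : ℕ) :
    pc (Function.update ch x (ch x + z)) p k = pc ch p k + if p x ≤ k then z else 0 := by
  rw [pc, pc, ← Finset.add_sum_erase _ _ (mem_univ x), ← Finset.add_sum_erase _ _ (mem_univ x),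
    Function.update_self, add_right_comm]
  congr 1
  · split_ifs <;> simp
  · exact Finset.sum_congr rfl fun a ha => by rw [Function.update_of_ne (mem_erase.1 ha).1]

theorem pc_ins {y : α} {i j : ℕ} (hp : p ∈ St N n (s.erase y)) (hk : k < n) (hN : n ≤ N)
    (h : ∀ t < n, (if i ≤ t then t + 1 else t) ≤ j ↔ t ≤ k) (hj : j < N) :
    pc ch (ins N i y p) j = pc ch p k + if i ≤ j then ch y else 0 := by
  have h0 := (mem_St.1 hp).2.1 y (notMem_erase _ _)
  rw [pc, pc, ← Finset.add_sum_erase _ _ (mem_univ y), ← Finset.add_sum_erase _ _ (mem_univ y),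
    ins_self, if_neg (show ¬p y ≤ k by omega), zero_add, add_comm]
  congr 1
  refine Finset.sum_congr rfl fun a ha => if_congr ?_ rfl rfl
  simp only [ins, (mem_erase.1 ha).1, if_false]
  rcases St.val hp a with e | e
  · have := h _ e
    split_ifs at this ⊢ <;> omega
  · split_ifs <;> omega

theorem pc_zero (hp : p ∈ St N n s) (hk : k < N) (h : ∀ a ∈ s, ch a = 0) : pc ch p k = 0 :=
  Finset.sum_eq_zero fun a _ => by
    by_cases ha : a ∈ s
    · rw [h a ha, ite_self]
    · rw [(mem_St.1 hp).2.1 a ha, if_neg (by omega)]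

theorem pc_one {x : α} (hp : p ∈ St N n s) (hk : k < N) (h : ∀ a ∈ s.erase x, ch a = 0) :
    pc ch p k = if p x ≤ k then ch x else 0 :=
  Finset.sum_eq_single_of_mem x (mem_univ x) fun a _ e => by
    by_cases ha : a ∈ s
    · rw [h a (mem_erase.2 ⟨e, ha⟩), ite_self]
    · rw [(mem_St.1 hp).2.1 a ha, if_neg (by omega)]

theorem pc_two {x y : α} (hp : p ∈ St N n s) (hk : k < N) (hxy : x ≠ y)
    (h : ∀ a ∈ s, a ≠ x → a ≠ y → ch a = 0) :
    pc ch p k = (if p x ≤ k then ch x else 0) + if p y ≤ k then ch y else 0 :=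
  Finset.sum_eq_add_of_mem x y (mem_univ x) (mem_univ y) hxy fun a _ e => by
    by_cases ha : a ∈ s
    · rw [h a ha e.1 e.2, ite_self]
    · rw [(mem_St.1 hp).2.1 a ha, if_neg (by omega)]

end charge

/-- The weighted operator. -/
def Op (n : ℕ) (W : (α → ℕ) → ℕ → ℝ) (g : (α → ℕ) → ℝ) (p : α → ℕ) : ℝ :=
  ∑ k ∈ range n, W p k * g (mo k p)

/-- The energy of one move. -/
def en (W : (α → ℕ) → ℕ → ℝ) (g : (α → ℕ) → ℝ) (p : α → ℕ) (k : ℕ) : ℝ :=
  g p ^ 2 - W p k * g p * g (mo k p)

/-- The energy. -/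
def Phi (N n : ℕ) (s : Finset α) (W : (α → ℕ) → ℕ → ℝ) (g : (α → ℕ) → ℝ) : ℝ :=
  ∑ p ∈ St N n s, ∑ k ∈ range n, en W g p k

/-- The squared norm. -/
def Nm (N n : ℕ) (s : Finset α) (g : (α → ℕ) → ℝ) : ℝ := ∑ p ∈ St N n s, g p ^ 2

variable {W : (α → ℕ) → ℕ → ℝ} {g : (α → ℕ) → ℝ}

theorem Phi_eq : Phi N n s W g = n * Nm N n s g - ∑ p ∈ St N n s, g p * Op n W g p := by
  simp only [Phi, Nm, Op, en, Finset.sum_sub_distrib, Finset.mul_sum, Finset.sum_const,
    card_range, nsmul_eq_mul]
  congr 1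
  exact Finset.sum_congr rfl fun p _ => Finset.sum_congr rfl fun k _ => by ring

theorem Op_symm (hN : n ≤ N) (hW : ∀ p k, W (mo k p) k = W p k) (φ g : (α → ℕ) → ℝ) :
    ∑ p ∈ St N n s, φ p * Op n W g p = ∑ p ∈ St N n s, Op n W φ p * g p := by
  simp only [Op, Finset.mul_sum, Finset.sum_mul]
  rw [Finset.sum_comm, Finset.sum_comm (s := St N n s)]
  refine Finset.sum_congr rfl fun k hk => ?_
  rw [← sum_mo (mem_range.1 hk) hN]
  exact Finset.sum_congr rfl fun p _ => by rw [mo_mo, hW]; ring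

theorem en_ge (hk : k < n) (hN : n ≤ N) (hW : ∀ p k, W (mo k p) k = W p k) :
    ∑ p ∈ St N n s, (1 - |W p k|) * g p ^ 2 ≤ ∑ p ∈ St N n s, en W g p k := by
  have h := sum_mo (s := s) hk hN fun p => |W p k| * g p ^ 2
  simp only [hW] at h
  have h2 : ∑ p ∈ St N n s, W p k * g p * g (mo k p) ≤
      ∑ p ∈ St N n s, (|W p k| * g p ^ 2 + |W p k| * g (mo k p) ^ 2) / 2 :=
    Finset.sum_le_sum fun p _ => by
      rcases abs_cases (W p k) with e | e <;> rw [e.1]
      · nlinarith [mul_nonneg e.2 (sq_nonneg (g p - g (mo k p)))]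
      · nlinarith [mul_nonneg (neg_pos.2 e.2).le (sq_nonneg (g p + g (mo k p)))]
  rw [← Finset.sum_div, Finset.sum_add_distrib, h] at h2
  simp only [en, sub_mul, one_mul, Finset.sum_sub_distrib]
  linarith

theorem eig_zero {l γ : ℝ} (he : ∀ p ∈ St N n s, Op n W g p = l * g p)
    (h : γ * Nm N n s g ≤ Phi N n s W g) (hl : n - l < γ) : ∀ p ∈ St N n s, g p = 0 := by
  have h1 : ∑ p ∈ St N n s, g p * Op n W g p = l * Nm N n s g := by
    rw [Nm, Finset.mul_sum]
    exact Finset.sum_congr rfl fun p hp => by rw [he p hp]; ring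
  rw [Phi_eq, h1] at h
  have h2 : 0 ≤ Nm N n s g := Finset.sum_nonneg fun _ _ => sq_nonneg _
  have h3 : Nm N n s g = 0 := by nlinarith
  exact fun p hp => pow_eq_zero_iff two_ne_zero |>.1
    ((Finset.sum_eq_zero_iff_of_nonneg fun _ _ => sq_nonneg _).1 h3 p hp)

open Matrix in
theorem quad (hN : n ≤ N) (hW : ∀ p k, W (mo k p) k = W p k) {γ : ℝ}
    (h : ∀ (v : (α → ℕ) → ℝ) (l : ℝ), n - l < γ → (∀ p ∈ St N n s, Op n W v p = l * v p) →
      ∑ p ∈ St N n s, v p * g p = 0) : γ * Nm N n s g ≤ Phi N n s W g := by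
  let M : Matrix (St N n s) (St N n s) ℝ := fun p q =>
    ∑ k ∈ range n, if mo k p.1 = q.1 then W p k else 0
  have hM : ∀ (v : (α → ℕ) → ℝ) (p : St N n s), (M *ᵥ fun q => v q.1) p = Op n W v p := by
    intro v p
    simp only [M, mulVec, dotProduct, Finset.sum_mul, Op]
    rw [Finset.sum_comm]
    refine Finset.sum_congr rfl fun k hk => ?_
    rw [Finset.sum_eq_single ⟨_, mo_mem (mem_range.1 hk) hN p.2⟩
      (fun q _ hq => by rw [if_neg fun e => hq (Subtype.ext e.symm), zero_mul]) (by simp), if_pos rfl]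
  have hS : M.IsSymm := by
    ext p q
    simp only [M, transpose_apply]
    refine Finset.sum_congr rfl fun k _ => ?_
    by_cases e : mo k p.1 = q.1
    · rw [if_pos e, if_pos (by rw [← e, mo_mo]), ← e, hW]
    · rw [if_neg e, if_neg fun e' => e (by rw [← e', mo_mo])]
  obtain ⟨l, v, -, -, hv, -, hpars⟩ := spec M hS
  have h1 := hpars (fun q => g q.1) (fun q => g q.1)
  have h2 := hpars (fun q => g q.1) (M *ᵥ fun q => g q.1)
  simp only [dotProduct] at h1
  rw [Finset.sum_coe_sort (St N n s) fun p => g p * g p] at h1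
  rw [dotProduct, Finset.sum_congr rfl fun p _ => by rw [hM],
    Finset.sum_coe_sort (St N n s) fun p => g p * Op n W g p] at h2
  have h3 : Nm N n s g = ∑ i, (v i ⬝ᵥ fun q => g q.1) * (v i ⬝ᵥ fun q => g q.1) := by
    simp only [Nm, sq, h1, dotProduct]
  rw [Phi_eq, h2, h3, Finset.mul_sum, Finset.mul_sum, ← Finset.sum_sub_distrib]
  refine Finset.sum_le_sum fun i _ => ?_
  rw [Matrix.dotProduct_mulVec, ← Matrix.mulVec_transpose, hS.eq, hv, smul_dotProduct, smul_eq_mul]
  rcases lt_or_ge (n - l i) γ with k | k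
  · let u : (α → ℕ) → ℝ := fun p => if hp : p ∈ St N n s then v i ⟨p, hp⟩ else 0
    have e : (fun q : St N n s => u q.1) = v i := funext fun q => dif_pos q.2
    have := h u (l i) k fun p hp => by
      rw [← hM u ⟨p, hp⟩, e, hv]
      exact congrArg _ (congrFun e ⟨p, hp⟩).symm
    rw [← Finset.sum_coe_sort] at this
    rw [← e, dotProduct, this]
    simp
  · nlinarith [mul_self_nonneg (v i ⬝ᵥ fun q => g q.1)]

theorem quad_c (hN : n ≤ N) (hW : ∀ p k, W (mo k p) k = W p k) {γ : ℝ} {c : Prop}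
    (hc : c → ∀ p ∈ St N n s, ∀ k < n, W p k = 1)
    (h : ∀ (v : (α → ℕ) → ℝ) (l : ℝ), n - l < γ → (∀ p ∈ St N n s, Op n W v p = l * v p) →
      (c → ∑ p ∈ St N n s, v p = 0) → ∀ p ∈ St N n s, v p = 0)
    (hg : c → ∑ p ∈ St N n s, g p = 0) : γ * Nm N n s g ≤ Phi N n s W g := by
  refine quad hN hW fun v l hl hv => ?_
  by_cases hc' : c
  · have h1 : ∀ p ∈ St N n s, Op n W (fun _ => 1) p = n := fun p hp => by
      rw [Op, Finset.sum_congr rfl fun k hk => by rw [hc hc' p hp k (mem_range.1 hk)]]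
      simp
    set b := (∑ p ∈ St N n s, v p) / (St N n s).card with hb
    have h2 : (l - n) * b = 0 := by
      have := Op_symm (s := s) hN hW (fun _ => 1) v
      rw [Finset.sum_congr rfl (g := fun p => l * v p) fun p hp => by rw [hv p hp, one_mul],
        Finset.sum_congr rfl (f := fun p => Op n W (fun _ => 1) p * v p) (g := fun p => n * v p)
          fun p hp => by rw [h1 p hp], ← Finset.mul_sum, ← Finset.mul_sum] at this
      rw [hb, ← mul_div_assoc, sub_mul, this, sub_self, zero_div]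
    have h3 := h (fun p => v p - b) l hl (fun p hp => by
      have e : Op n W (fun p => v p - b) p = Op n W v p - b * Op n W (fun _ => 1) p := by
        simp only [Op, Finset.mul_sum, ← Finset.sum_sub_distrib]
        exact Finset.sum_congr rfl fun k _ => by ring
      rw [e, hv p hp, h1 p hp]
      linear_combination h2) fun _ => by
        rw [Finset.sum_sub_distrib, Finset.sum_const, nsmul_eq_mul, hb]
        rcases Finset.eq_empty_or_nonempty (St N n s) with e | e
        · simp [e]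
        · rw [mul_div_cancel₀ _ (by exact_mod_cast e.card_pos.ne'), sub_self]
    rw [Finset.sum_congr rfl fun p hp => by rw [sub_eq_zero.1 (h3 p hp)], ← Finset.mul_sum, hg hc',
      mul_zero]
  · exact Finset.sum_eq_zero fun p hp => by rw [h v l hl hv (fun e => absurd e hc') p hp, zero_mul]

end Pool.Agent.P.MP_ad1e8a_co.FC
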