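import Mathlib

/-!
Test vectors on pairs of positions that beat an eigenvalue of a block `2 D + K E`.
-/

open Finset

namespace Pool.Agent.P.MP_ad1e8a_co.S7

/-- The two-position operator at the pair `(p, p + d)`, with `n = p + d + e`. -/
def TT (c : ℝ) (g : ℕ → ℕ → ℝ) (p d e : ℕ) : ℝ :=
  2 * p * g p (p + d) + 2 * c * ∑ i ∈ range d, g i (p + d) + 2 * ∑ i ∈ range e, g i (i + d)

/-- `g` is a nonnegative vector with `T g ≥ l g`, strictly at the pair `(0, 1)`. -/
def Beats (n : ℕ) (c l : ℝ) (g : ℕ → ℕ → ℝ) : Prop :=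
  (∀ p q, 0 ≤ g p q) ∧ (∀ p d e, 0 < d → 0 < e → p + d + e = n → l * g p (p + d) ≤ TT c g p d e) ∧
    0 < g 0 1 ∧ l * g 0 1 < TT c g 0 1 (n - 1)

theorem row {n : ℕ} {K l : ℝ} {w : ℕ → ℝ}
    (heq : ∀ j < n, l * w j = ∑ k ∈ range n, if j ≤ k then K * w (k - j) else 2 * w j)
    (j e : ℕ) (he : 0 < e) (h : j + e = n) : (l - 2 * j) * w j = K * ∑ i ∈ range e, w i := by
  have h1 := heq j (by omega)
  have h2 : ∑ x ∈ range e, (if j ≤ j + x then K * w (j + x - j) else 2 * w j) =
      K * ∑ i ∈ range e, w i := by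
    rw [Finset.mul_sum]
    exact Finset.sum_congr rfl fun k _ => by
      rw [if_pos (Nat.le_add_right _ _), Nat.add_sub_cancel_left]
  rw [← h, Finset.sum_range_add, Finset.sum_congr rfl (g := fun _ => 2 * w j)
    (fun k hk => if_neg (not_le.2 (mem_range.1 hk))), h2] at h1
  simp only [Finset.sum_const, Finset.card_range, nsmul_eq_mul] at h1
  linarith

theorem w0_ne {n : ℕ} {K l : ℝ} {w : ℕ → ℝ} (hl : 2 * ((n : ℝ) - 1) < l)
    (hr : ∀ j e, 0 < e → j + e = n → (l - 2 * j) * w j = K * ∑ i ∈ range e, w i)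
    (hw : ∃ j < n, w j ≠ 0) : w 0 ≠ 0 := by
  intro h0
  have hp : ∀ j < n, l - 2 * (j : ℝ) ≠ 0 := fun j hj => by
    have : (j : ℝ) + 1 ≤ n := by exact_mod_cast hj
    linarith [this]
  have key : ∀ j, j < n → ∀ i ≤ j, w i = 0 := by
    intro j
    induction j with
    | zero => intro _ i hi; rw [Nat.le_zero.1 hi, h0]
    | succ j ih =>
      intro hj i hi
      have ih' := ih (by omega)
      rcases Nat.lt_or_ge i (j + 1) with h | h
      · exact ih' i (by omega)
      obtain ⟨e, he⟩ : ∃ e, j + 1 + (e + 1) = n := ⟨n - j - 2, by omega⟩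
      have h1 := hr (e + 1) (j + 1) (by omega) (by omega)
      rw [Finset.sum_eq_zero (fun i hi => ih' i (by have := mem_range.1 hi; omega)), mul_zero] at h1
      have h2 := (mul_eq_zero.1 h1).resolve_left (hp _ (by omega))
      have h3 := hr j (e + 1 + 1) (by omega) (by omega)
      rw [Finset.sum_range_succ, h2, add_zero, ih' j le_rfl, mul_zero] at h3
      have h4 := hr (j + 1) (e + 1) (by omega) he
      rw [← h3] at h4
      rw [le_antisymm hi h]
      exact (mul_eq_zero.1 h4).resolve_left (hp _ hj)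
  obtain ⟨j, hj, h⟩ := hw
  exact h (key j hj j le_rfl)

theorem beats_pos {n : ℕ} (hn : 2 ≤ n) {c l : ℝ} (hc0 : 0 < c) (hc1 : c < 1) {v : ℕ → ℝ}
    (hv : ∀ i, 0 ≤ v i) (h0 : 0 < v 0)
    (hr : ∀ j e, 0 < e → j + e = n → (l - 2 * j) * v j ≤ 2 * c * ∑ i ∈ range e, v i) :
    Beats n c l fun p q => max (v p) (v (n - (q - p))) := by
  have a1 : ∀ d q : ℕ, ∑ i ∈ range d, v i ≤ ∑ i ∈ range d, max (v i) (v (n - (q - i))) :=
    fun d q => Finset.sum_le_sum fun i _ => le_max_left _ _
  have a2 : ∀ d e : ℕ, e * v (n - d) ≤ ∑ i ∈ range e, max (v i) (v (n - (i + d - i))) := fun d e => by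
    have := Finset.sum_le_sum (s := range e) (f := fun _ => v (n - d))
      (g := fun i => max (v i) (v (n - (i + d - i)))) fun i _ => by
        rw [Nat.add_sub_cancel_left]; exact le_max_right _ _
    simpa only [Finset.sum_const, Finset.card_range, nsmul_eq_mul] using this
  have a3 : ∀ d e : ℕ, ∑ i ∈ range e, v i ≤ ∑ i ∈ range e, max (v i) (v (n - (i + d - i))) :=
    fun d e => Finset.sum_le_sum fun i _ => le_max_left _ _
  have a4 : ∀ p d e : ℕ, p + d + e = n →
      ∑ i ∈ range d, v (e + i) ≤ ∑ i ∈ range d, max (v i) (v (n - (p + d - i))) :=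
    fun p d e h => Finset.sum_le_sum fun i hi => by
      have := mem_range.1 hi
      rw [show n - (p + d - i) = e + i by omega]; exact le_max_right _ _
  have a5 : ∀ e, 0 ≤ ∑ i ∈ range e, v i := fun e => Finset.sum_nonneg fun i _ => hv i
  refine ⟨fun p q => (hv p).trans (le_max_left _ _), fun p d e hd he h => ?_,
    h0.trans_le (le_max_left _ _), ?_⟩
  · simp only [TT, Nat.add_sub_cancel_left p d]
    rcases le_total (v p) (v (n - d)) with k | k
    · rw [max_eq_right k]
      have h1 := hr (p + e) d hd (by omega)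
      have h2 := a2 d e
      rw [show n - d = p + e by omega] at h2 ⊢
      push_cast at h1
      nlinarith [mul_le_mul_of_nonneg_left (a1 d (p + d)) hc0.le]
    · rw [max_eq_left k]
      have h1 := hr p (e + d) (by omega) (by omega)
      rw [Finset.sum_range_add] at h1
      nlinarith [mul_le_mul_of_nonneg_left (a4 p d e h) hc0.le, a3 d e, a5 e]
  · simp only [TT, Finset.sum_range_one, Nat.zero_add, Nat.sub_zero, Nat.cast_zero]
    rcases lt_or_ge (v 0) (v (n - 1)) with k | k
    · rw [max_eq_right k.le]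
      have h1 := hr (n - 1) 1 one_pos (by omega)
      rw [Finset.sum_range_one] at h1
      nlinarith [a2 1 (n - 1), mul_lt_mul_of_pos_left k hc0]
    · rw [max_eq_left k]
      have h1 := hr 0 (n - 1 + 1) (by omega) (by omega)
      rw [Finset.sum_range_succ] at h1
      have h2 : v 0 ≤ ∑ i ∈ range (n - 1), v i :=
        Finset.single_le_sum (fun i _ => hv i) (mem_range.2 (by omega))
      push_cast at h1
      nlinarith [a3 1 (n - 1), mul_le_mul_of_nonneg_left k hc0.le]

theorem beats_adj {N : ℕ} (hN : 1 ≤ N) {c l ρ : ℝ} (hc0 : 0 < c) (hc1 : c < 1)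
    (hρ : ρ * (N + 1) = 2 * c + 2 * c ^ 2) (hl : l < 2 * (N + 1) + ρ) :
    Beats (N + 2) c l fun p q => if q = p + 1 then (if p = 0 then 2 * N else 2 * N + ρ - 2 * c)
      else if p = 0 then 2 * c else 0 := by
  have hN' : (1 : ℝ) ≤ N := by exact_mod_cast hN
  have hρ0 : 0 < ρ := by
    by_contra h
    nlinarith [mul_nonpos_of_nonpos_of_nonneg (not_lt.1 h) (show (0 : ℝ) ≤ N + 1 by linarith)]
  have hρ1 : ρ ≤ 2 * c := by
    by_contra h
    nlinarith [mul_lt_mul_of_pos_right (not_le.1 h) (show (0 : ℝ) < N + 1 by linarith)]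
  set g : ℕ → ℕ → ℝ := fun p q => if q = p + 1 then (if p = 0 then 2 * N else 2 * N + ρ - 2 * c)
      else if p = 0 then 2 * c else 0 with hg
  have g0 : ∀ p q, 0 ≤ g p q := fun p q => by
    simp only [hg]
    split_ifs <;> linarith
  have g1 : g 0 1 = 2 * N := by simp [hg]
  have g2 : ∀ p, g (p + 1) (p + 1 + 1) = 2 * N + ρ - 2 * c := fun p => by simp [hg]
  have g3 : ∀ q, g 0 (q + 2) = 2 * c := fun q => by simp [hg]
  have g4 : ∀ e : ℕ, ∑ i ∈ range (e + 1), g i (i + 1) = e * (2 * N + ρ - 2 * c) + 2 * N := fun e => by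
    rw [Finset.sum_range_succ', Finset.sum_congr rfl fun i _ => g2 i, Nat.zero_add, g1]
    simp only [Finset.sum_const, Finset.card_range, nsmul_eq_mul]
  have t1 : TT c g 0 1 (N + 1) = (2 * (N + 1) + ρ) * (2 * N) := by
    rw [TT, g4, Finset.sum_range_one, Nat.zero_add, g1]
    push_cast
    ring
  have main : ∀ p d e, 0 < d → 0 < e → p + d + e = N + 2 →
      (2 * (N + 1) + ρ) * g p (p + d) ≤ TT c g p d e := by
    intro p d e hd he h
    obtain ⟨e, rfl⟩ : ∃ e', e = e' + 1 := ⟨e - 1, by omega⟩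
    rcases Nat.eq_or_lt_of_le hd with rfl | hd
    · cases p with
      | zero =>
        obtain rfl : e = N := by omega
        rw [t1, Nat.zero_add]
        exact (congrArg _ g1).le
      | succ p =>
        have h1 : (N : ℝ) = p + 1 + e := by exact_mod_cast (show N = p + 1 + e by omega)
        change _ * g (p + 1) (p + 1 + 1) ≤ TT c g (p + 1) 1 (e + 1)
        rw [TT, g4, Finset.sum_range_one, g2, show p + 1 + 1 = p + 2 from rfl, g3]
        push_cast
        have h2 : (e : ℝ) = N - p - 1 := by linarith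
        rw [h2]
        nlinarith [mul_nonneg hρ0.le (sub_nonneg.2 hρ1)]
    · obtain ⟨d, rfl⟩ : ∃ d', d = d' + 2 := ⟨d - 2, by omega⟩
      cases p with
      | zero =>
        have h1 : g 0 (d + 2) + g (d + 1) (d + 2) ≤ ∑ i ∈ range (d + 2), g i (d + 2) := by
          rw [Finset.sum_range_succ]
          exact add_le_add_left (Finset.single_le_sum (f := fun i => g i (d + 2))
            (fun i _ => g0 _ _) (mem_range.2 (Nat.succ_pos d))) _
        have h2 : g 0 (0 + (d + 2)) ≤ ∑ i ∈ range (e + 1), g i (i + (d + 2)) :=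
          Finset.single_le_sum (f := fun i => g i (i + (d + 2)))
            (fun i _ => g0 _ _) (mem_range.2 (Nat.succ_pos e))
        rw [Nat.zero_add, g3] at h2
        rw [g3, g2] at h1
        rw [TT, Nat.zero_add, g3]
        push_cast
        nlinarith [mul_le_mul_of_nonneg_left h1 hc0.le]
      | succ p =>
        have h1 : g (p + 1) (p + 1 + (d + 2)) = 0 := by simp [hg]
        rw [TT, h1, mul_zero, mul_zero, zero_add]
        exact add_nonneg (mul_nonneg (by linarith) (Finset.sum_nonneg fun i _ => g0 _ _))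
          (mul_nonneg two_pos.le (Finset.sum_nonneg fun i _ => g0 _ _))
  refine ⟨g0, fun p d e hd he h => (mul_le_mul_of_nonneg_right hl.le (g0 _ _)).trans
    (main p d e hd he h), by rw [g1]; linarith, ?_⟩
  rw [show N + 2 - 1 = N + 1 from rfl, t1, g1]
  exact mul_lt_mul_of_pos_right hl (by linarith)

theorem beats_two {c l : ℝ} (hl : l < 2 + 2 * c) : Beats 2 c l fun _ _ => 1 := by
  have h : l * 1 < TT c (fun _ _ => 1) 0 1 1 := by
    simp only [TT, Finset.sum_range_one, Nat.cast_zero]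
    linarith
  refine ⟨fun _ _ => zero_le_one, fun p d e hd he k => ?_, one_pos, h⟩
  obtain rfl : p = 0 := by omega
  obtain rfl : d = 1 := by omega
  obtain rfl : e = 1 := by omega
  exact h.le

/-- Harmonic numbers. -/
noncomputable def H (n : ℕ) : ℝ := ∑ i ∈ range n, 1 / ((i : ℝ) + 1)

theorem H_succ (n : ℕ) : H (n + 1) = H n + 1 / ((n : ℝ) + 1) := Finset.sum_range_succ _ _

theorem H_le (n : ℕ) : H n ≤ 8 / 5 + n / 7 := by
  rcases Nat.lt_or_ge n 6 with h | h
  · interval_cases n <;> norm_num [H, Finset.sum_range_succ]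
  · induction n, h using Nat.le_induction with
    | base => norm_num [H, Finset.sum_range_succ]
    | succ n hn ih =>
      have h1 : (6 : ℝ) ≤ n := by exact_mod_cast hn
      have h2 : 1 / ((n : ℝ) + 1) ≤ 1 / 7 := one_div_le_one_div_of_le (by norm_num) (by linarith)
      rw [H_succ]
      push_cast
      linarith

theorem pair (N : ℕ) (u v : ℕ → ℝ) :
    ∑ j ∈ range N, ∑ r ∈ range (N - j), (u j + u r) * (v j + v r) =
      2 * ∑ j ∈ range N, u j * ∑ r ∈ range (N - j), (v j + v r) := by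
  have sw : ∑ j ∈ range N, ∑ r ∈ range (N - j), u r * (v j + v r) =
      ∑ j ∈ range N, ∑ r ∈ range (N - j), u j * (v j + v r) := by
    rw [Finset.sum_comm' (t' := range N) (s' := fun r => range (N - r))
      (fun j r => by simp only [mem_range]; omega)]
    exact Finset.sum_congr rfl fun j _ => Finset.sum_congr rfl fun r _ => by ring
  simp only [add_mul, Finset.sum_add_distrib (f := fun r => u _ * (v _ + v r)), two_mul]
  rw [Finset.sum_add_distrib, sw]
  simp only [Finset.mul_sum]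

theorem key (N : ℕ) (y : ℕ → ℝ) (τ : ℝ) :
    2 * τ * (N + 1) * ∑ j ∈ range N, y j ≤
      ∑ j ∈ range N, y j * ∑ r ∈ range (N - j), (y j + y r) + τ ^ 2 * (N + 1) * (N * H N) := by
  set z : ℕ → ℝ := fun j => H j - H (N - j) + (N + 1) / ((N : ℝ) - j) with hz
  have s1 : ∀ l ≤ N, ∑ r ∈ range l, z r = l * (H l - H (N - l)) := by
    intro l
    induction l with
    | zero => simp
    | succ l ih =>
      intro hl
      obtain ⟨e, he⟩ : ∃ e, N = l + 1 + e := ⟨N - (l + 1), by omega⟩
      have h1 : (N : ℝ) = l + 1 + e := by exact_mod_cast he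
      rw [Finset.sum_range_succ, ih (by omega)]
      simp only [hz]
      rw [show N - l = e + 1 by omega, show N - (l + 1) = e by omega, H_succ, H_succ, h1,
        show (l : ℝ) + 1 + e - l = e + 1 by ring]
      push_cast
      field_simp
      ring
  have s2 : ∀ j ∈ range N, ∑ r ∈ range (N - j), (z j + z r) = N + 1 := fun j hj => by
    have h0 := mem_range.1 hj
    have h1 : (j : ℝ) < N := by exact_mod_cast h0
    have h2 : (N : ℝ) - j ≠ 0 := by linarith [h1]
    rw [Finset.sum_add_distrib, s1 _ (Nat.sub_le _ _), show N - (N - j) = j by omega]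
    simp only [Finset.sum_const, Finset.card_range, nsmul_eq_mul, hz, Nat.cast_sub h0.le]
    field_simp
    ring
  have p1 := pair N y y
  have p2 := pair N y z
  have p3 := pair N z z
  rw [Finset.sum_congr rfl fun j hj => congrArg (y j * ·) (s2 j hj), ← Finset.sum_mul] at p2
  rw [Finset.sum_congr rfl fun j hj => congrArg (z j * ·) (s2 j hj), ← Finset.sum_mul,
    s1 N le_rfl, Nat.sub_self, show H 0 = 0 from Finset.sum_range_zero _, sub_zero] at p3
  have h : 0 ≤ ∑ j ∈ range N, ∑ r ∈ range (N - j), ((y j + y r) * (y j + y r) -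
      2 * τ * ((y j + y r) * (z j + z r)) + τ ^ 2 * ((z j + z r) * (z j + z r))) :=
    Finset.sum_nonneg fun j _ => Finset.sum_nonneg fun r _ => by
      nlinarith [sq_nonneg (y j + y r - τ * (z j + z r))]
  simp only [Finset.sum_add_distrib (g := fun r => τ ^ 2 * ((z _ + z r) * (z _ + z r))),
    Finset.sum_sub_distrib, ← Finset.mul_sum] at h
  rw [Finset.sum_add_distrib, Finset.sum_sub_distrib, ← Finset.mul_sum, ← Finset.mul_sum, p1, p2,
    p3] at h
  linarith

theorem neg_bound {N : ℕ} {s l : ℝ} (hs0 : 0 < s) (hs1 : s ≤ 1) {w : ℕ → ℝ}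
    (hl : 2 * ((N : ℝ) + 1) < l) (h0 : w 0 ≠ 0)
    (hr : ∀ j e, 0 < e → j + e = N + 2 → (l - 2 * j) * w j = -2 * s * ∑ i ∈ range e, w i) :
    (l - 2 * (N + 1)) * (l + 2 * s - 2 * s * (N * H N / (N + 1))) ≤ 4 * s ^ 2 := by
  have hN : (0 : ℝ) < N + 1 := by positivity
  have r1 := hr (N + 1) 1 one_pos rfl
  have r0 := hr 0 (N + 2) (by omega) (by omega)
  rw [Finset.sum_range_one] at r1
  rw [Finset.sum_range_succ, Finset.sum_range_succ'] at r0
  push_cast at r0 r1
  set Y := ∑ i ∈ range N, w (i + 1) with hY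
  have k1 := key N (fun i => w (i + 1)) (-w 0 / (N + 1))
  have k2 : s * ∑ j ∈ range N, w (j + 1) * ∑ r ∈ range (N - j), (w (j + 1) + w (r + 1)) ≤
      -s * w 0 * Y := by
    rw [hY, Finset.mul_sum, Finset.mul_sum]
    refine Finset.sum_le_sum fun j hj => ?_
    have h1 := mem_range.1 hj
    have h2 : (j : ℝ) < N := by exact_mod_cast h1
    have h3 := hr (j + 1) (N - j + 1) (by omega) (by omega)
    rw [Finset.sum_range_succ'] at h3
    rw [Finset.sum_add_distrib]
    simp only [Finset.sum_const, Finset.card_range, nsmul_eq_mul, Nat.cast_sub h1.le]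
    push_cast at h3
    have h4 : 0 ≤ (l - 2 * (j + 1) - 2 * s * (N - j)) * w (j + 1) ^ 2 :=
      mul_nonneg (by nlinarith) (sq_nonneg _)
    have h5 := congrArg (w (j + 1) * ·) h3
    nlinarith
  simp only [← hY] at k1
  have e1 : 2 * (-w 0 / (N + 1)) * (N + 1) * Y = -2 * w 0 * Y := by field_simp
  have e2 : (-w 0 / (N + 1)) ^ 2 * (N + 1) * (N * H N) = w 0 ^ 2 * (N * H N / (N + 1)) := by
    field_simp
  rw [e1, e2] at k1
  set h := N * H N / (N + 1)
  have k3 : -(s * w 0 * Y) ≤ s * (w 0 ^ 2 * h) := by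
    nlinarith [mul_le_mul_of_nonneg_left k1 hs0.le]
  have k4 : (l + 2 * s - 2 * s * h) * w 0 ^ 2 ≤ -2 * s * (w 0 * w (N + 1)) := by
    have := congrArg (w 0 * ·) r0
    nlinarith
  have k5 := mul_le_mul_of_nonneg_left k4 (sub_pos.2 hl).le
  have k6 : (l - 2 * (N + 1)) * (-2 * s * (w 0 * w (N + 1))) = 4 * s ^ 2 * w 0 ^ 2 := by
    linear_combination (-2 * s * w 0) * r1
  rw [k6, ← mul_assoc] at k5
  exact le_of_mul_le_mul_right k5 (by positivity)

theorem core7 {n : ℕ} (hn : 2 ≤ n) {c K l : ℝ} (hc0 : 0 < c) (hc1 : c < 1) {w : ℕ → ℝ}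
    (hw : ∃ j < n, w j ≠ 0)
    (hK : (K = 2 ∧ ∑ j ∈ range n, w j = 0) ∨ |K| ≤ 2 * c ∨ ∃ s, K = -2 * s ∧ 0 < s ∧ s ≤ 1 ∧
      4 * s ^ 2 ≤ (2 * c + 2 * c ^ 2) * (2 - s / 3))
    (heq : ∀ j < n, l * w j = ∑ k ∈ range n, if j ≤ k then K * w (k - j) else 2 * w j) :
    ∃ g, Beats n c l g := by
  have hr := row heq
  obtain ⟨N, rfl⟩ : ∃ N, n = N + 2 := ⟨n - 2, by omega⟩
  have hN : (0 : ℝ) < N + 1 := by positivity
  have small : (N = 0 → l < 2 + 2 * c) → (l - 2 * (N + 1)) * (N + 1) < 2 * c + 2 * c ^ 2 ∨ N = 0 →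
      ∃ g, Beats (N + 2) c l g := fun h1 h2 => by
    rcases Nat.eq_zero_or_pos N with h | h
    · subst h
      exact ⟨_, beats_two (h1 rfl)⟩
    · refine ⟨_, beats_adj h hc0 hc1 (div_mul_cancel₀ _ hN.ne') ?_⟩
      have := (lt_div_iff₀ hN).2 (h2.resolve_right h.ne')
      linarith
  rcases le_or_gt l (2 * ((N : ℝ) + 1)) with hl | hl
  · refine small (fun h => ?_) (Or.inl ?_)
    · subst h
      push_cast at hl
      linarith
    · nlinarith [mul_nonneg (sub_nonneg.2 hl) hN.le]
  have h0 := w0_ne (by push_cast; linarith) hr hw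
  rcases hK with ⟨rfl, hs⟩ | hK | ⟨s, rfl, hs0, hs1, hs⟩
  · have h1 := hr 0 (N + 2) (by omega) (by omega)
    rw [hs, mul_zero] at h1
    have h2 := (mul_eq_zero.1 h1).resolve_right h0
    push_cast at h2
    linarith
  · refine ⟨_, beats_pos hn hc0 hc1 (v := fun i => |w i|) (fun i => abs_nonneg _) (abs_pos.2 h0)
      fun j e he h => ?_⟩
    have h1 := congrArg abs (hr j e he h)
    rw [abs_mul, abs_mul] at h1
    calc (l - 2 * j) * |w j| ≤ |l - 2 * j| * |w j| :=
          mul_le_mul_of_nonneg_right (le_abs_self _) (abs_nonneg _)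
      _ ≤ _ := h1.le.trans (mul_le_mul hK (Finset.abs_sum_le_sum_abs _ _) (abs_nonneg _)
          (by linarith))
  · have h1 := neg_bound hs0 hs1 hl h0 hr
    have hε := sub_pos.2 hl
    refine small (fun h => ?_) (Or.inl ?_)
    · subst h
      simp only [Nat.cast_zero, zero_mul, zero_div, mul_zero, sub_zero, zero_add, mul_one] at h1 hε
      by_contra k
      have k1 : 2 * c ≤ l - 2 := by linarith
      have k2 : 2 * c * (2 + 2 * c + 2 * s) ≤ (l - 2) * (l + 2 * s) :=
        mul_le_mul k1 (by linarith) (by linarith) hε.le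
      nlinarith [mul_pos hc0 hs0, mul_pos (mul_pos hc0 hc0) hs0]
    · have h2 : N * H N / (N + 1) ≤ (N + 7) / 6 := by
        rw [div_le_iff₀ hN]
        nlinarith [mul_le_mul_of_nonneg_left (H_le N) (Nat.cast_nonneg N),
          sq_nonneg ((N : ℝ) - 28 / 5)]
      have h3 : (N + 1) * (2 - s / 3) < l + 2 * s - 2 * s * (N * H N / (N + 1)) := by
        nlinarith [mul_le_mul_of_nonneg_left h2 hs0.le]
      have h4 := (mul_lt_mul_of_pos_left h3 hε).trans_le (h1.trans hs)
      rw [← mul_assoc] at h4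
      exact lt_of_mul_lt_mul_right h4 (by linarith)

end Pool.Agent.P.MP_ad1e8a_co.S7
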