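import Mathlib
import Pool.Agent.P.MP_ad1e8a_co.FC1
import Pool.Agent.P.MP_ad1e8a_co.S7A

/-!
One-letter and two-letter test functions.
-/

open Finset

namespace Pool.Agent.P.MP_ad1e8a_co.FC

/-- The one-letter operator `D + c E`. -/
def M1 (n : ℕ) (c : ℝ) (u : ℕ → ℝ) (j : ℕ) : ℝ :=
  ∑ k ∈ range n, (if j ≤ k then c else 1) * u (rv k j)

/-- `w` solves the eigenvalue equation of `D + c E`. -/
def Eig (n : ℕ) (c l : ℝ) (w : ℕ → ℝ) : Prop := ∀ j < n, l * w j = M1 n c w j

/-- The indicator of `j`. -/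
def dlt (j t : ℕ) : ℝ := if t = j then 1 else 0

theorem M1_eq {n j e : ℕ} (h : j + e = n) (c : ℝ) (u : ℕ → ℝ) :
    M1 n c u j = j * u j + c * ∑ i ∈ range e, u i := by
  rw [M1, ← h, Finset.sum_range_add, Finset.mul_sum]
  congr 1
  · rw [Finset.sum_congr rfl (g := fun _ => u j) fun k hk => by
      have := mem_range.1 hk
      rw [rv, if_neg (by omega), if_neg (by omega), one_mul]]
    simp
  · exact Finset.sum_congr rfl fun k _ => by
      rw [rv, if_pos (by omega), if_pos (by omega), Nat.add_sub_cancel_left]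

theorem Eig.row {n : ℕ} {c l : ℝ} {w : ℕ → ℝ} (h : Eig n c l w) (j e : ℕ) (he : 0 < e)
    (k : j + e = n) : (2 * l - 2 * j) * w j = 2 * c * ∑ i ∈ range e, w i := by
  have := h j (by omega)
  rw [M1_eq k] at this
  linarith

theorem Eig.triv {n : ℕ} {c l : ℝ} {w : ℕ → ℝ} (h : Eig n c l w) (hl : (n : ℝ) - 1 < l)
    (hc : c = 0 ∨ ∑ j ∈ range n, w j = 0) : ∀ j < n, w j = 0 := by
  intro j hj
  by_contra k
  have h0 := S7.w0_ne (by linarith) h.row ⟨j, hj, k⟩
  have h1 := h.row 0 n (by omega) (by omega)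
  have h2 : (1 : ℝ) ≤ n := by exact_mod_cast (show 1 ≤ n by omega)
  have h3 : 2 * c * ∑ i ∈ range n, w i = 0 := by rcases hc with e | e <;> simp [e]
  rw [h3] at h1
  have := (mul_eq_zero.1 h1).resolve_right h0
  push_cast at this
  linarith

theorem H_half (n : ℕ) : S7.H n ≤ (n + 1) / 2 := by
  induction n with
  | zero => simp [S7.H]
  | succ n ih =>
    rcases Nat.eq_zero_or_pos n with rfl | h
    · norm_num [S7.H]
    · have h1 : (1 : ℝ) ≤ n := by exact_mod_cast h
      have h2 : 1 / ((n : ℝ) + 1) ≤ 1 / 2 := one_div_le_one_div_of_le (by norm_num) (by linarith)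
      rw [S7.H_succ]
      push_cast
      linarith

theorem Eig.neg {n : ℕ} {l : ℝ} {w : ℕ → ℝ} (h : Eig (n + 1) (-1) l w)
    (hl : n + 1 - l < (n + 1) / (n + 3)) : ∀ j < n + 1, w j = 0 := by
  intro j hj
  by_contra k
  have h3 : (0 : ℝ) < n + 3 := by positivity
  rw [lt_div_iff₀ h3] at hl
  have hl' : (n : ℝ) < l := by nlinarith
  have h0 := S7.w0_ne (by push_cast; linarith) h.row ⟨j, hj, k⟩
  cases n with
  | zero =>
    have h1 := h.row 0 1 one_pos rfl
    rw [Finset.sum_range_one] at h1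
    have : (2 * l + 2) * w 0 = 0 := by push_cast at h1; linarith
    have := (mul_eq_zero.1 this).resolve_right h0
    push_cast at hl'
    linarith
  | succ n =>
    push_cast at hl hl' h3
    have h1 := S7.neg_bound (N := n) (l := 2 * l) one_pos le_rfl (by linarith) h0 fun j e he k => by
      rw [h.row j e he k]; ring
    have h2 : n * S7.H n / (n + 1) ≤ n / 2 := by
      rw [div_le_iff₀ (by positivity)]
      nlinarith [mul_le_mul_of_nonneg_left (H_half n) (Nat.cast_nonneg n)]
    have h4 := mul_le_mul_of_nonneg_left h2 (sub_pos.2 hl').le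
    nlinarith [sq_nonneg (l - (n + 1))]

theorem ev {n t : ℕ} (ht : t < n) (u : ℕ → ℝ) : ∑ j ∈ range n, u j * dlt j t = u t := by
  simp [dlt, ht]

variable {α : Type} [Fintype α] [DecidableEq α] {N n : ℕ} {s : Finset α}
  {W : (α → ℕ) → ℕ → ℝ} {g : (α → ℕ) → ℝ} {l : ℝ}

theorem test (hN : n ≤ N) (hW : ∀ p k, W (mo k p) k = W p k)
    (he : ∀ p ∈ St N n s, Op n W g p = l * g p) {φ ψ : (α → ℕ) → ℝ}
    (h : ∀ p ∈ St N n s, Op n W φ p = ψ p) :
    l * ∑ p ∈ St N n s, φ p * g p = ∑ p ∈ St N n s, ψ p * g p := by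
  rw [← Finset.sum_congr rfl fun p hp => congrArg (· * g p) (h p hp), ← Op_symm hN hW,
    Finset.mul_sum]
  exact Finset.sum_congr rfl fun p hp => by rw [he p hp]; ring

theorem transfer (hN : n ≤ N) (hW : ∀ p k, W (mo k p) k = W p k)
    (he : ∀ p ∈ St N n s, Op n W g p = l * g p) {c : ℝ} (L : (ℕ → ℝ) → (α → ℕ) → ℝ)
    (hL : ∀ u, ∀ p ∈ St N n s, L u p = ∑ j ∈ range n, u j * L (dlt j) p)
    (hT : ∀ u, ∀ p ∈ St N n s, Op n W (L u) p = L (M1 n c u) p) :
    Eig n c l fun j => ∑ p ∈ St N n s, L (dlt j) p * g p := by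
  intro j hj
  rw [test hN hW he (hT _), Finset.sum_congr rfl fun p hp => by rw [hL _ p hp, Finset.sum_mul],
    Finset.sum_comm]
  simp only [mul_assoc, ← Finset.mul_sum]
  simp only [M1, Finset.sum_mul]
  rw [Finset.sum_comm]
  refine Finset.sum_congr rfl fun k hk => ?_
  have := mem_range.1 hk
  rw [Finset.sum_eq_single_of_mem (rv k j) (mem_range.2 (by rw [rv]; split_ifs <;> omega))
    fun i _ hi => by
      rw [dlt, if_neg (show rv k i ≠ j by simp only [rv] at hi ⊢; split_ifs at hi ⊢ <;> omega),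
        mul_zero, zero_mul], dlt,
    if_pos (show rv k (rv k j) = j by simp only [rv]; split_ifs <;> omega), mul_one]
  congr 1
  exact if_congr (by rw [rv]; split_ifs <;> omega) rfl rfl

theorem marg (hN : n ≤ N) (hW : ∀ p k, W (mo k p) k = W p k)
    (he : ∀ p ∈ St N n s, Op n W g p = l * g p) {c : ℝ} {y : α} (hy : y ∈ s)
    (h : ∀ p ∈ St N n s, ∀ k < n, W p k = if p y ≤ k then c else 1) :
    Eig n c l fun j => ∑ p ∈ St N n s, dlt j (p y) * g p :=
  transfer hN hW he (fun u p => u (p y)) (fun u _ hp => (ev ((mem_St.1 hp).1 y hy) u).symm)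
    fun _ p hp => Finset.sum_congr rfl fun k hk => by rw [h p hp k (mem_range.1 hk)]; rfl

theorem marg_sum {y : α} (hy : y ∈ s) (g : (α → ℕ) → ℝ) :
    ∑ j ∈ range n, ∑ p ∈ St N n s, dlt j (p y) * g p = ∑ p ∈ St N n s, g p := by
  rw [Finset.sum_comm]
  exact Finset.sum_congr rfl fun p hp => by simp [dlt, (mem_St.1 hp).1 y hy]

theorem marg_last {y : α} (hy : y ∈ s) (hN : n + 1 ≤ N) (g : (α → ℕ) → ℝ) :
    ∑ p ∈ St N (n + 1) s, dlt n (p y) * g p = ∑ p ∈ St N n (s.erase y), g (ins N n y p) := by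
  rw [sum_ins hy hN]
  simp [ins_self, dlt]

theorem split3 (P d e : ℕ) (F : ℕ → ℝ) {A : ℝ} {B C : ℕ → ℝ} (hA : ∀ k < P, F k = A)
    (hB : ∀ i < d, F (P + i) = B i) (hC : ∀ i < e, F (P + d + i) = C i) :
    ∑ k ∈ range (P + d + e), F k = P * A + ∑ i ∈ range d, B i + ∑ i ∈ range e, C i := by
  rw [Finset.sum_range_add, Finset.sum_range_add,
    Finset.sum_congr rfl fun k hk => hA k (mem_range.1 hk),
    Finset.sum_congr rfl fun k hk => hB k (mem_range.1 hk),
    Finset.sum_congr rfl fun k hk => hC k (mem_range.1 hk)]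
  simp

/-- The intertwiner for a letter of charge `-1` at `a` and a neutral letter at `b`. -/
def J (n : ℕ) (u : ℕ → ℝ) (a b : ℕ) : ℝ :=
  if a < b then u (n - (b - a)) else u b - u a - u (n - (a - b))

theorem J_lt {n a d r : ℕ} (u : ℕ → ℝ) (hd : 0 < d) (h : r + d = n) : J n u a (a + d) = u r := by
  rw [J, if_pos (by omega), show n - (a + d - a) = r by omega]

theorem J_gt {n a d r : ℕ} (u : ℕ → ℝ) (h : r + d = n) :
    J n u (a + d) a = u a - u (a + d) - u r := by
  rw [J, if_neg (by omega), show n - (a + d - a) = r by omega]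

theorem rv_lt {k t : ℕ} (h : k < t) : rv k t = t := if_neg (by omega)

theorem rv_eq {k t r : ℕ} (h : t + r = k) : rv k t = r := by
  rw [rv, if_pos (by omega)]; omega

theorem J_int {n a b : ℕ} (ha : a < n) (hb : b < n) (hab : a ≠ b) (u : ℕ → ℝ) :
    ∑ k ∈ range n, (if a ≤ k then -1 else 1) * J n u (rv k a) (rv k b) = J n (M1 n (-1) u) a b := by
  have key : ∀ d e, ∑ i ∈ range e, u i + ∑ i ∈ range d, u (e + i) =
      ∑ i ∈ range d, u i + ∑ i ∈ range e, u (d + i) := fun d e => by
    rw [← Finset.sum_range_add, ← Finset.sum_range_add, add_comm]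
  rcases lt_or_gt_of_ne hab with h | h
  · obtain ⟨d, rfl⟩ : ∃ d, b = a + d := ⟨b - a, by omega⟩
    obtain ⟨e, he⟩ : ∃ e, n = a + d + e := ⟨n - (a + d), by omega⟩
    rw [J_lt (r := a + e) _ (by omega) (by omega), M1_eq (e := d) (by omega)]
    conv_lhs => enter [1]; rw [he]
    rw [split3 a d e _ (A := u (a + e)) (B := fun i => -u (e + i))
      (C := fun i => -(u i - u (d + i) - u (a + e))) (fun k hk => by
        rw [if_neg (by omega), rv_lt hk, rv_lt (by omega), J_lt (r := a + e) _ (by omega) (by omega),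
          one_mul]) (fun i hi => by
        rw [if_pos (by omega), rv_eq rfl, rv_lt (by omega), show a + d = i + (a + d - i) by omega,
          J_lt (r := e + i) _ (by omega) (by omega), neg_one_mul]) (fun i hi => by
        rw [if_pos (by omega), rv_eq (r := i + d) (by omega), rv_eq rfl,
          J_gt (r := a + e) _ (by omega), neg_one_mul, add_comm i d])]
    simp only [Finset.sum_neg_distrib, Finset.sum_sub_distrib, Finset.sum_const, card_range,
      nsmul_eq_mul]
    push_cast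
    linarith [key d e]
  · obtain ⟨d, rfl⟩ : ∃ d, a = b + d := ⟨a - b, by omega⟩
    obtain ⟨e, he⟩ : ∃ e, n = b + d + e := ⟨n - (b + d), by omega⟩
    rw [J_gt (r := b + e) _ (by omega), M1_eq (e := e + d) (by omega), M1_eq (e := e) (by omega),
      M1_eq (e := d) (by omega), Finset.sum_range_add]
    conv_lhs => enter [1]; rw [he]
    rw [split3 b d e _ (A := u b - u (b + d) - u (b + e))
      (B := fun i => u i - u (b + d) - u (e + i)) (C := fun _ => -u (b + e)) (fun k hk => by
        rw [if_neg (by omega), rv_lt hk, rv_lt (by omega), J_gt (r := b + e) _ (by omega), one_mul])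
      (fun i hi => by
        rw [if_neg (by omega), rv_eq rfl, rv_lt (by omega), show b + d = i + (b + d - i) by omega,
          J_gt (r := e + i) _ (by omega), one_mul]) (fun i hi => by
        rw [if_pos (by omega), rv_eq rfl, rv_eq (r := i + d) (by omega),
          J_lt (r := b + e) _ (by omega) (by omega), neg_one_mul])]
    simp only [Finset.sum_neg_distrib, Finset.sum_sub_distrib, Finset.sum_const, card_range,
      nsmul_eq_mul]
    push_cast
    ring

/-- A function of increasing pairs, extended with the sign `σ`. -/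
def SY (σ : ℝ) (G : ℕ → ℕ → ℝ) (a b : ℕ) : ℝ := if a < b then G a b else σ * G b a

/-- The two-letter operator on increasing pairs. -/
def T2 (n : ℕ) (c : ℝ) (G : ℕ → ℕ → ℝ) (p q : ℕ) : ℝ :=
  p * G p q + c * ∑ i ∈ range (q - p), G i q + ∑ i ∈ range (n - q), G i (i + (q - p))

theorem SY_int {n a b : ℕ} (ha : a < n) (hb : b < n) (hab : a ≠ b) {σ : ℝ} (hσ : σ * σ = 1)
    (c : ℝ) (G : ℕ → ℕ → ℝ) :
    ∑ k ∈ range n, (if a ≤ k then (if b ≤ k then σ else c) else if b ≤ k then c else 1) *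
      SY σ G (rv k a) (rv k b) = SY σ (T2 n c G) a b := by
  rcases lt_or_gt_of_ne hab with h | h
  · obtain ⟨d, rfl⟩ : ∃ d, b = a + d := ⟨b - a, by omega⟩
    obtain ⟨e, rfl⟩ : ∃ e, n = a + d + e := ⟨n - (a + d), by omega⟩
    rw [split3 a d e _ (A := G a (a + d)) (B := fun i => c * G i (a + d))
      (C := fun i => G i (i + d)) (fun k hk => by
        rw [if_neg (by omega), if_neg (by omega), rv_lt hk, rv_lt (by omega), SY, if_pos h, one_mul])
      (fun i hi => by
        rw [if_pos (by omega), if_neg (by omega), rv_eq rfl, rv_lt (by omega), SY,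
          if_pos (by omega)]) (fun i hi => by
        rw [if_pos (by omega), if_pos (by omega), rv_eq (r := i + d) (by omega), rv_eq rfl, SY,
          if_neg (by omega), ← mul_assoc, hσ, one_mul]),
      SY, if_pos h, T2, Nat.add_sub_cancel_left, Nat.add_sub_cancel_left, Finset.mul_sum]
  · obtain ⟨d, rfl⟩ : ∃ d, a = b + d := ⟨a - b, by omega⟩
    obtain ⟨e, rfl⟩ : ∃ e, n = b + d + e := ⟨n - (b + d), by omega⟩
    rw [split3 b d e _ (A := σ * G b (b + d)) (B := fun i => σ * (c * G i (b + d)))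
      (C := fun i => σ * G i (i + d)) (fun k hk => by
        rw [if_neg (by omega), if_neg (by omega), rv_lt hk, rv_lt (by omega), SY, if_neg (by omega),
          one_mul])
      (fun i hi => by
        rw [if_neg (by omega), if_pos (by omega), rv_eq rfl, rv_lt (by omega), SY,
          if_neg (by omega), mul_left_comm]) (fun i hi => by
        rw [if_pos (by omega), if_pos (by omega), rv_eq rfl, rv_eq (r := i + d) (by omega), SY,
          if_pos (by omega)]),
      SY, if_neg (by omega), T2, Nat.add_sub_cancel_left, Nat.add_sub_cancel_left, ← Finset.mul_sum,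
      ← Finset.mul_sum, ← Finset.mul_sum]
    ring

theorem test2 (hN : n ≤ N) (hW : ∀ p k, W (mo k p) k = W p k)
    (he : ∀ p ∈ St N n s, Op n W g p = l * g p) {c σ : ℝ} (hσ : σ * σ = 1) {x y : α} (hx : x ∈ s)
    (hy : y ∈ s) (hxy : x ≠ y) (h : ∀ p ∈ St N n s, ∀ k < n, W p k =
      if p x ≤ k then (if p y ≤ k then σ else c) else if p y ≤ k then c else 1)
    {G G' : ℕ → ℕ → ℝ} (hG : ∀ p q, p < q → q < n → T2 n c G p q = G' p q) :
    l * ∑ p ∈ St N n s, SY σ G (p x) (p y) * g p = ∑ p ∈ St N n s, SY σ G' (p x) (p y) * g p := by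
  refine test hN hW he fun p hp => ?_
  obtain ⟨h1, -, h3⟩ := mem_St.1 hp
  have h4 : p x ≠ p y := fun e => hxy (h3 x hx y hy e)
  refine (Finset.sum_congr rfl fun k hk => ?_).trans
    ((SY_int (h1 x hx) (h1 y hy) h4 hσ c G).trans ?_)
  · rw [h p hp k (mem_range.1 hk)]; rfl
  · unfold SY
    split_ifs with e
    · exact hG _ _ e (h1 y hy)
    · rw [hG _ _ (by omega) (h1 x hx)]

/-- The indicator of adjacent positions. -/
def adj (p q : ℕ) : ℝ := if q = p + 1 then 1 else 0

theorem adj_zero (hN : n ≤ N) (hW : ∀ p k, W (mo k p) k = W p k)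
    (he : ∀ p ∈ St N n s, Op n W g p = l * g p) (hl : (n : ℝ) - 1 < l) {c σ : ℝ} (hσ : σ * σ = 1)
    {x y : α} (hx : x ∈ s) (hy : y ∈ s) (hxy : x ≠ y) (h : ∀ p ∈ St N n s, ∀ k < n, W p k =
      if p x ≤ k then (if p y ≤ k then σ else c) else if p y ≤ k then c else 1)
    (hc : c * (1 + c) = 0 ∨ σ = 1 ∧ ∑ p ∈ St N n s, g p = 0) :
    ∑ p ∈ St N n s, SY σ adj (p x) (p y) * g p = 0 := by
  have h1 := test2 hN hW he hσ hx hy hxy h (G := adj)
    (G' := fun p q => (n - 1) * adj p q + c * dlt 0 p) fun p q hpq hq => by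
      have e1 : ∑ i ∈ range (q - p), adj i q = dlt 0 p := by
        rw [dlt]
        split_ifs with e
        · exact (Finset.sum_eq_single_of_mem (q - 1) (mem_range.2 (by omega))
            fun i _ hi => if_neg (by omega)).trans (if_pos (by omega))
        · exact Finset.sum_eq_zero fun i hi => if_neg (by have := mem_range.1 hi; omega)
      rw [T2, e1]
      by_cases e : q = p + 1
      · subst e
        simp only [adj, Nat.add_sub_cancel_left, if_true, Finset.sum_const, card_range,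
          nsmul_eq_mul, Nat.cast_sub hq.le]
        push_cast
        ring
      · rw [Finset.sum_eq_zero (f := fun i => adj i (i + (q - p))) fun i _ => if_neg (by omega),
          adj, if_neg e]
        ring
  have h2 := test2 hN hW he hσ hx hy hxy h (G := fun p _ => dlt 0 p)
    (G' := fun _ _ => 1 + c) fun p q hpq hq => by
      have e1 : (p : ℝ) * dlt 0 p = 0 := by cases p <;> simp [dlt]
      simp only [T2, e1]
      simp [dlt, hpq, hq, add_comm]
  have e1 : ∀ a b, SY σ (fun p q => (n - 1) * adj p q + c * dlt 0 p) a b =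
      (n - 1) * SY σ adj a b + c * SY σ (fun p _ => dlt 0 p) a b := fun a b => by
    unfold SY; split_ifs <;> ring
  have e2 : ∀ a b, SY σ (fun _ _ => 1 + c) a b = (1 + c) * SY σ (fun _ _ => 1) a b := fun a b => by
    unfold SY; split_ifs <;> ring
  simp only [e1, e2, add_mul ((n - 1 : ℝ) * _), mul_assoc, Finset.sum_add_distrib,
    ← Finset.mul_sum] at h1 h2
  have h3 : c * (1 + c) * ∑ p ∈ St N n s, SY σ (fun _ _ => 1) (p x) (p y) * g p = 0 := by
    rcases hc with e | ⟨rfl, e⟩
    · rw [e, zero_mul]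
    · simp [SY, e]
  rcases Finset.eq_empty_or_nonempty (St N n s) with e | ⟨p, hp⟩
  · simp [e]
  have h4 : (1 : ℝ) ≤ n := by exact_mod_cast Nat.one_le_of_lt ((mem_St.1 hp).1 x hx)
  have h5 : l * ((l - (n - 1)) * ∑ p ∈ St N n s, SY σ adj (p x) (p y) * g p) = 0 := by
    linear_combination l * h1 + c * h2 + h3
  exact (mul_eq_zero.1 ((mul_eq_zero.1 h5).resolve_left (by linarith))).resolve_left (by linarith)

theorem adj_sum {x y : α} (hy : y ∈ s) (hx : x ∈ s.erase y) (hN : n + 1 ≤ N) (σ : ℝ)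
    (g : (α → ℕ) → ℝ) : ∑ p ∈ St N (n + 1) s, SY σ adj (p x) (p y) * g p =
      ∑ p ∈ St N n (s.erase y), (g (ins N (p x + 1) y p) + σ * g (ins N (p x) y p)) := by
  rw [sum_ins hy hN]
  refine Finset.sum_congr rfl fun p hp => ?_
  have h1 := (mem_St.1 hp).1 x hx
  have h2 : ∀ i, SY σ adj (ins N i y p x) (ins N i y p y) =
      if i = p x + 1 then 1 else if i = p x then σ else 0 := fun i => by
    simp only [ins, (mem_erase.1 hx).1, if_true, if_false, SY, adj]
    grind
  simp only [h2]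
  rw [Finset.sum_eq_add_of_mem (p x + 1) (p x) (mem_range.2 (by omega)) (mem_range.2 (by omega))
    (by omega) fun i _ hi => by rw [if_neg hi.1, if_neg hi.2, zero_mul]]
  simp

theorem J_zero (hN : n + 1 ≤ N) (hW : ∀ p k, W (mo k p) k = W p k)
    (he : ∀ p ∈ St N (n + 1) s, Op (n + 1) W g p = l * g p)
    (hl : ∀ w, Eig (n + 1) (-1) l w → ∀ j < n + 1, w j = 0) {x y : α} (hx : x ∈ s) (hy : y ∈ s)
    (hxy : x ≠ y) (h : ∀ p ∈ St N (n + 1) s, ∀ k < n + 1, W p k = if p x ≤ k then -1 else 1) :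
    ∑ p ∈ St N (n + 1) s, SY (-1) adj (p x) (p y) * g p = 0 := by
  have h0 : ∀ p ∈ St N (n + 1) s, p x < n + 1 ∧ p y < n + 1 ∧ p x ≠ p y := fun p hp =>
    ⟨(mem_St.1 hp).1 x hx, (mem_St.1 hp).1 y hy, fun e => hxy ((mem_St.1 hp).2.2 x hx y hy e)⟩
  have h1 := hl _ (marg hN hW he hx h) n (by omega)
  have h2 := hl _ (transfer hN hW he (fun u p => J (n + 1) u (p x) (p y)) (fun u p hp => by
    obtain ⟨a1, a2, a3⟩ := h0 p hp
    unfold J
    split_ifs
    · rw [ev (by omega)]
    · simp only [mul_sub, Finset.sum_sub_distrib]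
      rw [ev a1, ev a2, ev (by omega)]) fun u p hp => by
    obtain ⟨a1, a2, a3⟩ := h0 p hp
    refine (Finset.sum_congr rfl fun k hk => ?_).trans (J_int a1 a2 a3 u)
    rw [h p hp k (mem_range.1 hk)]; rfl) n (by omega)
  rw [← add_zero (0 : ℝ)]
  nth_rewrite 1 [← h1]
  rw [← h2, ← Finset.sum_add_distrib]
  refine Finset.sum_congr rfl fun p hp => ?_
  obtain ⟨a1, a2, a3⟩ := h0 p hp
  rw [← add_mul]
  congr 1
  simp only [SY, adj, dlt, J]
  grind

end Pool.Agent.P.MP_ad1e8a_co.FC
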