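import Mathlib
import Pool.Agent.P.MP_ad1e8a_co.FC2

/-!
A positive supersolution of the two-letter operator for five colours.
-/

open Finset

namespace Pool.Agent.P.MP_ad1e8a_co.FC

theorem ind_le (d : ℕ) (P : ℕ → Prop) [DecidablePred P] (Q : Prop) [Decidable Q] {u : ℝ}
    (hu : 0 ≤ u) (h1 : ∀ i j, P i → P j → i = j) (h2 : ∀ i < d, P i → Q) :
    ∑ i ∈ range d, (if P i then u else 0) ≤ if Q then u else 0 := by
  by_cases h : ∃ i < d, P i
  · obtain ⟨i, hi, k⟩ := h
    rw [Finset.sum_eq_single_of_mem i (mem_range.2 hi) fun j _ hj => if_neg fun e => hj (h1 _ _ e k),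
      if_pos k, if_pos (h2 i hi k)]
  · rw [Finset.sum_eq_zero fun i hi => if_neg fun e => h ⟨i, mem_range.1 hi, e⟩]
    split_ifs
    · exact hu
    · exact le_rfl

/-- The supersolution for at least five letters. -/
noncomputable def G5 (x : ℝ) (p q : ℕ) : ℝ :=
  560 + (if q = p + 1 then 1000 * x - 560 else 0) + (if q = p + 2 then 380 else 0) +
    (if p = 0 then 320 else 0) + (if p = 0 ∧ q = 1 then 15 else 0) + if p = 1 ∧ q = 2 then 40 else 0

theorem G5_pos {x : ℝ} (hx : 1 ≤ x) (p q : ℕ) : 0 < G5 x p q := by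
  unfold G5
  split_ifs <;> linarith

theorem G5_sup {p d e : ℕ} (hd : 0 < d) {x c μ : ℝ} (hx : x = p + d + e) (h5 : 5 ≤ x)
    (hc : c ≤ 31 / 100) (hμ : x - 1 + 654 / 1000 / x ≤ μ) :
    p * G5 x p (p + d) + c * ∑ i ∈ range d, G5 x i (p + d) + ∑ i ∈ range e, G5 x i (i + d) ≤
      μ * G5 x p (p + d) := by
  have h0 : (0 : ℝ) ≤ 1000 * x - 560 := by linarith
  have s1 : ∑ i ∈ range d, G5 x i (p + d) ≤ d * 560 + (if p = 0 then 1000 * x - 560 else 0) +
      (if p ≤ 1 ∧ 2 ≤ p + d then 380 else 0) + (if True then 320 else 0) +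
      (if p = 0 ∧ d = 1 then 15 else 0) + if p = 0 ∧ d = 2 then 40 else 0 := by
    simp only [G5, Finset.sum_add_distrib, Finset.sum_const, card_range, nsmul_eq_mul]
    refine add_le_add (add_le_add (add_le_add (add_le_add (add_le_add le_rfl ?_) ?_) ?_) ?_) ?_ <;>
      refine ind_le _ _ _ (by first | exact h0 | norm_num) (by omega) ?_ <;>
      first | omega | simp
  have s2 : ∑ i ∈ range e, G5 x i (i + d) ≤ e * 560 + e * (if d = 1 then 1000 * x - 560 else 0) +
      e * (if d = 2 then 380 else 0) + (if True then 320 else 0) +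
      (if d = 1 then 15 else 0) + if d = 1 then 40 else 0 := by
    simp only [G5, Finset.sum_add_distrib, Finset.sum_const, card_range, nsmul_eq_mul,
      Nat.add_left_cancel_iff]
    refine add_le_add (add_le_add (add_le_add le_rfl ?_) ?_) ?_ <;>
      refine ind_le _ _ _ (by norm_num) (by omega) ?_ <;>
      first | omega | simp
  have s0 : 0 ≤ ∑ i ∈ range d, G5 x i (p + d) :=
    Finset.sum_nonneg fun i _ => (G5_pos (by linarith) _ _).le
  refine le_trans ?_ (mul_le_mul_of_nonneg_right hμ (G5_pos (by linarith) _ _).le)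
  refine le_trans (add_le_add (add_le_add le_rfl ((mul_le_mul_of_nonneg_right hc s0).trans
    (mul_le_mul_of_nonneg_left s1 (by norm_num)))) s2) ?_
  set ε := 654 / 1000 / x with hε
  have e1 : x * ε = 654 / 1000 := by rw [hε]; field_simp
  have e0 : 0 ≤ ε := by rw [hε]; positivity
  have e2 : 2616 / 10000 - 2616 / 100000 * x ≤ ε := by
    rw [hε, le_div_iff₀ (by linarith)]; nlinarith [sq_nonneg (x - 5)]
  have e3 : 1308 / 10000 - 654 / 100000 * x ≤ ε := by
    rw [hε, le_div_iff₀ (by linarith)]; nlinarith [sq_nonneg (x - 10)]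
  have he : (e : ℝ) = x - p - d := by linarith
  rw [he, G5]
  clear_value ε
  have hp : p = 0 ∨ p = 1 ∨ ∃ r, p = r + 2 := by
    rcases p with _ | _ | r
    · exact Or.inl rfl
    · exact Or.inr (Or.inl rfl)
    · exact Or.inr (Or.inr ⟨r, rfl⟩)
  have hq : d = 1 ∨ d = 2 ∨ ∃ r, d = r + 3 := by
    rcases d with _ | _ | _ | r
    · omega
    · exact Or.inl rfl
    · exact Or.inr (Or.inl rfl)
    · exact Or.inr (Or.inr ⟨r, rfl⟩)
  have hd0 : (0 : ℝ) ≤ d := Nat.cast_nonneg d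
  rcases hp with rfl | rfl | ⟨r, rfl⟩ <;> rcases hq with rfl | rfl | ⟨t, rfl⟩ <;>
    (repeat first | rw [if_pos (by omega)] | rw [if_neg (by omega)] | rw [if_pos trivial]) <;>
    push_cast at * <;> linarith

theorem low5 {n : ℕ} (hn : 0 < n) {s μ : ℝ} (hμ : ∀ w : ℕ → ℝ,
    ∑ j ∈ range (n + 1), w j * M1 (n + 1) (-s) w j ≤ μ * ∑ j ∈ range (n + 1), w j * w j) (a : ℝ) :
    n + s * a * (2 - a) ≤ μ * (a ^ 2 + 1) := by
  have e : ∀ F : ℕ → ℝ, ∑ j ∈ range (n + 1), (-a * dlt 0 j + dlt n j) * F j = -a * F 0 + F n :=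
    fun F => by simp [dlt, add_mul, Finset.sum_add_distrib]
  have e1 := e fun _ => 1
  have e2 : dlt 0 0 = 1 ∧ dlt n n = 1 ∧ dlt 0 n = 0 ∧ dlt n 0 = 0 :=
    ⟨if_pos rfl, if_pos rfl, if_neg hn.ne', if_neg hn.ne⟩
  have h := hμ fun j => -a * dlt 0 j + dlt n j
  simp only [mul_one] at e1
  rw [e, e, M1_eq (zero_add _), M1_eq (j := n) (e := 1) rfl, e1, Finset.sum_range_one] at h
  simp only [e2] at h
  push_cast at h
  linarith

theorem sup5 {n : ℕ} (hn : 2 ≤ n) {μ : ℝ} (hμ : ∀ w : ℕ → ℝ,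
    ∑ j ∈ range n, w j * M1 n (-((√5 + 1) / 4)) w j ≤ μ * ∑ j ∈ range n, w j * w j) :
    ∃ G : ℕ → ℕ → ℝ, (∀ p q, p < q → q < n → 0 < G p q) ∧
      ∀ p q, p < q → q < n → T2 n ((√5 - 1) / 4) G p q ≤ μ * G p q := by
  have r2 : √5 * √5 = 5 := Real.mul_self_sqrt (by norm_num)
  have r0 : (2236 / 1000 : ℝ) ≤ √5 := Real.le_sqrt_of_sq_le (by norm_num)
  have r1 : √5 ≤ (224 / 100 : ℝ) := Real.sqrt_le_iff.2 ⟨by norm_num, by norm_num⟩
  obtain ⟨n, rfl⟩ : ∃ k, n = k + 1 := ⟨n - 1, by omega⟩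
  have h := low5 (by omega) hμ
  rcases Nat.lt_or_ge n 4 with k | k
  · have k' : 1 ≤ n := by omega
    interval_cases n
    · refine ⟨fun _ _ => 1, fun _ _ _ _ => one_pos, fun p q h1 h2 => ?_⟩
      obtain rfl : q = 1 := by omega
      obtain rfl : p = 0 := by omega
      have h3 := h ((3 - √5) / 2)
      have h4 : 0 < ((3 - √5) / 2) ^ 2 + 1 := by positivity
      have h5 : (1 + (√5 - 1) / 4) * (((3 - √5) / 2) ^ 2 + 1) =
          (1 : ℕ) + (√5 + 1) / 4 * ((3 - √5) / 2) * (2 - (3 - √5) / 2) := by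
        push_cast
        linear_combination (√5 / 8 - 1 / 4) * r2
      have h6 := le_of_mul_le_mul_right (h5.trans_le h3) h4
      simp [T2]
      linarith
    · have h3 := h (267 / 1000)
      refine ⟨fun p q => if q = 1 then 300 else if p = 0 then 93 else 271,
        fun _ _ _ _ => by dsimp only; split_ifs <;> norm_num, fun p q h1 h2 => ?_⟩
      push_cast at h3
      interval_cases q <;> interval_cases p <;> norm_num [T2, Finset.sum_range_succ] <;> linarith
    · have h3 := h (1 / 5)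
      refine ⟨fun p q => if q = 1 then 1000 else if q = 2 then (if p = 0 then 245 else 931) else
        if p = 0 then 181 else if p = 1 then 163 else 914,
        fun _ _ _ _ => by dsimp only; split_ifs <;> norm_num, fun p q h1 h2 => ?_⟩
      push_cast at h3
      interval_cases q <;> interval_cases p <;> norm_num [T2, Finset.sum_range_succ] <;> linarith
  · have k1 : (4 : ℝ) ≤ n := by exact_mod_cast k
    refine ⟨G5 (n + 1), fun _ _ _ _ => G5_pos (by linarith) _ _, fun p q h1 h2 => ?_⟩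
    obtain ⟨d, rfl⟩ : ∃ d, q = p + d := ⟨q - p, by omega⟩
    obtain ⟨e, he⟩ : ∃ e, n + 1 = p + d + e := ⟨n + 1 - (p + d), by omega⟩
    rw [T2, Nat.add_sub_cancel_left, show n + 1 - (p + d) = e by omega]
    refine G5_sup (by omega) (by exact_mod_cast he) (by linarith) (by linarith) ?_
    obtain ⟨t, ht⟩ : ∃ t : ℝ, t = 1 / (n + 1) := ⟨_, rfl⟩
    have t0 : 0 < t := by rw [ht]; positivity
    have t1 : (n + 1) * t = 1 := by rw [ht]; field_simp
    have t2 : t ≤ 1 / 5 := by nlinarith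
    have h3 := h (4 / 5 * t)
    have h4 : 0 < (4 / 5 * t) ^ 2 + 1 := by positivity
    rw [div_eq_mul_one_div _ ((n : ℝ) + 1), ← ht]
    refine le_of_mul_le_mul_right (le_trans ?_ h3) h4
    have h5 : 809 / 1000 * (4 / 5 * t * (2 - 4 / 5 * t)) ≤
        (√5 + 1) / 4 * (4 / 5 * t * (2 - 4 / 5 * t)) :=
      mul_le_mul_of_nonneg_right (by linarith) (mul_nonneg (by linarith) (by linarith))
    have h6 : (n : ℝ) * t ^ 2 = t - t ^ 2 := by linear_combination t * t1
    have h7 : t ^ 3 ≤ 1 / 5 * t ^ 2 := by nlinarith [mul_le_mul_of_nonneg_right t2 (sq_nonneg t)]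
    nlinarith [sq_nonneg t]

end Pool.Agent.P.MP_ad1e8a_co.FC
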