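import Mathlib
import Pool.Agent.P.MP_ad1e8a_co.FC7

/-!
A positive supersolution of the two-letter operator for six colours and at least seven letters.
-/

open Finset

namespace Pool.Agent.P.MP_ad1e8a_co.FC

/-- An integer certificate: a test vector `w` and a supersolution `g` at the level `K / 10000`. -/
def Ok6 (n K : ℕ) (w : List ℤ) (g : List (List ℕ)) : Prop :=
  0 < ∑ j ∈ range n, w.getD j 0 * w.getD j 0 ∧
  K * ∑ j ∈ range n, w.getD j 0 * w.getD j 0 ≤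
    10000 * ∑ j ∈ range n, w.getD j 0 * (j * w.getD j 0 - ∑ i ∈ range (n - j), w.getD i 0) ∧
  ∀ q < n, ∀ p < q, 0 < (g.getD q []).getD p 0 ∧
    10000 * (2 * (p * (g.getD q []).getD p 0 +
      ∑ i ∈ range (n - q), (g.getD (i + (q - p)) []).getD i 0) +
      ∑ i ∈ range (q - p), (g.getD q []).getD i 0) ≤ 2 * K * (g.getD q []).getD p 0

instance (n K : ℕ) (w : List ℤ) (g : List (List ℕ)) : Decidable (Ok6 n K w g) := by
  unfold Ok6
  infer_instance

theorem tab6 {n K : ℕ} {w : List ℤ} {g : List (List ℕ)} (h : Ok6 n K w g) {μ : ℝ}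
    (hμ : ∀ w : ℕ → ℝ, ∑ j ∈ range n, w j * M1 n (-1) w j ≤ μ * ∑ j ∈ range n, w j * w j) :
    ∃ G : ℕ → ℕ → ℝ, (∀ p q, p < q → q < n → 0 < G p q) ∧
      ∀ p q, p < q → q < n → T2 n (1 / 2) G p q ≤ μ * G p q := by
  obtain ⟨h1, h2, h3⟩ := h
  have k := hμ fun j => (w.getD j 0 : ℝ)
  rw [Finset.sum_congr rfl (g := fun j => (w.getD j 0 : ℝ) * (j * (w.getD j 0 : ℝ) -
    ∑ i ∈ range (n - j), (w.getD i 0 : ℝ))) fun j hj => by
      rw [M1_eq (e := n - j) (by have := mem_range.1 hj; omega)]; ring] at k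
  have k1 : (0 : ℝ) < ∑ j ∈ range n, (w.getD j 0 : ℝ) * (w.getD j 0 : ℝ) := by exact_mod_cast h1
  have k2 : (K : ℝ) * ∑ j ∈ range n, (w.getD j 0 : ℝ) * (w.getD j 0 : ℝ) ≤
      10000 * ∑ j ∈ range n, (w.getD j 0 : ℝ) * (j * (w.getD j 0 : ℝ) -
        ∑ i ∈ range (n - j), (w.getD i 0 : ℝ)) := by exact_mod_cast h2
  have k3 : (K : ℝ) ≤ 10000 * μ := le_of_mul_le_mul_right (by linarith) k1
  refine ⟨fun p q => ((g.getD q []).getD p 0 : ℕ), fun p q hp hq =>
    Nat.cast_pos.2 (h3 q hq p hp).1, fun p q hp hq => ?_⟩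
  have k4 := (Nat.cast_le (α := ℝ)).2 (h3 q hq p hp).2
  push_cast at k4
  have k5 := mul_le_mul_of_nonneg_right k3 (Nat.cast_nonneg ((g.getD q []).getD p 0))
  rw [T2]
  linarith

/-- The excess at the distance `d`. -/
noncomputable def dl6 (x : ℝ) (d : ℕ) : ℝ :=
  (if d = 1 then 1000 * x - 315 else 0) + (if d = 2 then 928 else 0) + (if d = 3 then 390 else 0) +
    (if d = 4 then 209 else 0) + (if d = 5 then 118 else 0) +
    (if d = 6 then 63 else 0) + (if d = 7 then 26 else 0)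

/-- The correction for adjacent letters. -/
noncomputable def a6 (p : ℕ) : ℝ :=
  (if p = 0 then 513 else 0) + (if p = 1 then 19 else 0) + (if p = 2 then 8 else 0) +
    (if p = 3 then 4 else 0) + (if p = 4 then 2 else 0) + (if p = 5 then 1 else 0)

/-- The correction for other pairs. -/
noncomputable def g6 (p : ℕ) : ℝ :=
  (if p = 0 then 548 else 0) + (if p = 1 then 36 else 0) + (if p = 2 then 17 else 0) +
    (if p = 3 then 9 else 0) + (if p = 4 then 4 else 0) + (if p = 5 then 2 else 0)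

/-- The supersolution for many letters. -/
noncomputable def G6 (x : ℝ) (p q : ℕ) : ℝ :=
  315 + dl6 x (q - p) + if q = p + 1 then a6 p else g6 p

theorem a6_le (p : ℕ) : 0 ≤ a6 p ∧ a6 p ≤ g6 p := by
  unfold a6 g6
  constructor <;> split_ifs <;> norm_num

theorem G6_pos {x : ℝ} (hx : 1 ≤ x) (p q : ℕ) : 0 < G6 x p q := by
  have h0 : (0 : ℝ) ≤ 1000 * x - 315 := by linarith
  have h1 : 0 ≤ dl6 x (q - p) := by unfold dl6; positivity
  have h2 := a6_le p
  unfold G6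
  split_ifs <;> linarith

theorem G6_sup {p d e : ℕ} (hd : 0 < d) {x μ : ℝ} (hx : x = p + d + e) (h5 : 26 ≤ x)
    (hμ : x - 1 + 1 / x ≤ μ) :
    p * G6 x p (p + d) + 1 / 2 * ∑ i ∈ range d, G6 x i (p + d) +
      ∑ i ∈ range e, G6 x i (i + d) ≤ μ * G6 x p (p + d) := by
  have h0 : (0 : ℝ) ≤ 1000 * x - 315 := by linarith
  have s1 : ∑ i ∈ range d, G6 x i (p + d) ≤ d * 315 +
      ((if p < 1 then 1000 * x - 315 else 0) + (if p < 2 ∧ 2 ≤ p + d then 928 else 0) +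
      (if p < 3 ∧ 3 ≤ p + d then 390 else 0) +
      (if p < 4 ∧ 4 ≤ p + d then 209 else 0) +
      (if p < 5 ∧ 5 ≤ p + d then 118 else 0) +
      (if p < 6 ∧ 6 ≤ p + d then 63 else 0) +
      (if p < 7 ∧ 7 ≤ p + d then 26 else 0)) +
      ((if 0 < d then 548 else 0) +
      (if 1 < d then 36 else 0) +
      (if 2 < d then 17 else 0) +
      (if 3 < d then 9 else 0) +
      (if 4 < d then 4 else 0) +
      (if 5 < d then 2 else 0)) := by
    refine (Finset.sum_le_sum (g := fun i => 315 + dl6 x (p + d - i) + g6 i) fun i _ => ?_).trans ?_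
    · have := a6_le i
      unfold G6
      split_ifs <;> linarith
    simp only [dl6, g6, Finset.sum_add_distrib, Finset.sum_const, card_range, nsmul_eq_mul]
    refine add_le_add (add_le_add le_rfl ?_) ?_ <;> repeat' refine add_le_add ?_ ?_
    all_goals exact ind_le _ _ _ (by first | exact h0 | norm_num) (by omega) (by omega)
  have s2 : ∑ i ∈ range e, G6 x i (i + d) ≤ e * (315 + dl6 x d) + if d = 1 then 547 else 616 := by
    have t : ∀ (j : ℕ) (u : ℝ), 0 ≤ u → ∑ i ∈ range e, (if i = j then u else 0) ≤ u := fun j u hu =>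
      (ind_le e _ True hu (by omega) fun _ _ _ => trivial).trans_eq (if_pos trivial)
    simp only [G6, Nat.add_sub_cancel_left, Nat.add_left_cancel_iff]
    rw [Finset.sum_add_distrib, Finset.sum_const, card_range, nsmul_eq_mul]
    refine add_le_add le_rfl ?_
    split_ifs
    · simp only [a6, Finset.sum_add_distrib]
      linarith [t 0 513 (by norm_num), t 1 19 (by norm_num), t 2 8 (by norm_num),
        t 3 4 (by norm_num), t 4 2 (by norm_num), t 5 1 (by norm_num)]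
    · simp only [g6, Finset.sum_add_distrib]
      linarith [t 0 548 (by norm_num), t 1 36 (by norm_num), t 2 17 (by norm_num),
        t 3 9 (by norm_num), t 4 4 (by norm_num), t 5 2 (by norm_num)]
  refine le_trans ?_ (mul_le_mul_of_nonneg_right hμ (G6_pos (by linarith) _ _).le)
  refine le_trans (add_le_add (add_le_add le_rfl (mul_le_mul_of_nonneg_left s1 (by norm_num))) s2) ?_
  set ε := 1 / x with hε
  have e1 : x * ε = 1 := by rw [hε]; field_simp
  have e0 : 0 ≤ ε := by rw [hε]; positivity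
  have he : (e : ℝ) = x - p - d := by linarith
  rw [he, G6, Nat.add_sub_cancel_left, dl6, a6, g6]
  clear_value ε
  clear s1 s2 hμ he hx
  have hp : p = 0 ∨ p = 1 ∨ p = 2 ∨ p = 3 ∨ p = 4 ∨ p = 5 ∨ p = 6 ∨ 7 ≤ p := by omega
  have hq : d = 1 ∨ d = 2 ∨ d = 3 ∨ d = 4 ∨ d = 5 ∨ d = 6 ∨ d = 7 ∨ 8 ≤ d := by omega
  have hd8 : 8 ≤ d → (8 : ℝ) ≤ d := fun h => by exact_mod_cast h
  rcases hp with rfl | rfl | rfl | rfl | rfl | rfl | rfl | hp <;>
    rcases hq with rfl | rfl | rfl | rfl | rfl | rfl | rfl | hq <;>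
    simp (disch := omega) only [if_pos, if_neg] <;> push_cast <;>
    first | linarith | linarith [hd8 hq]

theorem low6 {n : ℕ} (hn : 1 < n) {μ : ℝ} (hμ : ∀ w : ℕ → ℝ,
    ∑ j ∈ range (n + 2), w j * M1 (n + 2) (-1) w j ≤ μ * ∑ j ∈ range (n + 2), w j * w j) (a : ℝ) :
    n + 1 + 2 * a + (n + 1) * a ^ 2 ≤ μ * (2 * a ^ 2 + 1) := by
  have e : ∀ F : ℕ → ℝ, ∑ j ∈ range (n + 2), (-a * dlt 0 j + a * dlt n j + dlt (n + 1) j) * F j =
      -a * F 0 + a * F n + F (n + 1) := fun F => by simp [dlt, add_mul, Finset.sum_add_distrib]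
  have e1 := e fun _ => 1
  have h := hμ fun j => -a * dlt 0 j + a * dlt n j + dlt (n + 1) j
  simp only [mul_one] at e1
  rw [e, e, M1_eq (zero_add _), M1_eq (j := n) (e := 2) rfl, M1_eq (j := n + 1) (e := 1) rfl, e1,
    Finset.sum_range_one, Finset.sum_range_succ, Finset.sum_range_one] at h
  simp (disch := omega) only [dlt, if_neg, if_true] at h
  push_cast at h
  linarith

theorem sup6 {n : ℕ} (hn : 7 ≤ n) {μ : ℝ}
    (hμ : ∀ w : ℕ → ℝ, ∑ j ∈ range n, w j * M1 n (-1) w j ≤ μ * ∑ j ∈ range n, w j * w j) :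
    ∃ G : ℕ → ℕ → ℝ, (∀ p q, p < q → q < n → 0 < G p q) ∧
      ∀ p q, p < q → q < n → T2 n (1 / 2) G p q ≤ μ * G p q := by
  rcases Nat.lt_or_ge n 26 with k | k
  swap
  · obtain ⟨n, rfl⟩ : ∃ k, n = k + 2 := ⟨n - 2, by omega⟩
    have k1 : (24 : ℝ) ≤ n := by exact_mod_cast (show 24 ≤ n by omega)
    refine ⟨G6 (n + 2), fun _ _ _ _ => G6_pos (by linarith) _ _, fun p q h1 h2 => ?_⟩
    obtain ⟨d, rfl⟩ : ∃ d, q = p + d := ⟨q - p, by omega⟩
    obtain ⟨e, he⟩ : ∃ e, n + 2 = p + d + e := ⟨n + 2 - (p + d), by omega⟩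
    rw [T2, Nat.add_sub_cancel_left, show n + 2 - (p + d) = e by omega]
    refine G6_sup (by omega) (by exact_mod_cast he) (by linarith) ?_
    have h3 := low6 (by omega) hμ (1 / (n + 1))
    have h4 : (0 : ℝ) < 2 * (1 / (n + 1)) ^ 2 + 1 := by positivity
    refine le_of_mul_le_mul_right (le_trans ?_ h3) h4
    rw [← sub_nonneg]
    have h5 : (n : ℝ) + 1 + 2 * (1 / (n + 1)) + (n + 1) * (1 / (n + 1)) ^ 2 -
        (n + 2 - 1 + 1 / (n + 2)) * (2 * (1 / (n + 1)) ^ 2 + 1) = (n - 1) / ((n + 1) ^ 2 * (n + 2)) := by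
      field_simp
      ring
    rw [h5]
    exact div_nonneg (by linarith) (by positivity)
  interval_cases n
  · exact tab6 (K := 61802) (w := [-36, -4, 3, 9, 17, 34, 200]) (g := [[], [533], [147, 504], [113,
      115, 502], [100, 80, 111, 500], [91, 65, 74, 108, 497], [82, 52, 55, 66, 99, 488]])
      (by decide +kernel) hμ
  · exact tab6 (K := 71583) (w := [-32, -4, 1, 5, 10, 16, 31, 200]) (g := [[], [388], [94, 369], [72,
      74, 368], [63, 51, 72, 367], [58, 41, 48, 70, 366], [54, 35, 37, 45, 68, 365], [49, 29, 29,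
      33, 41, 63, 359]])
      (by decide +kernel) hμ
  · exact tab6 (K := 81405) (w := [-28, -4, 0, 3, 6, 9, 15, 28, 200]) (g := [[], [353], [76, 337],
      [58, 59, 336], [51, 40, 58, 335], [47, 32, 38, 57, 335], [44, 28, 30, 37, 56, 334], [41, 25,
      25, 28, 35, 55, 333], [38, 21, 21, 22, 25, 32, 51, 329]])
      (by decide +kernel) hμ
  · exact tab6 (K := 91259) (w := [-25, -4, -1, 2, 4, 6, 9, 14, 26, 200]) (g := [[], [314], [61,
      301], [46, 47, 300], [40, 31, 46, 300], [37, 25, 30, 45, 300], [35, 22, 24, 29, 45, 299],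
      [33, 20, 20, 23, 29, 44, 299], [32, 18, 18, 19, 22, 27, 43, 298], [29, 15, 15, 15, 17, 19,
      25, 41, 295]])
      (by decide +kernel) hμ
  · exact tab6 (K := 101138) (w := [-23, -3, -1, 1, 2, 4, 6, 8, 13, 23, 200]) (g := [[], [296], [52,
      285], [39, 40, 284], [34, 26, 39, 284], [31, 21, 25, 39, 284], [29, 18, 20, 25, 38, 284],
      [28, 16, 17, 19, 24, 38, 283], [27, 15, 15, 16, 19, 24, 38, 283], [26, 14, 13, 14, 15, 18,
      23, 37, 282], [24, 12, 11, 11, 12, 14, 16, 21, 35, 280]])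
      (by decide +kernel) hμ
  · exact tab6 (K := 111036) (w := [-21, -3, -1, 0, 2, 3, 4, 6, 8, 12, 22, 200]) (g := [[], [383],
      [61, 369], [45, 47, 368], [39, 30, 46, 368], [36, 24, 29, 45, 368], [34, 21, 23, 29, 45,
      368], [33, 19, 20, 22, 28, 45, 367], [32, 17, 17, 19, 22, 28, 45, 367], [31, 16, 16, 16, 18,
      21, 27, 44, 367], [29, 14, 14, 14, 15, 17, 20, 26, 43, 366], [28, 13, 12, 12, 13, 14, 15, 18,
      24, 41, 363]])
      (by decide +kernel) hμ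
  · exact tab6 (K := 120951) (w := [-19, -3, -1, 0, 1, 2, 3, 4, 5, 7, 11, 20, 200]) (g := [[], [573],
      [84, 553], [62, 64, 553], [53, 41, 63, 552], [49, 32, 39, 62, 552], [47, 28, 31, 39, 62,
      552], [45, 25, 26, 30, 38, 62, 552], [43, 23, 23, 26, 30, 38, 61, 552], [42, 21, 21, 22, 25,
      29, 38, 61, 551], [41, 20, 19, 20, 21, 24, 28, 37, 60, 551], [39, 18, 17, 18, 19, 20, 23, 27,
      36, 59, 550], [37, 16, 15, 15, 16, 17, 18, 21, 25, 33, 56, 546]])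
      (by decide +kernel) hμ
  · exact tab6 (K := 130875) (w := [-18, -2, -1, 0, 1, 1, 2, 3, 4, 5, 7, 10, 18, 200]) (g := [[],
      [585], [79, 566], [58, 60, 565], [50, 38, 59, 565], [46, 30, 37, 58, 565], [43, 26, 29, 36,
      58, 565], [42, 23, 24, 28, 36, 58, 565], [40, 21, 22, 24, 28, 35, 58, 565], [39, 20, 20, 21,
      23, 27, 35, 57, 565], [38, 18, 18, 19, 20, 23, 27, 35, 57, 564], [37, 17, 17, 17, 18, 19, 22,
      26, 34, 56, 564], [36, 16, 15, 15, 16, 17, 18, 21, 25, 33, 55, 563], [34, 14, 13, 13, 13, 14,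
      15, 17, 19, 23, 31, 52, 559]])
      (by decide +kernel) hμ
  · exact tab6 (K := 140812) (w := [-16, -2, -1, 0, 0, 1, 1, 2, 3, 4, 5, 6, 9, 17, 200]) (g := [[],
      [678], [85, 657], [62, 64, 656], [53, 40, 63, 656], [49, 31, 39, 62, 656], [46, 27, 30, 38,
      62, 656], [44, 24, 26, 30, 38, 62, 656], [43, 22, 23, 25, 29, 38, 62, 656], [42, 21, 21, 22,
      24, 29, 37, 62, 656], [41, 19, 19, 20, 21, 24, 28, 37, 61, 655], [40, 18, 18, 18, 19, 21, 23,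
      28, 37, 61, 655], [39, 17, 16, 17, 17, 18, 20, 23, 27, 36, 60, 655], [38, 16, 15, 15, 15, 16,
      17, 19, 22, 26, 35, 59, 654], [36, 14, 13, 13, 13, 14, 14, 16, 17, 20, 24, 33, 56, 650]])
      (by decide +kernel) hμ
  · exact tab6 (K := 150756) (w := [-15, -2, -1, 0, 0, 1, 1, 2, 2, 3, 3, 4, 6, 9, 16, 200]) (g :=
      [[], [796], [93, 773], [67, 69, 772], [58, 43, 68, 772], [53, 34, 42, 68, 772], [50, 29, 32,
      41, 68, 772], [48, 26, 27, 32, 41, 68, 772], [47, 24, 24, 27, 31, 41, 67, 772], [45, 22, 22,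
      24, 26, 31, 41, 67, 772], [44, 21, 20, 21, 23, 26, 31, 40, 67, 772], [43, 20, 19, 20, 21, 23,
      26, 30, 40, 67, 771], [43, 19, 18, 18, 19, 20, 22, 25, 30, 40, 66, 771], [42, 18, 17, 17, 17,
      18, 19, 21, 24, 29, 39, 66, 771], [41, 16, 15, 15, 15, 16, 17, 18, 20, 23, 28, 38, 65, 770],
      [39, 15, 14, 13, 13, 14, 14, 15, 17, 18, 21, 26, 35, 62, 766]])
      (by decide +kernel) hμ
  · exact tab6 (K := 160706) (w := [-14, -2, -1, 0, 0, 0, 1, 1, 2, 2, 3, 3, 4, 6, 8, 15, 200]) (g :=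
      [[], [714], [78, 695], [56, 58, 694], [48, 36, 57, 694], [44, 28, 35, 57, 694], [42, 24, 27,
      34, 57, 694], [40, 21, 23, 26, 34, 56, 694], [39, 19, 20, 22, 26, 34, 56, 694], [38, 18, 18,
      19, 22, 26, 34, 56, 694], [37, 17, 17, 18, 19, 21, 26, 34, 56, 694], [36, 16, 16, 16, 17, 19,
      21, 25, 33, 56, 693], [36, 15, 15, 15, 16, 17, 18, 21, 25, 33, 56, 693], [35, 15, 14, 14, 14,
      15, 16, 18, 20, 25, 33, 55, 693], [34, 14, 13, 13, 13, 14, 15, 16, 17, 20, 24, 32, 55, 693],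
      [34, 13, 12, 12, 12, 12, 13, 14, 15, 17, 19, 23, 31, 54, 692], [32, 12, 11, 10, 10, 11, 11,
      12, 12, 14, 15, 18, 22, 29, 52, 689]])
      (by decide +kernel) hμ
  · exact tab6 (K := 170662) (w := [-13, -2, -1, 0, 0, 0, 1, 1, 1, 2, 2, 3, 3, 4, 5, 8, 14, 200]) (g
      := [[], [847], [87, 826], [62, 64, 825], [53, 39, 63, 825], [49, 30, 38, 63, 825], [46, 26,
      29, 38, 63, 825], [44, 23, 25, 29, 38, 63, 824], [43, 21, 22, 24, 29, 37, 63, 824], [42, 20,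
      20, 21, 24, 28, 37, 62, 824], [41, 18, 18, 19, 21, 24, 28, 37, 62, 824], [40, 17, 17, 18, 19,
      21, 23, 28, 37, 62, 824], [39, 17, 16, 16, 17, 18, 20, 23, 28, 37, 62, 824], [39, 16, 15, 15,
      16, 17, 18, 20, 23, 27, 36, 62, 824], [38, 15, 14, 14, 15, 15, 16, 18, 19, 22, 27, 36, 62,
      824], [38, 14, 14, 13, 14, 14, 15, 16, 17, 19, 22, 26, 36, 61, 823], [37, 14, 13, 12, 12, 13,
      13, 14, 15, 16, 18, 21, 26, 35, 60, 823], [36, 12, 11, 11, 11, 11, 11, 12, 13, 13, 15, 17,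
      19, 24, 33, 57, 819]])
      (by decide +kernel) hμ
  · exact tab6 (K := 180622) (w := [-13, -2, -1, 0, 0, 0, 0, 1, 1, 1, 2, 2, 2, 3, 4, 5, 7, 13, 200])
      (g := [[], [1014], [98, 989], [70, 72, 989], [60, 44, 71, 989], [55, 34, 43, 71, 988], [52,
      28, 32, 42, 70, 988], [50, 25, 27, 32, 42, 70, 988], [48, 23, 24, 27, 32, 42, 70, 988], [47,
      21, 22, 23, 26, 31, 42, 70, 988], [46, 20, 20, 21, 23, 26, 31, 41, 70, 988], [45, 19, 19, 19,
      21, 23, 26, 31, 41, 70, 988], [44, 18, 18, 18, 19, 20, 22, 26, 31, 41, 70, 988], [44, 18, 17,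
      17, 18, 19, 20, 22, 25, 31, 41, 70, 988], [43, 17, 16, 16, 16, 17, 18, 20, 22, 25, 30, 41,
      69, 988], [42, 16, 15, 15, 15, 16, 17, 18, 19, 21, 25, 30, 40, 69, 988], [42, 15, 14, 14, 14,
      15, 15, 16, 17, 19, 21, 24, 29, 40, 68, 987], [41, 14, 13, 13, 13, 13, 14, 14, 15, 16, 18,
      20, 23, 28, 39, 67, 986], [40, 13, 12, 12, 12, 12, 12, 12, 13, 14, 15, 16, 18, 21, 26, 36,
      65, 983]])
      (by decide +kernel) hμ
  · exact tab6 (K := 190588) (w := [-12, -1, -1, 0, 0, 0, 0, 1, 1, 1, 1, 2, 2, 2, 3, 4, 5, 7, 13,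
      200]) (g := [[], [1040], [94, 1015], [67, 69, 1014], [58, 42, 68, 1014], [53, 32, 41, 68,
      1014], [50, 27, 31, 40, 68, 1014], [48, 24, 26, 31, 40, 68, 1014], [46, 22, 23, 25, 30, 40,
      68, 1014], [45, 20, 21, 22, 25, 30, 40, 68, 1014], [44, 19, 19, 20, 22, 25, 30, 40, 68,
      1014], [43, 18, 18, 19, 20, 22, 25, 30, 40, 68, 1014], [43, 17, 17, 17, 18, 19, 21, 25, 30,
      40, 67, 1014], [42, 17, 16, 16, 17, 18, 19, 21, 24, 29, 39, 67, 1014], [42, 16, 15, 15, 16,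
      16, 17, 19, 21, 24, 29, 39, 67, 1014], [41, 15, 15, 14, 15, 15, 16, 17, 19, 21, 24, 29, 39,
      67, 1014], [40, 15, 14, 14, 14, 14, 15, 16, 17, 18, 20, 23, 29, 39, 67, 1013], [40, 14, 13,
      13, 13, 13, 14, 14, 15, 16, 18, 20, 23, 28, 38, 66, 1013], [39, 13, 12, 12, 12, 12, 12, 13,
      13, 14, 15, 17, 19, 22, 27, 37, 65, 1012], [38, 12, 11, 11, 11, 11, 11, 11, 12, 12, 13, 14,
      15, 17, 20, 25, 35, 63, 1009]])
      (by decide +kernel) hμ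
  · exact tab6 (K := 200557) (w := [-11, -1, -1, 0, 0, 0, 0, 0, 1, 1, 1, 1, 2, 2, 2, 3, 3, 4, 6, 12,
      200]) (g := [[], [931], [80, 910], [57, 59, 909], [49, 35, 58, 909], [45, 27, 34, 58, 909],
      [42, 23, 26, 34, 57, 909], [40, 20, 22, 26, 34, 57, 909], [39, 18, 19, 21, 25, 34, 57, 909],
      [38, 17, 17, 19, 21, 25, 34, 57, 909], [37, 16, 16, 17, 18, 21, 25, 33, 57, 909], [37, 15,
      15, 15, 17, 18, 21, 25, 33, 57, 909], [36, 14, 14, 14, 15, 16, 18, 21, 25, 33, 57, 909], [36,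
      14, 13, 14, 14, 15, 16, 18, 20, 25, 33, 57, 909], [35, 13, 13, 13, 13, 14, 15, 16, 18, 20,
      25, 33, 57, 909], [35, 13, 12, 12, 12, 13, 13, 14, 16, 17, 20, 24, 33, 57, 908], [34, 12, 12,
      12, 12, 12, 12, 13, 14, 15, 17, 20, 24, 33, 57, 908], [34, 12, 11, 11, 11, 11, 12, 12, 13,
      14, 15, 17, 20, 24, 32, 56, 908], [33, 11, 11, 10, 10, 10, 11, 11, 12, 12, 13, 15, 16, 19,
      24, 32, 56, 908], [33, 11, 10, 10, 10, 10, 10, 10, 11, 11, 12, 13, 14, 16, 18, 23, 31, 55,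
      907], [32, 10, 9, 9, 9, 9, 9, 9, 9, 10, 10, 11, 12, 13, 15, 17, 21, 30, 53, 904]])
      (by decide +kernel) hμ
  · exact tab6 (K := 210528) (w := [-11, -1, -1, 0, 0, 0, 0, 0, 1, 1, 1, 1, 1, 2, 2, 2, 3, 3, 4, 6,
      11, 200]) (g := [[], [1113], [91, 1089], [64, 66, 1088], [55, 39, 65, 1088], [50, 30, 39, 65,
      1088], [47, 25, 29, 38, 65, 1088], [45, 22, 24, 29, 38, 65, 1088], [44, 20, 21, 24, 28, 38,
      65, 1088], [43, 19, 19, 21, 24, 28, 38, 65, 1088], [42, 18, 18, 19, 21, 23, 28, 38, 65,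
      1088], [41, 17, 17, 17, 18, 20, 23, 28, 38, 65, 1087], [41, 16, 16, 16, 17, 18, 20, 23, 28,
      38, 65, 1087], [40, 15, 15, 15, 16, 17, 18, 20, 23, 28, 37, 65, 1087], [40, 15, 14, 14, 15,
      15, 16, 18, 20, 23, 28, 37, 64, 1087], [39, 14, 14, 14, 14, 14, 15, 16, 18, 20, 23, 28, 37,
      64, 1087], [39, 14, 13, 13, 13, 13, 14, 15, 16, 17, 19, 22, 27, 37, 64, 1087], [38, 13, 13,
      12, 12, 13, 13, 14, 15, 16, 17, 19, 22, 27, 37, 64, 1087], [38, 13, 12, 12, 12, 12, 12, 13,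
      13, 14, 15, 17, 19, 22, 27, 37, 64, 1087], [37, 12, 11, 11, 11, 11, 11, 12, 12, 13, 14, 15,
      16, 18, 21, 26, 36, 63, 1087], [37, 12, 11, 10, 10, 10, 10, 11, 11, 12, 12, 13, 14, 16, 18,
      21, 26, 35, 62, 1086], [36, 11, 10, 9, 9, 9, 9, 10, 10, 10, 11, 11, 12, 13, 14, 16, 19, 24,
      33, 60, 1083]])
      (by decide +kernel) hμ
  · exact tab6 (K := 220503) (w := [-10, -1, -1, 0, 0, 0, 0, 0, 0, 1, 1, 1, 1, 1, 1, 2, 2, 2, 3, 4,
      6, 11, 200]) (g := [[], [1312], [102, 1285], [72, 74, 1284], [62, 44, 73, 1284], [56, 33, 43,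
      73, 1284], [53, 28, 32, 43, 73, 1284], [51, 25, 27, 32, 42, 73, 1284], [49, 22, 24, 26, 32,
      42, 73, 1284], [48, 21, 21, 23, 26, 32, 42, 73, 1284], [47, 19, 20, 21, 23, 26, 31, 42, 73,
      1284], [46, 18, 18, 19, 20, 23, 26, 31, 42, 72, 1284], [45, 18, 17, 18, 19, 20, 22, 26, 31,
      42, 72, 1284], [45, 17, 16, 17, 17, 18, 20, 22, 26, 31, 42, 72, 1284], [44, 16, 16, 16, 16,
      17, 18, 20, 22, 25, 31, 42, 72, 1284], [44, 16, 15, 15, 15, 16, 17, 18, 20, 22, 25, 31, 42,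
      72, 1284], [43, 15, 14, 14, 15, 15, 16, 17, 18, 19, 22, 25, 31, 41, 72, 1284], [43, 15, 14,
      14, 14, 14, 15, 15, 16, 17, 19, 21, 25, 30, 41, 72, 1283], [43, 14, 13, 13, 13, 13, 14, 14,
      15, 16, 17, 19, 21, 25, 30, 41, 72, 1283], [42, 14, 13, 12, 12, 13, 13, 13, 14, 15, 16, 17,
      18, 21, 24, 30, 41, 71, 1283], [42, 13, 12, 12, 12, 12, 12, 12, 13, 13, 14, 15, 16, 18, 20,
      24, 29, 40, 71, 1283], [41, 13, 11, 11, 11, 11, 11, 11, 12, 12, 13, 13, 14, 16, 17, 19, 23,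
      28, 39, 70, 1282], [40, 12, 10, 10, 10, 10, 10, 10, 10, 11, 11, 12, 12, 13, 14, 16, 18, 21,
      27, 37, 68, 1278]])
      (by decide +kernel) hμ
  · exact tab6 (K := 230479) (w := [-10, -1, -1, 0, 0, 0, 0, 0, 0, 0, 1, 1, 1, 1, 1, 1, 2, 2, 2, 3,
      4, 6, 10, 200]) (g := [[], [1363], [101, 1336], [71, 73, 1335], [61, 43, 72, 1335], [55, 33,
      42, 72, 1335], [52, 27, 32, 42, 72, 1335], [50, 24, 26, 31, 42, 72, 1335], [48, 22, 23, 26,
      31, 41, 72, 1335], [47, 20, 21, 22, 26, 31, 41, 72, 1335], [46, 19, 19, 20, 22, 25, 31, 41,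
      72, 1335], [46, 18, 18, 19, 20, 22, 25, 31, 41, 72, 1335], [45, 17, 17, 17, 18, 20, 22, 25,
      31, 41, 71, 1335], [44, 16, 16, 16, 17, 18, 20, 22, 25, 30, 41, 71, 1335], [44, 16, 15, 15,
      16, 17, 18, 19, 22, 25, 30, 41, 71, 1334], [43, 15, 15, 15, 15, 16, 16, 18, 19, 21, 25, 30,
      41, 71, 1334], [43, 15, 14, 14, 14, 15, 15, 16, 17, 19, 21, 25, 30, 41, 71, 1334], [43, 14,
      14, 13, 14, 14, 14, 15, 16, 17, 19, 21, 24, 30, 41, 71, 1334], [42, 14, 13, 13, 13, 13, 14,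
      14, 15, 16, 17, 19, 21, 24, 30, 41, 71, 1334], [42, 13, 13, 12, 12, 12, 13, 13, 14, 14, 15,
      17, 18, 21, 24, 30, 40, 71, 1334], [41, 13, 12, 12, 12, 12, 12, 12, 13, 13, 14, 15, 16, 18,
      20, 24, 29, 40, 71, 1334], [41, 13, 12, 11, 11, 11, 11, 12, 12, 12, 13, 14, 15, 16, 17, 20,
      23, 29, 40, 70, 1334], [40, 12, 11, 10, 10, 10, 10, 11, 11, 11, 12, 12, 13, 14, 15, 17, 19,
      22, 28, 39, 69, 1333], [39, 11, 10, 10, 9, 9, 9, 10, 10, 10, 10, 11, 11, 12, 13, 14, 16, 18,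
      21, 26, 37, 67, 1329]])
      (by decide +kernel) hμ
  · exact tab6 (K := 240457) (w := [-9, -1, -1, 0, 0, 0, 0, 0, 0, 0, 0, 1, 1, 1, 1, 1, 1, 2, 2, 2, 3,
      4, 5, 10, 200]) (g := [[], [1628], [115, 1597], [81, 83, 1596], [69, 49, 82, 1596], [63, 37,
      48, 82, 1596], [59, 31, 36, 47, 82, 1596], [57, 27, 30, 35, 47, 82, 1596], [55, 24, 26, 29,
      35, 47, 82, 1596], [54, 23, 23, 25, 29, 35, 47, 81, 1596], [53, 21, 21, 23, 25, 29, 35, 47,
      81, 1596], [52, 20, 20, 21, 22, 25, 28, 35, 47, 81, 1596], [51, 19, 19, 19, 20, 22, 25, 28,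
      35, 47, 81, 1596], [50, 18, 18, 18, 19, 20, 22, 24, 28, 34, 47, 81, 1595], [50, 18, 17, 17,
      18, 19, 20, 22, 24, 28, 34, 47, 81, 1595], [49, 17, 16, 16, 17, 18, 18, 20, 22, 24, 28, 34,
      46, 81, 1595], [49, 17, 16, 16, 16, 17, 17, 18, 20, 21, 24, 28, 34, 46, 81, 1595], [48, 16,
      15, 15, 15, 16, 16, 17, 18, 19, 21, 24, 28, 34, 46, 81, 1595], [48, 16, 15, 14, 15, 15, 15,
      16, 17, 18, 19, 21, 24, 28, 34, 46, 81, 1595], [48, 15, 14, 14, 14, 14, 14, 15, 16, 16, 18,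
      19, 21, 23, 27, 34, 46, 81, 1595], [47, 15, 14, 13, 13, 13, 14, 14, 15, 15, 16, 17, 19, 21,
      23, 27, 33, 46, 81, 1595], [47, 14, 13, 13, 13, 13, 13, 13, 14, 14, 15, 16, 17, 18, 20, 23,
      27, 33, 45, 80, 1595], [46, 14, 13, 12, 12, 12, 12, 12, 13, 13, 14, 14, 15, 16, 18, 20, 22,
      26, 32, 45, 80, 1594], [46, 13, 12, 11, 11, 11, 11, 11, 12, 12, 12, 13, 14, 15, 16, 17, 19,
      21, 25, 32, 44, 79, 1593], [45, 12, 11, 10, 10, 10, 10, 10, 11, 11, 11, 12, 12, 13, 13, 14,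
      16, 18, 20, 24, 30, 42, 76, 1590]])
      (by decide +kernel) hμ

end Pool.Agent.P.MP_ad1e8a_co.FC
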