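import Mathlib
import Pool.Agent.P.MP_ad1e8a_co.Defs

open Finset

namespace Pool.Agent.P.MP_ad1e8a_co

/-- the sign attached to a Boolean -/
def sg (m : ℕ) (b : Bool) : ZMod m := if b then 1 else -1

/-- the `2n` moves -/
def mov {m n : ℕ} (p : Fin n × Bool) (u : ColPerm m n) : ColPerm m n :=
  flipTop (p.1.val + 1) (sg m p.2) u

/-- the moves on the parts -/
def mv {m n : ℕ} (p : Fin n × Bool) (a : ZMod m × Fin n) : ZMod m × Fin n :=
  (if a.2.val < p.1.val + 1 then a.1 + sg m p.2 else a.1, revPos (p.1.val + 1) a.2)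

theorem sg_not (m : ℕ) (b : Bool) : sg m (!b) = -sg m b := by
  cases b <;> simp [sg]

theorem revPos_lt {n : ℕ} (k : ℕ) (t : Fin n) : (revPos k t).val < k ↔ t.val < k := by
  unfold revPos
  split_ifs with h
  · simp only; omega
  · rfl

theorem revPos_of_not_lt {n : ℕ} (k : ℕ) (t : Fin n) (h : ¬ t.val < k) : revPos k t = t := by
  unfold revPos
  rw [dif_neg (fun h' => h h'.1)]

theorem revPos_val {n : ℕ} (k t : Fin n) (h : t.val ≤ k.val) :
    (revPos (k.val + 1) t).val = k.val - t.val := by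
  unfold revPos
  rw [dif_pos ⟨by omega, by omega⟩]
  simp

theorem flipTop_flipTop {m n : ℕ} (k : ℕ) (ε : ZMod m) (u : ColPerm m n) :
    flipTop k (-ε) (flipTop k ε u) = u := by
  refine Prod.ext ?_ ?_
  · funext t
    simp only [flipTop, revPos_lt, revPos_involutive k t]
    split_ifs <;> simp
  · ext t
    simp [flipTop, revPos_involutive k t]

theorem mov_mov {m n : ℕ} (p : Fin n × Bool) (u : ColPerm m n) :
    mov (p.1, !p.2) (mov p u) = u := by
  simp only [mov, sg_not, flipTop_flipTop]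

theorem mv_mv {m n : ℕ} (p : Fin n × Bool) (a : ZMod m × Fin n) :
    mv (p.1, !p.2) (mv p a) = a := by
  refine Prod.ext ?_ ?_
  · simp only [mv, sg_not, revPos_lt]
    split_ifs <;> simp
  · simp only [mv, revPos_involutive _ a.2]

theorem one_ne {m : ℕ} (hm : 3 ≤ m) : (1 : ZMod m) ≠ 0 := by
  intro h
  have := (ZMod.natCast_eq_zero_iff 1 m).mp (by simpa using h)
  have := Nat.le_of_dvd (by norm_num) this
  omega

theorem two_ne {m : ℕ} (hm : 3 ≤ m) : (2 : ZMod m) ≠ 0 := by
  intro h
  have := (ZMod.natCast_eq_zero_iff 2 m).mp (by simpa using h)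
  have := Nat.le_of_dvd (by norm_num) this
  omega

theorem mov_ne {m n : ℕ} (hm : 3 ≤ m) (p : Fin n × Bool) (u : ColPerm m n) : mov p u ≠ u := by
  intro h
  have hn : 0 < n := p.1.pos
  have h2 := congrArg (fun v : ColPerm m n => v.2 ⟨0, hn⟩) h
  have h1 := congrArg (fun v : ColPerm m n => v.1 ⟨0, hn⟩) h
  simp only [mov, flipTop, Equiv.Perm.coe_mul, Function.comp_apply,
    Function.Involutive.coe_toPerm, EmbeddingLike.apply_eq_iff_eq] at h2
  simp only [mov, flipTop, h2, Nat.succ_pos, if_true, add_eq_left] at h1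
  have := one_ne hm
  cases hb : p.2 <;> simp [sg, hb] at h1 <;> exact this h1

theorem mov_inj {m n : ℕ} (hm : 3 ≤ m) (u : ColPerm m n) :
    Function.Injective fun p : Fin n × Bool => mov p u := by
  intro p q h
  have hn : 0 < n := p.1.pos
  have h2 := congrArg (fun v : ColPerm m n => v.2 ⟨0, hn⟩) h
  have h1 := congrArg (fun v : ColPerm m n => v.1 ⟨0, hn⟩) h
  simp only [mov, flipTop, Equiv.Perm.coe_mul, Function.comp_apply,
    Function.Involutive.coe_toPerm, EmbeddingLike.apply_eq_iff_eq] at h2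
  simp only [mov, flipTop, h2, Nat.succ_pos, if_true, add_right_inj] at h1
  have h3 := congrArg Fin.val h2
  rw [revPos_val _ _ (Nat.zero_le _), revPos_val _ _ (Nat.zero_le _)] at h3
  refine Prod.ext (Fin.ext (by simpa using h3)) ?_
  have h4 := two_ne hm
  cases hp : p.2 <;> cases hq : q.2 <;> simp only [sg, hp, hq] at h1 ⊢
  · exact absurd (by simp only [Bool.false_eq_true, if_false, if_true] at h1; linear_combination -h1) h4
  · exact absurd (by simp only [Bool.false_eq_true, if_false, if_true] at h1; linear_combination h1) h4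

theorem adj_iff {m n : ℕ} (hm : 3 ≤ m) (u v : ColPerm m n) :
    (pancake m n).Adj u v ↔ ∃ p : Fin n × Bool, mov p u = v := by
  have key : ∀ u v : ColPerm m n,
      (∃ k : ℕ, 1 ≤ k ∧ k ≤ n ∧ (flipTop k 1 u = v ∨ flipTop k (-1) u = v)) ↔
        ∃ p : Fin n × Bool, mov p u = v := by
    intro u v
    constructor
    · rintro ⟨k, h1, h2, h | h⟩
      · exact ⟨(⟨k - 1, by omega⟩, true), by
          simpa [mov, sg, show k - 1 + 1 = k by omega] using h⟩
      · exact ⟨(⟨k - 1, by omega⟩, false), by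
          simpa [mov, sg, show k - 1 + 1 = k by omega] using h⟩
    · rintro ⟨⟨k, b⟩, h⟩
      refine ⟨k.val + 1, by omega, by omega, ?_⟩
      cases b
      · right; simpa [mov, sg] using h
      · left; simpa [mov, sg] using h
  simp only [pancake, SimpleGraph.fromRel_adj, key]
  constructor
  · rintro ⟨_, h | ⟨p, h⟩⟩
    · exact h
    · exact ⟨(p.1, !p.2), by rw [← h, mov_mov]⟩
  · rintro ⟨p, h⟩
    exact ⟨by rw [← h]; exact (mov_ne hm p u).symm, Or.inl ⟨p, h⟩⟩

theorem adj_sum {m n : ℕ} [NeZero m] (hm : 3 ≤ m) (g : ColPerm m n → ℝ) (u : ColPerm m n) :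
    ∑ v, adjMat m n u v * g v = ∑ p : Fin n × Bool, g (mov p u) := by
  classical
  rw [← Finset.sum_image (s := univ) (g := fun p : Fin n × Bool => mov p u) (f := g)
    (mov_inj hm u).injOn]
  simp only [adjMat, SimpleGraph.adjMatrix_apply, ite_mul, one_mul, zero_mul]
  rw [← Finset.sum_filter]
  refine Finset.sum_congr ?_ fun _ _ => rfl
  ext v
  simp [adj_iff hm]

theorem mov_mem_part {m n : ℕ} (p : Fin n × Bool) (a b : ZMod m × Fin n) (u : ColPerm m n)
    (hu : u ∈ part m n a) : mov p u ∈ part m n b ↔ mv p a = b := by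
  obtain ⟨hu1, hu2⟩ := hu
  simp only [part, Set.mem_ofPred_eq, mov, flipTop, Equiv.Perm.coe_mul, Function.comp_apply,
    Function.Involutive.coe_toPerm]
  constructor
  · rintro ⟨h1, h2⟩
    have h3 : revPos (p.1.val + 1) b.2 = a.2 := u.2.injective (Fin.ext (by rw [h1, hu1]))
    have h4 : revPos (p.1.val + 1) a.2 = b.2 := by rw [← h3, revPos_involutive]
    refine Prod.ext ?_ h4
    simp only [mv]
    rw [← h2, h3, hu2, ← h4]
    simp only [revPos_lt]
    split_ifs with h
    · rfl
    · rw [revPos_of_not_lt _ _ h, hu2]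
  · rintro rfl
    simp only [mv, revPos_involutive _ a.2, revPos_lt]
    refine ⟨hu1, ?_⟩
    split_ifs with h
    · rw [hu2]
    · rw [revPos_of_not_lt _ _ h, hu2]

/-- the quotient matrix -/
noncomputable def QM (m n : ℕ) : Matrix (ZMod m × Fin n) (ZMod m × Fin n) ℝ := fun a b =>
  ∑ p : Fin n × Bool, if mv p a = b then 1 else 0

theorem QM_spec {m n : ℕ} (hm : 3 ≤ m) (a b : ZMod m × Fin n) (u : ColPerm m n)
    (hu : u ∈ part m n a) :
    QM m n a b = ((part m n b ∩ (pancake m n).neighborSet u).ncard : ℝ) := by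
  classical
  have : part m n b ∩ (pancake m n).neighborSet u =
      (fun p : Fin n × Bool => mov p u) '' ↑(univ.filter fun p : Fin n × Bool => mv p a = b) := by
    ext v
    simp only [Set.mem_inter_iff, SimpleGraph.mem_neighborSet, adj_iff hm, Set.mem_image,
      Finset.coe_filter, Finset.mem_univ, true_and, Set.mem_ofPred_eq]
    constructor
    · rintro ⟨h, p, rfl⟩
      exact ⟨p, (mov_mem_part p a b u hu).mp h, rfl⟩
    · rintro ⟨p, h, rfl⟩
      exact ⟨(mov_mem_part p a b u hu).mpr h, p, rfl⟩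
  rw [this, Set.ncard_image_of_injective _ (mov_inj hm u), Set.ncard_coe_finset, QM,
    Finset.sum_boole]

theorem QM_sum {m n : ℕ} [NeZero m] (x : ZMod m × Fin n → ℝ) (a : ZMod m × Fin n) :
    ∑ b, QM m n a b * x b = ∑ p : Fin n × Bool, x (mv p a) := by
  simp only [QM, Finset.sum_mul]
  rw [Finset.sum_comm]
  simp

theorem QM_symm (m n : ℕ) : (QM m n).IsSymm := by
  ext a b
  simp only [Matrix.transpose_apply, QM]
  let e : Fin n × Bool ≃ Fin n × Bool :=
    Function.Involutive.toPerm (fun p => (p.1, !p.2)) (fun p => by simp)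
  rw [← e.sum_comp]
  refine Finset.sum_congr rfl fun p _ => ?_
  have : mv (e p) b = a ↔ mv p a = b := by
    constructor
    · rintro rfl
      have := mv_mv (e p) b
      simpa [e] using this
    · rintro rfl
      exact mv_mv p a
  simp only [this]

theorem adjMat_symm (m n : ℕ) : (adjMat m n).IsSymm := by
  classical
  ext u v
  simp only [Matrix.transpose_apply, adjMat, SimpleGraph.adjMatrix_apply,
    SimpleGraph.adj_comm]

theorem adjMat_nonneg (m n : ℕ) (u v : ColPerm m n) : 0 ≤ adjMat m n u v := by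
  classical
  simp only [adjMat, SimpleGraph.adjMatrix_apply]
  split_ifs <;> norm_num

end Pool.Agent.P.MP_ad1e8a_co
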