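import Mathlib
import Pool.Agent.P.MP_ad1e8a_co.Graph
import Pool.Agent.P.MP_ad1e8a_co.Core
import Pool.Agent.P.MP_ad1e8a_co.Spectral

open Finset Matrix

namespace Pool.Agent.P.MP_ad1e8a_co

theorem re_char {m : ℕ} [NeZero m] (k : ZMod m) :
    (ZMod.stdAddChar k).re = Real.cos (2 * Real.pi * k.val / m) := by
  rw [ZMod.stdAddChar_apply, ZMod.toCircle_apply]
  have : (2 * Real.pi * Complex.I * (k.val : ℂ) / m) = ((2 * Real.pi * k.val / m : ℝ) : ℂ) * Complex.I := by
    push_cast; ring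
  rw [this, Complex.exp_ofReal_mul_I_re]

theorem re_char_one {m : ℕ} [NeZero m] (hm : 3 ≤ m) :
    (ZMod.stdAddChar (1 : ZMod m)).re = Real.cos (2 * Real.pi / m) := by
  have : Fact (1 < m) := ⟨by omega⟩
  rw [re_char, ZMod.val_one]
  simp

theorem cos_mono {m v : ℕ} (h1 : 1 ≤ v) (h2 : 2 * v ≤ m) :
    Real.cos (2 * Real.pi * v / m) ≤ Real.cos (2 * Real.pi / m) := by
  have hm : (0 : ℝ) < m := by exact_mod_cast (show 0 < m by omega)
  have h1' : (1 : ℝ) ≤ v := by exact_mod_cast h1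
  have h2' : 2 * (v : ℝ) ≤ m := by exact_mod_cast h2
  have := Real.pi_pos
  refine Real.cos_le_cos_of_nonneg_of_le_pi (by positivity) ?_ ?_
  · rw [div_le_iff₀ hm]; nlinarith
  · exact div_le_div_of_nonneg_right (by nlinarith) hm.le

theorem re_char_le {m : ℕ} [NeZero m] (k : ZMod m) (hk : k ≠ 0) :
    (ZMod.stdAddChar k).re ≤ Real.cos (2 * Real.pi / m) := by
  rw [re_char]
  have h1 : k.val ≠ 0 := by rwa [Ne, ZMod.val_eq_zero]
  have h2 := ZMod.val_lt k
  have hm : (0 : ℝ) < m := by exact_mod_cast (show 0 < m by omega)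
  rcases le_total (2 * k.val) m with h | h
  · exact cos_mono (by omega) h
  · have := cos_mono (m := m) (v := m - k.val) (by omega) (by omega)
    rw [Nat.cast_sub h2.le] at this
    rw [← Real.cos_two_pi_sub]
    have e : 2 * Real.pi - 2 * Real.pi * k.val / m = 2 * Real.pi * (m - k.val) / m := by
      field_simp
    rwa [e]

theorem eta_pos {m : ℕ} (hm : 3 ≤ m) : 0 < 1 - Real.cos (2 * Real.pi / m) := by
  have hm' : (3 : ℝ) ≤ m := by exact_mod_cast hm
  have := Real.pi_pos
  have h := Real.cos_lt_cos_of_nonneg_of_le_pi (x := 0) (y := 2 * Real.pi / m) le_rfl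
    (by rw [div_le_iff₀ (by linarith)]; nlinarith) (by positivity)
  rw [Real.cos_zero] at h
  linarith

theorem eta_le {m n : ℕ} (hm : 3 ≤ m) (h : 600 * n ≤ m ^ 2) :
    30 * n * (1 - Real.cos (2 * Real.pi / m)) ≤ 1 := by
  have hm' : (3 : ℝ) ≤ m := by exact_mod_cast hm
  have h' : 600 * (n : ℝ) ≤ (m : ℝ) ^ 2 := by exact_mod_cast h
  have h1 := Real.one_sub_sq_div_two_le_cos (x := 2 * Real.pi / m)
  have h2 := Real.pi_lt_d2
  have h3 := Real.pi_pos
  have h4 : (2 * Real.pi / m) ^ 2 / 2 ≤ 20 / (m : ℝ) ^ 2 := by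
    rw [div_pow, div_div, div_le_div_iff₀ (by positivity) (by positivity)]
    have : Real.pi ^ 2 ≤ 10 := by nlinarith
    nlinarith [sq_nonneg (m : ℝ)]
  have h5 : 30 * (n : ℝ) * (20 / (m : ℝ) ^ 2) ≤ 1 := by
    rw [← mul_div_assoc, div_le_one (by positivity)]; linarith
  have h6 : (0 : ℝ) ≤ 30 * n := by positivity
  nlinarith [mul_le_mul_of_nonneg_left (show 1 - Real.cos (2 * Real.pi / m) ≤ 20 / (m : ℝ) ^ 2 by
    linarith) h6]

theorem char_add_neg {m : ℕ} [NeZero m] (k : ZMod m) :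
    ZMod.stdAddChar k + ZMod.stdAddChar (-k) = ((2 * (ZMod.stdAddChar k).re : ℝ) : ℂ) := by
  rw [AddChar.map_neg_eq_conj, Complex.add_conj]

theorem fourier_eq {m n : ℕ} [NeZero m] (x : ZMod m × Fin n → ℝ) (l : ℝ)
    (hx : QM m n *ᵥ x = l • x) (κ : ZMod m) (y : Fin n → ℂ)
    (hy : ∀ j, y j = ∑ i : ZMod m, ZMod.stdAddChar (-(i * κ)) * (x (i, j) : ℂ)) (j : Fin n) :
    (l : ℂ) * y j = ∑ k : Fin n, if j.val ≤ k.val then
      ((2 * (ZMod.stdAddChar κ).re : ℝ) : ℂ) * y (revPos (k.val + 1) j) else 2 * y j := by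
  have h1 : ∀ i, (l : ℂ) * (x (i, j) : ℂ) = ∑ k : Fin n, ∑ b : Bool, (x (mv (k, b) (i, j)) : ℂ) := by
    intro i
    have := congrFun hx (i, j)
    simp only [Matrix.mulVec, dotProduct, QM_sum, Pi.smul_apply, smul_eq_mul] at this
    rw [Fintype.sum_prod_type] at this
    exact_mod_cast this.symm
  have h2 : (l : ℂ) * y j = ∑ i : ZMod m, ZMod.stdAddChar (-(i * κ)) *
      ∑ k : Fin n, ∑ b : Bool, (x (mv (k, b) (i, j)) : ℂ) := by
    rw [hy, Finset.mul_sum]
    exact Finset.sum_congr rfl fun i _ => by rw [← h1]; ring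
  rw [h2]
  simp only [Finset.mul_sum]
  rw [Finset.sum_comm]
  refine Finset.sum_congr rfl fun k _ => ?_
  rw [Finset.sum_comm]
  have shift : ∀ (e : ZMod m) (t : Fin n),
      ∑ i : ZMod m, ZMod.stdAddChar (-(i * κ)) * (x (i + e, t) : ℂ) =
        ZMod.stdAddChar (e * κ) * y t := by
    intro e t
    rw [hy, Finset.mul_sum]
    refine Fintype.sum_equiv (Equiv.addRight e) _ _ fun i => ?_
    rw [← mul_assoc, ← AddChar.map_add_eq_mul]
    simp only [Equiv.coe_addRight]
    congr 2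
    ring
  split_ifs with h
  · have h' : j.val < k.val + 1 := by omega
    simp only [mv, h', if_true, shift, Fintype.sum_bool, sg]
    rw [← char_add_neg]
    simp
    ring
  · have h' : ¬ j.val < k.val + 1 := by omega
    simp only [mv, h', if_false, revPos_of_not_lt _ _ h', ← hy, Fintype.sum_bool]
    ring

theorem QM_gap {m n : ℕ} [NeZero m] (hn : 2 ≤ n) (hm : 3 ≤ m) (h : 600 * n ≤ m ^ 2) :
    2 / 3 * (1 - Real.cos (2 * Real.pi / m)) * (n + 1) < gap (QM m n) := by
  refine lt_gap (QM m n) (QM_symm m n) (2 * n) ?_ ?_ _ ?_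
  · intro a
    have := QM_sum (m := m) (n := n) (fun _ => 1) a
    simp only [mul_one] at this
    rw [this]
    simp [mul_comm]
  · rw [Fintype.card_prod, ZMod.card, Fintype.card_fin]
    nlinarith
  intro x l hx0 hsum hx
  obtain ⟨a, ha⟩ := Function.ne_iff.mp hx0
  have hd : ZMod.dft (fun i : ZMod m => (x (i, a.2) : ℂ)) ≠ 0 := by
    rw [Ne, LinearEquiv.map_eq_zero_iff]
    intro h0
    have := congrFun h0 a.1
    exact ha (by simpa using this)
  obtain ⟨κ, hκ⟩ := Function.ne_iff.mp hd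
  set y : Fin n → ℂ := fun j => ∑ i : ZMod m, ZMod.stdAddChar (-(i * κ)) * (x (i, j) : ℂ) with hy
  have hya : y a.2 ≠ 0 := by simpa [ZMod.dft_apply] using hκ
  have hfe := fourier_eq x l hx κ y (fun _ => rfl)
  have main : ∀ φ : ℂ →ₗ[ℝ] ℝ, φ (y a.2) ≠ 0 →
      l < 2 * n - 2 / 3 * (1 - Real.cos (2 * Real.pi / m)) * (n + 1) := by
    intro φ hφ
    set w : ℕ → ℝ := fun j => if h : j < n then φ (y ⟨j, h⟩) else 0 with hw
    have hwj : ∀ j : Fin n, w j.val = φ (y j) := fun j => by simp [hw]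
    refine core n hn _ (eta_pos hm) (eta_le hm h) (2 * (ZMod.stdAddChar κ).re) l w ?_ ?_ ?_
    · refine Finset.sum_pos' (fun _ _ => sq_nonneg _) ⟨a.2.val, by simp, ?_⟩
      rw [hwj]
      positivity
    · by_cases hk : κ = 0
      · left
        refine ⟨by simp [hk], ?_⟩
        rw [Finset.sum_range]
        simp only [hwj]
        rw [← map_sum]
        have : ∑ j, y j = 0 := by
          simp only [hy, hk, mul_zero, neg_zero, AddChar.map_zero_eq_one, one_mul]
          rw [Finset.sum_comm]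
          rw [Fintype.sum_prod_type] at hsum
          exact_mod_cast hsum
        rw [this, map_zero]
      · right
        have := re_char_le κ hk
        have h2 : -1 ≤ (ZMod.stdAddChar κ).re := by
          rw [re_char]; exact Real.neg_one_le_cos _
        constructor <;> linarith
    · intro j hj
      have h1 := congrArg φ (hfe ⟨j, hj⟩)
      rw [← Complex.real_smul, map_smul, ← hwj, map_sum] at h1
      rw [← smul_eq_mul, h1, Finset.sum_range]
      refine Finset.sum_congr rfl fun k _ => ?_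
      split_ifs with hjk
      · rw [← Complex.real_smul, map_smul, ← hwj, revPos_val _ _ hjk, smul_eq_mul]
      · rw [two_mul, map_add, ← hwj, two_mul]
  by_cases hre : (y a.2).re = 0
  · refine main Complex.imLm fun him => hya ?_
    exact Complex.ext hre him
  · exact main Complex.reLm hre

end Pool.Agent.P.MP_ad1e8a_co
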