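import Mathlib
import Pool.Agent.P.MP_ad1e8a_co.Quot

open Finset Matrix

namespace Pool.Agent.P.MP_ad1e8a_co

/-- the two-position test function, complex form -/
noncomputable def FC {m n : ℕ} [NeZero m] (χ : Fin n → ZMod m) : ℂ :=
  ∑ s, ∑ t, if s = t then 0 else ZMod.stdAddChar (χ s - χ t)

theorem sum_char_zero {m n : ℕ} [NeZero m] (L : (Fin n → ZMod m) → ZMod m)
    (hL : ∀ a b, L (a + b) = L a + L b) (c : Fin n → ZMod m) (hc : L c ≠ 0) :
    ∑ χ, ZMod.stdAddChar (L χ) = 0 := by
  have h1 : ∑ χ, ZMod.stdAddChar (L χ) =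
      ZMod.stdAddChar (L c) * ∑ χ, ZMod.stdAddChar (L χ) := by
    rw [Finset.mul_sum]
    refine (Fintype.sum_equiv (Equiv.addLeft c) _ _ fun χ => ?_).symm
    rw [← AddChar.map_add_eq_mul, ← hL]
    rfl
  have h2 : ZMod.stdAddChar (L c) ≠ 1 := by
    intro h
    apply hc
    apply ZMod.injective_stdAddChar
    rw [h, AddChar.map_zero_eq_one]
  have : (1 - ZMod.stdAddChar (L c)) * ∑ χ, ZMod.stdAddChar (L χ) = 0 := by
    linear_combination h1
  exact (mul_eq_zero.mp this).resolve_left (sub_ne_zero.mpr h2.symm)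

theorem FC_swap {m n : ℕ} [NeZero m] (χ : Fin n → ZMod m) :
    FC χ = ∑ s, ∑ t, if s = t then 0 else ZMod.stdAddChar (-(χ s - χ t)) := by
  rw [FC, Finset.sum_comm]
  refine Finset.sum_congr rfl fun s _ => Finset.sum_congr rfl fun t _ => ?_
  simp only [eq_comm (a := t), neg_sub]

theorem FC_real {m n : ℕ} [NeZero m] (χ : Fin n → ZMod m) : ((FC χ).re : ℂ) = FC χ := by
  rw [← Complex.conj_eq_iff_re]
  nth_rewrite 2 [FC_swap]
  simp only [FC, map_sum, AddChar.map_neg_eq_conj]
  refine Finset.sum_congr rfl fun s _ => Finset.sum_congr rfl fun t _ => ?_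
  split_ifs <;> simp

theorem FC_perm {m n : ℕ} [NeZero m] (χ : Fin n → ZMod m) (e : Equiv.Perm (Fin n)) :
    FC (fun t => χ (e t)) = FC χ := by
  unfold FC
  refine Fintype.sum_equiv e _ _ fun s => Fintype.sum_equiv e _ _ fun t => ?_
  simp

theorem sum_FC {m n : ℕ} [NeZero m] (hm : 3 ≤ m) : ∑ χ : Fin n → ZMod m, FC χ = 0 := by
  unfold FC
  rw [Finset.sum_comm]
  refine Finset.sum_eq_zero fun s _ => ?_
  rw [Finset.sum_comm]
  refine Finset.sum_eq_zero fun t _ => ?_
  split_ifs with h
  · simp
  · refine sum_char_zero (fun χ => χ s - χ t) (fun a b => by simp only [Pi.add_apply]; ring)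
      (Pi.single s 1) ?_
    simpa [Pi.single_apply, Ne.symm h] using one_ne hm

theorem orth {m n : ℕ} [NeZero m] (hm : 3 ≤ m) (s t s' t' : Fin n) (h : s ≠ t) (h' : s' ≠ t') :
    ∑ χ : Fin n → ZMod m, ZMod.stdAddChar (-(χ s - χ t) + (χ s' - χ t')) =
      if s = s' ∧ t = t' then ((m : ℂ) ^ n) else 0 := by
  split_ifs with hh
  · obtain ⟨rfl, rfl⟩ := hh
    simp [ZMod.card]
  · by_cases hs : s = s'
    · subst hs
      have ht : t ≠ t' := fun h => hh ⟨rfl, h⟩
      refine sum_char_zero (fun χ => -(χ s - χ t) + (χ s - χ t'))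
        (fun a b => by simp only [Pi.add_apply]; ring) (Pi.single t 1) ?_
      simpa [Pi.single_apply, h, Ne.symm ht] using one_ne hm
    · refine sum_char_zero (fun χ => -(χ s - χ t) + (χ s' - χ t'))
        (fun a b => by simp only [Pi.add_apply]; ring) (Pi.single s' 1) ?_
      by_cases ht : t = s'
      · subst ht
        have := two_ne hm
        simp only [Pi.single_apply, h, Ne.symm h', if_true, if_false]
        intro h3
        exact this (by linear_combination h3)
      · simpa [Pi.single_apply, hs, ht, Ne.symm h'] using one_ne hm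

theorem FC_conv {m n : ℕ} [NeZero m] (hm : 3 ≤ m) (δ : Fin n → ZMod m) :
    ∑ χ : Fin n → ZMod m, FC χ * FC (χ + δ) = (m : ℂ) ^ n * FC δ := by
  have h1 : ∀ χ : Fin n → ZMod m, FC χ * FC (χ + δ) = ∑ s', ∑ t', ∑ s, ∑ t,
      if s' = t' then 0 else if s = t then 0 else ZMod.stdAddChar (δ s' - δ t') *
        ZMod.stdAddChar (-(χ s - χ t) + (χ s' - χ t')) := by
    intro χ
    rw [FC_swap χ, FC, Finset.mul_sum]
    refine Finset.sum_congr rfl fun s' _ => ?_
    rw [Finset.mul_sum]
    refine Finset.sum_congr rfl fun t' _ => ?_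
    rw [Finset.sum_mul]
    refine Finset.sum_congr rfl fun s _ => ?_
    rw [Finset.sum_mul]
    refine Finset.sum_congr rfl fun t _ => ?_
    split_ifs
    · simp
    · simp
    · simp
    · rw [← AddChar.map_add_eq_mul, ← AddChar.map_add_eq_mul]
      congr 1
      simp only [Pi.add_apply]
      ring
  simp only [h1]
  rw [Finset.sum_comm, FC, Finset.mul_sum]
  refine Finset.sum_congr rfl fun s' _ => ?_
  rw [Finset.sum_comm, Finset.mul_sum]
  refine Finset.sum_congr rfl fun t' _ => ?_
  by_cases h' : s' = t'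
  · simp [h']
  simp only [h', if_false]
  rw [Finset.sum_comm, Finset.sum_eq_single s']
  · rw [Finset.sum_comm, Finset.sum_eq_single t']
    · simp only [h', if_false]
      rw [← Finset.mul_sum, orth hm s' t' s' t' h' h']
      simp [mul_comm]
    · intro t _ ht
      by_cases h : s' = t
      · simp [h]
      · simp only [h, if_false]
        rw [← Finset.mul_sum, orth hm s' t s' t' h h']
        simp [ht]
    · simp
  · intro s _ hs
    rw [Finset.sum_comm]
    refine Finset.sum_eq_zero fun t _ => ?_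
    by_cases h : s = t
    · simp [h]
    · simp only [h, if_false]
      rw [← Finset.mul_sum, orth hm s t s' t' h h']
      simp [hs]
  · simp

/-- the colour shift of a move -/
def dl {m n : ℕ} (p : Fin n × Bool) : Fin n → ZMod m :=
  fun t => if t.val < p.1.val + 1 then sg m p.2 else 0

theorem FC_mov {m n : ℕ} [NeZero m] (p : Fin n × Bool) (u : ColPerm m n) :
    FC (mov p u).1 = FC (u.1 + dl p) := by
  rw [← FC_perm (u.1 + dl p) (revPos_involutive (p.1.val + 1)).toPerm]
  congr 1
  funext t
  simp only [mov, flipTop, dl, Pi.add_apply, Function.Involutive.coe_toPerm, revPos_lt]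
  split_ifs with h
  · rfl
  · rw [revPos_of_not_lt _ _ h, add_zero]

theorem sum_ind {n : ℕ} (k : Fin n) :
    ∑ t : Fin n, (if t.val < k.val + 1 then (1 : ℝ) else 0) = k.val + 1 := by
  rw [Fin.sum_univ_eq_sum_range (fun t => if t < k.val + 1 then (1 : ℝ) else 0), Finset.sum_boole]
  have : (range n).filter (fun t => t < k.val + 1) = range (k.val + 1) := by
    ext t
    simp only [Finset.mem_filter, Finset.mem_range]
    omega
  rw [this]
  simp

theorem offdiag {n : ℕ} : ∑ s : Fin n, ∑ t : Fin n, (if s = t then (0 : ℝ) else 1) =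
    n * (n - 1) := by
  have : ∀ s t : Fin n, (if s = t then (0 : ℝ) else 1) = 1 - if s = t then 1 else 0 := by
    intro s t; split_ifs <;> simp
  simp only [this, Finset.sum_sub_distrib]
  simp
  ring

theorem FC_zero {m n : ℕ} [NeZero m] : (FC (0 : Fin n → ZMod m)).re = n * (n - 1) := by
  rw [← offdiag]
  simp only [FC, Complex.re_sum]
  refine Finset.sum_congr rfl fun s _ => Finset.sum_congr rfl fun t _ => ?_
  split_ifs <;> simp

theorem FC_dl {m n : ℕ} [NeZero m] (hm : 3 ≤ m) (p : Fin n × Bool) :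
    (FC (dl (m := m) p)).re = n * (n - 1) -
      2 * (1 - Real.cos (2 * Real.pi / m)) * ((p.1.val + 1) * (n - (p.1.val + 1))) := by
  have c1 := re_char_one hm
  have c2 : (ZMod.stdAddChar (-1 : ZMod m)).re = Real.cos (2 * Real.pi / m) := by
    rw [AddChar.map_neg_eq_conj, Complex.conj_re, c1]
  have c3 : (ZMod.stdAddChar (sg m p.2)).re = Real.cos (2 * Real.pi / m) := by
    cases p.2 <;> simp [sg, c1, c2]
  have c4 : (ZMod.stdAddChar (-sg m p.2)).re = Real.cos (2 * Real.pi / m) := by
    rw [AddChar.map_neg_eq_conj, Complex.conj_re, c3]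
  set a : Fin n → ℝ := fun t => if t.val < p.1.val + 1 then 1 else 0 with ha
  have hs : ∑ t, a t = p.1.val + 1 := sum_ind p.1
  have h1 : (FC (dl (m := m) p)).re = ∑ s : Fin n, ∑ t : Fin n, ((if s = t then (0 : ℝ) else 1) -
      (1 - Real.cos (2 * Real.pi / m)) * (a s + a t - 2 * (a s * a t))) := by
    simp only [FC, Complex.re_sum]
    refine Finset.sum_congr rfl fun s _ => Finset.sum_congr rfl fun t _ => ?_
    by_cases h : s = t
    · subst h
      simp only [ha, if_true]
      split_ifs <;> norm_num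
    · simp only [h, ha, dl, if_false]
      split_ifs <;> simp [c3, c4] <;> norm_num
  rw [h1]
  simp only [Finset.sum_sub_distrib, offdiag, ← Finset.mul_sum, Finset.sum_add_distrib, hs,
    ← Finset.sum_mul, Finset.sum_const, Finset.card_univ, Fintype.card_fin, nsmul_eq_mul]
  ring

theorem adj_gap {m n : ℕ} [NeZero m] (hn : 2 ≤ n) (hm : 3 ≤ m) :
    gap (adjMat m n) ≤ 2 / 3 * (1 - Real.cos (2 * Real.pi / m)) * (n + 1) := by
  have hn' : (2 : ℝ) ≤ n := by exact_mod_cast hn
  have conv : ∀ δ : Fin n → ZMod m, ∑ u : ColPerm m n, (FC u.1).re * (FC (u.1 + δ)).re =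
      ((n.factorial : ℝ) * (m : ℝ) ^ n) * (FC δ).re := by
    intro δ
    have h1 : ∑ χ : Fin n → ZMod m, (FC χ).re * (FC (χ + δ)).re = (m : ℝ) ^ n * (FC δ).re := by
      have := FC_conv hm δ
      apply Complex.ofReal_injective
      push_cast
      simpa only [FC_real] using this
    rw [Fintype.sum_prod_type]
    simp only [Finset.sum_const, Finset.card_univ, Fintype.card_perm, Fintype.card_fin,
      nsmul_eq_mul, ← Finset.mul_sum, h1, mul_assoc]
  have hff : (fun u : ColPerm m n => (FC u.1).re) ⬝ᵥ (fun u : ColPerm m n => (FC u.1).re) =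
      ((n.factorial : ℝ) * (m : ℝ) ^ n) * (n * (n - 1)) := by
    have := conv 0
    simpa only [add_zero, FC_zero, dotProduct] using this
  have hC : 0 < (n.factorial : ℝ) * (m : ℝ) ^ n := by
    have : 0 < m := by omega
    positivity
  have hη := eta_pos hm
  refine gap_le (adjMat m n) (adjMat_symm m n) (2 * n) (adjMat_nonneg m n) ?_ ?_
    (fun u => (FC u.1).re) ?_ ?_ _ (by positivity) ?_
  · intro u
    have := adj_sum hm (fun _ => 1) u
    simp only [mul_one] at this
    rw [this]
    simp [mul_comm]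
  · rw [Fintype.card_prod, Fintype.card_perm, Fintype.card_fin]
    have h1 : 0 < Fintype.card (Fin n → ZMod m) := Fintype.card_pos
    have h2 := Nat.self_le_factorial n
    nlinarith
  · rw [Fintype.sum_prod_type]
    simp only [Finset.sum_const, nsmul_eq_mul, ← Finset.mul_sum, ← Complex.re_sum, sum_FC hm]
    simp
  · rw [hff]
    have : (0 : ℝ) < n * (n - 1) := by nlinarith
    positivity
  · rw [hff]
    simp only [dotProduct, Matrix.mulVec, adj_sum hm, FC_mov, Finset.mul_sum]
    rw [Finset.sum_comm]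
    simp only [conv, FC_dl hm, ← Finset.mul_sum]
    rw [Fintype.sum_prod_type]
    simp only [Finset.sum_const, Finset.card_univ, Fintype.card_bool, nsmul_eq_mul,
      ← Finset.mul_sum, Finset.sum_sub_distrib, Fintype.card_fin]
    rw [Fin.sum_univ_eq_sum_range (fun j => ((j : ℝ) + 1) * (n - (j + 1))), sum_quad]
    apply le_of_eq
    push_cast
    ring

end Pool.Agent.P.MP_ad1e8a_co
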