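import Mathlib
import Pool.Agent.P.MP_ad1e8a_co.TestFn
import Pool.Agent.P.MP_ad1e8a_co.S7A

/-!
Weighted two-position test functions on the generalised pancake graph.
-/

open Finset Matrix

namespace Pool.Agent.P.MP_ad1e8a_co.S7

theorem rayleigh_le {ι : Type} [Fintype ι] [DecidableEq ι] (A : Matrix ι ι ℝ) (hA : A.IsSymm)
    (d : ℝ) (hnn : ∀ u v, 0 ≤ A u v) (hrow : ∀ u, ∑ v, A u v = d) (f : ι → ℝ) :
    f ⬝ᵥ A *ᵥ f ≤ d * (f ⬝ᵥ f) := by
  obtain ⟨l, v, -, -, hv, horth, hpars⟩ := spec A hA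
  rw [hpars f (A *ᵥ f), hpars f f, Finset.mul_sum]
  refine Finset.sum_le_sum fun i _ => ?_
  have h1 : l i ≤ d := eig_le A d hnn hrow (v i) _ (fun h => by
    have := horth i i
    rw [h] at this
    simp at this) (hv i)
  rw [Matrix.dotProduct_mulVec, ← Matrix.mulVec_transpose, hA.eq, hv, smul_dotProduct, smul_eq_mul]
  nlinarith [mul_self_nonneg (v i ⬝ᵥ f)]

variable {m n : ℕ} [NeZero m]

/-- The real part of the standard character. -/
noncomputable def cs (x : ZMod m) : ℝ := (ZMod.stdAddChar x).re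

theorem cs_neg (x : ZMod m) : cs (-x) = cs x := by
  rw [cs, AddChar.map_neg_eq_conj, Complex.conj_re, cs]

theorem cs_mul (x y : ZMod m) : 2 * (cs x * cs y) = cs (-x + y) + cs (x + y) := by
  simp only [cs, AddChar.map_add_eq_mul, AddChar.map_neg_eq_conj, Complex.mul_re, Complex.conj_re,
    Complex.conj_im]
  ring

/-- The weighted test function. -/
noncomputable def fG (G : Fin n → Fin n → ℝ) (χ : Fin n → ZMod m) : ℝ :=
  ∑ s, ∑ t, G s t * cs (χ s - χ t)

theorem sum_fG (hm : 3 ≤ m) {G : Fin n → Fin n → ℝ} (h0 : ∀ s, G s s = 0) :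
    ∑ χ : Fin n → ZMod m, fG G χ = 0 := by
  unfold fG
  rw [Finset.sum_comm]
  refine Finset.sum_eq_zero fun s _ => ?_
  rw [Finset.sum_comm]
  refine Finset.sum_eq_zero fun t _ => ?_
  by_cases h : s = t
  · simp [h, h0]
  · have := sum_char_zero (m := m) (fun χ : Fin n → ZMod m => χ s - χ t)
      (fun a b => by simp only [Pi.add_apply]; ring) (Pi.single s 1)
      (by simpa [Pi.single_apply, Ne.symm h] using one_ne hm)
    rw [← Finset.mul_sum]
    simp only [cs]
    rw [← Complex.re_sum, this, Complex.zero_re, mul_zero]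

theorem orth_re (hm : 3 ≤ m) (s t s' t' : Fin n) (h : s ≠ t) (h' : s' ≠ t') :
    ∑ χ : Fin n → ZMod m, cs (-(χ s - χ t) + (χ s' - χ t')) =
      if s = s' ∧ t = t' then ((m : ℝ) ^ n) else 0 := by
  simp only [cs]
  rw [← Complex.re_sum, orth hm s t s' t' h h']
  split_ifs
  · rw [← Complex.ofReal_natCast, ← Complex.ofReal_pow, Complex.ofReal_re]
  · rfl

theorem fG_dot (hm : 3 ≤ m) {G G' : Fin n → Fin n → ℝ} (h0 : ∀ s, G s s = 0)
    (hs : ∀ s t, G s t = G t s) (h0' : ∀ s, G' s s = 0) :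
    ∑ χ : Fin n → ZMod m, fG G χ * fG G' χ = (m : ℝ) ^ n * ∑ s, ∑ t, G s t * G' s t := by
  have h1 : ∀ s' t' : Fin n, ∑ χ : Fin n → ZMod m, fG G χ * (G' s' t' * cs (χ s' - χ t')) =
      (m : ℝ) ^ n * (G s' t' * G' s' t') := by
    intro s' t'
    by_cases h' : s' = t'
    · simp [h', h0']
    have h2 : ∀ s t : Fin n, ∑ χ : Fin n → ZMod m, G s t * cs (χ s - χ t) *
        (G' s' t' * cs (χ s' - χ t')) = G' s' t' / 2 * (m : ℝ) ^ n *
          ((if s = s' ∧ t = t' then G s t else 0) + if t = s' ∧ s = t' then G s t else 0) := by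
      intro s t
      by_cases h : s = t
      · simp [h, h0]
      have e : ∀ χ : Fin n → ZMod m, G s t * cs (χ s - χ t) * (G' s' t' * cs (χ s' - χ t')) =
          G s t * G' s' t' / 2 * (cs (-(χ s - χ t) + (χ s' - χ t')) +
            cs (-(χ t - χ s) + (χ s' - χ t'))) := fun χ => by
        rw [neg_sub (χ t), ← cs_mul]; ring
      simp only [e]
      rw [← Finset.mul_sum, Finset.sum_add_distrib, orth_re hm s t s' t' h h',
        orth_re hm t s s' t' (Ne.symm h) h']
      split_ifs <;> ring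
    simp only [fG, Finset.sum_mul]
    rw [Finset.sum_comm, Finset.sum_congr rfl fun s _ => Finset.sum_comm]
    simp only [h2, ← Finset.mul_sum, Finset.sum_add_distrib, ite_and]
    simp only [Finset.sum_ite_eq', Finset.mem_univ, if_true, Finset.sum_ite_irrel,
      Finset.sum_const_zero]
    rw [hs t' s']
    ring
  simp only [Finset.mul_sum, ← h1]
  rw [← Finset.sum_congr rfl fun s _ => Finset.sum_comm, ← Finset.sum_comm]
  exact Finset.sum_congr rfl fun χ _ => by simp only [← Finset.mul_sum]; rfl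

/-- The operator on weights. -/
noncomputable def TG (c : ℝ) (G : Fin n → Fin n → ℝ) (s t : Fin n) : ℝ :=
  ∑ k : Fin n, (if (s.val ≤ k.val ↔ t.val ≤ k.val) then 2 else 2 * c) *
    G (revPos (k.val + 1) s) (revPos (k.val + 1) t)

theorem fG_mov (hm : 3 ≤ m) (G : Fin n → Fin n → ℝ) (u : ColPerm m n) :
    ∑ p : Fin n × Bool, fG G (mov p u).1 = fG (TG (Real.cos (2 * Real.pi / m)) G) u.1 := by
  have h1 : ∀ p : Fin n × Bool, fG G (mov p u).1 = ∑ s, ∑ t,
      G (revPos (p.1.val + 1) s) (revPos (p.1.val + 1) t) *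
        cs ((dl p s - dl p t) + (u.1 s - u.1 t)) := by
    intro p
    have hρ := revPos_involutive (n := n) (p.1.val + 1)
    have h2 : ∀ s, (mov p u).1 (revPos (p.1.val + 1) s) = u.1 s + dl p s := fun s => by
      simp only [mov, flipTop, dl, revPos_lt, hρ s]
      split_ifs with h
      · rfl
      · rw [revPos_of_not_lt _ _ h, add_zero]
    refine (Fintype.sum_equiv hρ.toPerm _ _ fun s => Fintype.sum_equiv hρ.toPerm _ _ fun t => ?_).symm
    simp only [Function.Involutive.coe_toPerm, h2]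
    congr 2
    ring
  have c1 : cs (1 : ZMod m) = Real.cos (2 * Real.pi / m) := re_char_one hm
  simp only [h1]
  simp only [fG, TG, Finset.sum_mul]
  rw [Finset.sum_comm]
  refine Finset.sum_congr rfl fun s _ => ?_
  rw [Finset.sum_comm]
  refine Finset.sum_congr rfl fun t _ => ?_
  rw [Fintype.sum_prod_type]
  refine Finset.sum_congr rfl fun k _ => ?_
  have c2 := cs_mul (1 : ZMod m) (u.1 s - u.1 t)
  rw [c1] at c2
  simp only [Fintype.sum_bool, dl, sg, Nat.lt_succ_iff, if_true, Bool.false_eq_true, if_false]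
  by_cases h : s.val ≤ k.val <;> by_cases h' : t.val ≤ k.val <;>
    simp only [h, h', if_true, if_false, iff_self, iff_false, false_iff, not_true, sub_self,
      zero_add, sub_zero, zero_sub, neg_neg]
  · ring
  · linear_combination (-G (revPos (k.val + 1) s) (revPos (k.val + 1) t)) * c2
  · linear_combination (-G (revPos (k.val + 1) s) (revPos (k.val + 1) t)) * c2
  · ring

theorem adj_lt_G (hn : 2 ≤ n) (hm : 3 ≤ m) {G : Fin n → Fin n → ℝ} (h0 : ∀ s, G s s = 0)
    (hs : ∀ s t, G s t = G t s) {l : ℝ} (hp : 0 < ∑ s, ∑ t, G s t * G s t)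
    (h : l * ∑ s, ∑ t, G s t * G s t < ∑ s, ∑ t, G s t * TG (Real.cos (2 * Real.pi / m)) G s t) :
    gap (adjMat m n) < 2 * n - l := by
  set f : ColPerm m n → ℝ := fun u => fG G u.1 with hf
  have hC : 0 < (n.factorial : ℝ) * (m : ℝ) ^ n := by
    have : 0 < m := by omega
    positivity
  have conv : ∀ G' : Fin n → Fin n → ℝ, (∀ s, G' s s = 0) → ∑ u : ColPerm m n, f u * fG G' u.1 =
      ((n.factorial : ℝ) * (m : ℝ) ^ n) * ∑ s, ∑ t, G s t * G' s t := fun G' h0' => by
    rw [Fintype.sum_prod_type]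
    simp only [hf, Finset.sum_const, Finset.card_univ, Fintype.card_perm, Fintype.card_fin,
      nsmul_eq_mul, ← Finset.mul_sum, fG_dot hm h0 hs h0', mul_assoc]
  have h1 : f ⬝ᵥ f = _ := conv G h0
  have h2 : f ⬝ᵥ adjMat m n *ᵥ f = ((n.factorial : ℝ) * (m : ℝ) ^ n) *
      ∑ s, ∑ t, G s t * TG (Real.cos (2 * Real.pi / m)) G s t := by
    rw [← conv _ fun s => by simp [TG, h0]]
    simp only [dotProduct, Matrix.mulVec, adj_sum hm, hf, fG_mov hm]
  have hrow : ∀ u, ∑ v, adjMat m n u v = 2 * n := fun u => by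
    have := adj_sum hm (fun _ => 1) u
    simp only [mul_one] at this
    rw [this]
    simp [mul_comm]
  have h3 := rayleigh_le _ (adjMat_symm m n) _ (adjMat_nonneg m n) hrow f
  have h4 : 0 < f ⬝ᵥ f := h1 ▸ mul_pos hC hp
  have h5 : l * (f ⬝ᵥ f) < f ⬝ᵥ adjMat m n *ᵥ f := by
    rw [h1, h2, mul_left_comm]
    exact mul_lt_mul_of_pos_left h hC
  have h6 := gap_le (adjMat m n) (adjMat_symm m n) (2 * n) (adjMat_nonneg m n) hrow (by
    rw [Fintype.card_prod, Fintype.card_perm, Fintype.card_fin]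
    have h1 : 0 < Fintype.card (Fin n → ZMod m) := Fintype.card_pos
    have h2 := Nat.self_le_factorial n
    nlinarith) f (by
      rw [Fintype.sum_prod_type]
      simp only [hf, Finset.sum_const, nsmul_eq_mul, ← Finset.mul_sum, sum_fG hm h0, mul_zero]) h4
    (2 * n - (f ⬝ᵥ adjMat m n *ᵥ f) / (f ⬝ᵥ f)) (sub_nonneg.2 ((div_le_iff₀ h4).2 h3))
    (by rw [sub_sub_cancel, div_mul_cancel₀ _ h4.ne'])
  have h7 := (lt_div_iff₀ h4).2 h5
  linarith

/-- The symmetric weight of a vector on increasing pairs. -/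
def gs (g : ℕ → ℕ → ℝ) (a b : ℕ) : ℝ := if a < b then g a b else if b < a then g b a else 0

theorem gs_lt (g : ℕ → ℕ → ℝ) {a b : ℕ} (h : a < b) : gs g a b = g a b := if_pos h

theorem gs_comm (g : ℕ → ℕ → ℝ) (a b : ℕ) : gs g a b = gs g b a := by
  unfold gs
  split_ifs <;> first | rfl | omega

theorem rev_val (k s : Fin n) :
    (revPos (k.val + 1) s).val = if s.val ≤ k.val then k.val - s.val else s.val := by
  split_ifs with h
  · exact revPos_val k s h
  · rw [revPos_of_not_lt _ _ (by omega)]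

theorem TG_eq (c : ℝ) (g : ℕ → ℕ → ℝ) (s t : Fin n) {d e : ℕ} (hd : 0 < d)
    (ht : t.val = s.val + d) (h : s.val + d + e = n) :
    TG c (fun a b : Fin n => gs g a b) s t = TT c g s d e := by
  simp only [TG, rev_val, ht]
  generalize s.val = p at *
  rw [Fin.sum_univ_eq_sum_range (fun k => (if (p ≤ k ↔ p + d ≤ k) then 2 else 2 * c) *
    gs g (if p ≤ k then k - p else p) (if p + d ≤ k then k - (p + d) else p + d)) n, ← h,
    Finset.sum_range_add, Finset.sum_range_add, TT, Finset.mul_sum, Finset.mul_sum]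
  congr 1
  · congr 1
    · rw [Finset.sum_congr rfl (g := fun _ => 2 * g p (p + d)) fun k hk => ?_]
      · simp only [Finset.sum_const, Finset.card_range, nsmul_eq_mul]
        ring
      · have := mem_range.1 hk
        rw [if_pos (by omega), if_neg (by omega), if_neg (by omega), gs_lt g (by omega)]
    · refine Finset.sum_congr rfl fun k hk => ?_
      have := mem_range.1 hk
      rw [if_neg (by omega), if_pos (by omega), if_neg (by omega), Nat.add_sub_cancel_left,
        gs_lt g (by omega)]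
  · refine Finset.sum_congr rfl fun k _ => ?_
    rw [if_pos (by omega), if_pos (by omega), if_pos (by omega), Nat.add_sub_cancel_left, gs_comm,
      show p + d + k - p = k + d by omega, gs_lt g (by omega)]

theorem adj_lt (hn : 2 ≤ n) (hm : 3 ≤ m) {g : ℕ → ℕ → ℝ} {l : ℝ}
    (h : Beats n (Real.cos (2 * Real.pi / m)) l g) : gap (adjMat m n) < 2 * n - l := by
  obtain ⟨g0, g1, g2, g3⟩ := h
  set c := Real.cos (2 * Real.pi / m)
  set G : Fin n → Fin n → ℝ := fun a b => gs g a b with hG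
  have hs : ∀ s t, G s t = G t s := fun s t => gs_comm g _ _
  have h0 : ∀ s, G s s = 0 := fun s => by simp [hG, gs]
  have hT : ∀ s t, TG c G s t = TG c G t s := fun s t =>
    Finset.sum_congr rfl fun k _ => by rw [hs]; simp only [iff_comm]
  have k1 : ∀ s t : Fin n, s.val < t.val → l * (G s t * G s t) ≤ G s t * TG c G s t := by
    intro s t hst
    obtain ⟨d, hd⟩ : ∃ d, t.val = s.val + d := ⟨t.val - s.val, by omega⟩
    have := t.2
    rw [TG_eq c g s t (d := d) (e := n - t.val) (by omega) hd (by omega), mul_left_comm]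
    simp only [hG, gs_lt g hst]
    rw [hd]
    exact mul_le_mul_of_nonneg_left (g1 _ _ _ (by omega) (by omega) (by omega)) (g0 _ _)
  have k2 : ∀ s t : Fin n, l * (G s t * G s t) ≤ G s t * TG c G s t := fun s t => by
    rcases lt_trichotomy s.val t.val with h | h | h
    · exact k1 s t h
    · rw [Fin.ext h, h0]; simp
    · rw [hs, hT]; exact k1 t s h
  let a : Fin n := ⟨0, by omega⟩
  let b : Fin n := ⟨1, by omega⟩
  have e : G a b = g 0 1 := gs_lt g one_pos
  refine adj_lt_G hn hm h0 hs ?_ ?_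
  · exact Finset.sum_pos' (fun s _ => Finset.sum_nonneg fun t _ => mul_self_nonneg _)
      ⟨a, mem_univ _, Finset.sum_pos' (fun t _ => mul_self_nonneg _)
        ⟨b, mem_univ _, by rw [e]; exact mul_pos g2 g2⟩⟩
  · simp only [Finset.mul_sum]
    refine Finset.sum_lt_sum (fun s _ => Finset.sum_le_sum fun t _ => k2 s t)
      ⟨a, mem_univ _, Finset.sum_lt_sum (fun t _ => k2 a t) ⟨b, mem_univ _, ?_⟩⟩
    rw [TG_eq c g a b (d := 1) (e := n - 1) one_pos rfl (by change 0 + 1 + (n - 1) = n; omega), e,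
      mul_left_comm]
    exact mul_lt_mul_of_pos_left g3 g2

end Pool.Agent.P.MP_ad1e8a_co.S7
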