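import Mathlib
import Pool.Agent.P.MP_ad1e8a_co.FC2
import Pool.Agent.P.MP_ad1e8a_co.S7B

/-!
From the graph to the weighted operators on arrangements of letters.
-/

open Finset Matrix

namespace Pool.Agent.P.MP_ad1e8a_co.FC

variable {m n : ℕ} [NeZero m] {θ : ℝ}

/-- The adjacency operator is `θ` times the sum over the moves. -/
def Sc (m n : ℕ) [NeZero m] (θ : ℝ) : Prop := ∀ (g : ColPerm m n → ℝ) (u : ColPerm m n),
  ∑ v, adjMat m n u v * g v = θ * ∑ p : Fin n × Bool, g (mov p u)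

theorem Sc_three (hm : 3 ≤ m) : Sc m n 1 := fun g u => by rw [MP_ad1e8a_co.adj_sum hm, one_mul]

theorem Sc_two : Sc 2 n (1 / 2) := by
  classical
  intro g u
  have e1 : (-1 : ZMod 2) = 1 := by decide
  have e : ∀ p : Fin n × Bool, mov p u = flipTop (p.1.val + 1) 1 u := fun p => by
    rw [mov, sg, e1, ite_self]
  have h0 : ∀ k : Fin n, revPos (k.val + 1) ⟨0, k.pos⟩ = k := fun k =>
    Fin.ext (revPos_val k _ (Nat.zero_le _))
  have h2 : ∀ k : Fin n, (flipTop (k.val + 1) 1 u).2 ⟨0, k.pos⟩ = u.2 k := fun k =>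
    congrArg u.2 (h0 k)
  have hi : Function.Injective fun k : Fin n => flipTop (k.val + 1) 1 u := fun k k' h =>
    u.2.injective (by rw [← h2, ← h2]; exact congrArg (fun v : ColPerm 2 n => v.2 _) h)
  have h3 : ∑ p : Fin n × Bool, g (mov p u) = 2 * ∑ k : Fin n, g (flipTop (k.val + 1) 1 u) := by
    simp [e, Fintype.sum_prod_type, Finset.mul_sum]
  rw [h3, ← mul_assoc, one_div_mul_cancel two_ne_zero, one_mul,
    ← Finset.sum_image (s := univ) (f := g) hi.injOn]
  simp only [adjMat, SimpleGraph.adjMatrix_apply, ite_mul, one_mul, zero_mul]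
  rw [← Finset.sum_filter]
  refine Finset.sum_congr ?_ fun _ _ => rfl
  ext v
  simp only [mem_filter, mem_univ, true_and, mem_image, pancake, SimpleGraph.fromRel_adj, e1,
    or_self]
  constructor
  · rintro ⟨-, ⟨k, h1, h2, h⟩ | ⟨k, h1, h2, h⟩⟩
    · exact ⟨⟨k - 1, by omega⟩, by rwa [show k - 1 + 1 = k by omega]⟩
    · refine ⟨⟨k - 1, by omega⟩, ?_⟩
      rw [show k - 1 + 1 = k by omega, ← h]
      nth_rewrite 1 [← e1]
      exact flipTop_flipTop _ _ _
  · rintro ⟨k, rfl⟩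
    refine ⟨fun h => ?_, Or.inl ⟨_, by omega, k.2, rfl⟩⟩
    have a1 := h2 k
    have a2 : (flipTop (k.val + 1) 1 u).1 ⟨0, k.pos⟩ = u.1 k + 1 := by
      simp only [flipTop, Nat.succ_pos, if_true, h0]
    rw [← h] at a1 a2
    rw [u.2.injective a1] at a2
    exact absurd (left_eq_add.1 a2) (by decide)

theorem Sc.spec (h : Sc m n θ) (a b : ZMod m × Fin n) (u : ColPerm m n) (hu : u ∈ part m n a) :
    (θ • QM m n) a b = ((part m n b ∩ (pancake m n).neighborSet u).ncard : ℝ) := by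
  classical
  have h1 := h (fun v => if v ∈ part m n b then 1 else 0) u
  simp only [mov_mem_part _ a b u hu] at h1
  rw [Matrix.smul_apply, smul_eq_mul, QM, ← h1]
  simp only [adjMat, SimpleGraph.adjMatrix_apply, ite_mul, one_mul, zero_mul, ← ite_and]
  rw [Finset.sum_boole, ← Set.ncard_coe_finset]
  congr 2
  ext v
  simp [and_comm]

theorem Sc.row (h : Sc m n θ) (u : ColPerm m n) : ∑ v, adjMat m n u v = 2 * θ * n := by
  have := h (fun _ => 1) u
  simp only [mul_one] at this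
  rw [this]
  simp
  ring

theorem Q_mul (x : ZMod m × Fin n → ℝ) (a : ZMod m × Fin n) :
    ((θ • QM m n) *ᵥ x) a = θ * ∑ p : Fin n × Bool, x (mv p a) := by
  rw [Matrix.smul_mulVec, Pi.smul_apply, smul_eq_mul, ← QM_sum]; rfl

theorem Q_row (a : ZMod m × Fin n) : ∑ b, (θ • QM m n) a b = 2 * θ * n := by
  have := Q_mul (θ := θ) (fun _ => 1) a
  simp only [mulVec, dotProduct, mul_one] at this
  rw [this]
  simp
  ring

omit [NeZero m] in
theorem Q_symm : (θ • QM m n).IsSymm := (QM_symm m n).smul θ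

omit [NeZero m] in
theorem Q_nonneg (hθ : 0 < θ) (a b : ZMod m × Fin n) : 0 ≤ (θ • QM m n) a b :=
  mul_nonneg hθ.le (Finset.sum_nonneg fun _ _ => by split_ifs <;> norm_num)

theorem card_Q (hn : 2 ≤ n) : 2 ≤ Fintype.card (ZMod m × Fin n) := by
  rw [Fintype.card_prod, Fintype.card_fin]
  have : 0 < Fintype.card (ZMod m) := Fintype.card_pos
  nlinarith

theorem card_A (hn : 2 ≤ n) : 2 ≤ Fintype.card (ColPerm m n) := by
  rw [Fintype.card_prod, Fintype.card_perm, Fintype.card_fin]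
  have h1 : 0 < Fintype.card (Fin n → ZMod m) := Fintype.card_pos
  have h2 := Nat.self_le_factorial n
  nlinarith

theorem Sc.le (h : Sc m n θ) (hn : 2 ≤ n) : gap (adjMat m n) ≤ gap (θ • QM m n) := by
  by_contra hc
  refine lt_irrefl _ (lt_gap (θ • QM m n) Q_symm _ Q_row (card_Q hn) _ fun x l hx0 hs hx => ?_)
  let o : Fin n := ⟨0, by omega⟩
  let pt : ColPerm m n → ZMod m × Fin n := fun u => (u.1 (u.2⁻¹ o), u.2⁻¹ o)
  have h1 : ∀ u a, u ∈ part m n a ↔ pt u = a := fun u a => by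
    constructor
    · rintro ⟨a1, a2⟩
      have : u.2⁻¹ o = a.2 := Equiv.Perm.inv_eq_iff_eq.2 (Fin.ext a1.symm)
      exact Prod.ext (by simp only [pt, this, a2]) this
    · rintro rfl
      exact ⟨by simp [pt, o], rfl⟩
  have h2 : adjMat m n *ᵥ (fun u => x (pt u)) = l • fun u => x (pt u) := by
    funext u
    rw [mulVec, dotProduct, h, Pi.smul_apply, ← Pi.smul_apply, ← hx, Q_mul]
    exact congrArg _ (Finset.sum_congr rfl fun p _ => congrArg x
      ((h1 _ _).1 ((mov_mem_part p _ _ u ((h1 _ _).2 rfl)).2 rfl)))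
  set b := (∑ u, x (pt u)) / Fintype.card (ColPerm m n) with hb
  have h3 : (l - 2 * θ * n) * b = 0 := by
    by_cases e : l = 2 * θ * n
    · rw [e, sub_self, zero_mul]
    · rw [hb, dot_one_of_ne _ (adjMat_symm m n) _ h.row _ l h2 e, zero_div, mul_zero]
  have h4 : adjMat m n *ᵥ (fun u => x (pt u) - b) = l • fun u => x (pt u) - b := by
    funext u
    have := congrFun h2 u
    simp only [mulVec, dotProduct, Pi.smul_apply, smul_eq_mul, mul_sub, Finset.sum_sub_distrib,
      ← Finset.sum_mul, h.row] at this ⊢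
    linear_combination this + h3
  have h5 : (fun u => x (pt u) - b) ≠ 0 := fun e => by
    have a1 : ∀ a, x a = b := fun a => by
      have := congrFun e (fun _ => a.1, Equiv.swap o a.2)
      rw [(h1 _ a).1 ⟨by simp [o], rfl⟩] at this
      exact sub_eq_zero.1 this
    have a2 := card_Q (m := m) hn
    simp only [a1, Finset.sum_const, card_univ, nsmul_eq_mul, mul_eq_zero, Nat.cast_eq_zero] at hs
    exact hx0 (funext fun a => (a1 a).trans (hs.resolve_left (by omega)))
  have h6 := gap_le _ (adjMat_symm m n) _ (adjMat_nonneg m n) h.row (card_A hn)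
    (fun u => x (pt u) - b) (by
      have := card_A (m := m) hn
      rw [Finset.sum_sub_distrib, Finset.sum_const, card_univ, nsmul_eq_mul, hb,
        mul_div_cancel₀ _ (by positivity), sub_self])
    ((dotProduct_self_star_nonneg _).lt_of_ne' fun e => h5 (dotProduct_self_eq_zero.1 e))
    (2 * θ * n - l) (sub_nonneg.2 (eig_le _ _ (adjMat_nonneg m n) h.row _ l h5 h4))
    (by rw [h4, dotProduct_smul, sub_sub_cancel, smul_eq_mul])
  linarith [not_le.1 hc]

/-- The properties of a cosine on the colours. -/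
structure Cos (c : ZMod m → ℝ) : Prop where
  zero : c 0 = 1
  ne : ∀ y, y ≠ 0 → c y ≠ 1
  add : ∀ x y, c (x + y) + c (x - y) = 2 * c x * c y

variable {c : ZMod m → ℝ}

omit [NeZero m] in
theorem Cos.sum (hc : Cos c) {A : Type} [AddCommGroup A] [Fintype A] (L : A → ZMod m)
    (hL : ∀ a b, L (a + b) = L a + L b) (a : A) (ha : L a ≠ 0) : ∑ x, c (L x) = 0 := by
  have h1 : ∑ x, c (L x + L a) = ∑ x, c (L x) :=
    Fintype.sum_equiv (Equiv.addRight a) _ _ fun x => by rw [Equiv.coe_addRight, hL]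
  have h2 : ∑ x, c (L x) = ∑ x, c (L x - L a) :=
    Fintype.sum_equiv (Equiv.addRight a) _ _ fun x => by
      rw [Equiv.coe_addRight, hL, add_sub_cancel_right]
  have h3 := Finset.sum_congr rfl fun x (_ : x ∈ univ) => hc.add (L x) (L a)
  rw [Finset.sum_add_distrib, h1, ← h2, ← Finset.sum_mul, ← Finset.mul_sum] at h3
  exact (mul_eq_zero.1 (show (∑ x, c (L x)) * (1 - c (L a)) = 0 by linarith)).resolve_right
    (sub_ne_zero.2 (hc.ne _ ha).symm)

theorem ray (hc : Cos c) (hθ : 0 < θ) (hn : 2 ≤ n) {κ : ZMod m} (hκ : κ ≠ 0) (w : ℕ → ℝ)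
    (hw : 0 < ∑ j ∈ range n, w j * w j) : 2 * θ * ∑ j ∈ range n, w j * M1 n (c κ) w j ≤
      (2 * θ * n - gap (θ • QM m n)) * ∑ j ∈ range n, w j * w j := by
  set x : ZMod m × Fin n → ℝ := fun a => c (a.1 * κ) * w a.2 with hx
  have h1 : (θ • QM m n) *ᵥ x = fun a => c (a.1 * κ) * (2 * θ * M1 n (c κ) w a.2) := by
    funext a
    rw [Q_mul, Fintype.sum_prod_type, M1, Finset.sum_range]
    simp only [Finset.mul_sum]
    refine Finset.sum_congr rfl fun k _ => ?_
    have := hc.add (a.1 * κ) κ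
    simp only [Fintype.sum_bool, hx, mv, sg, Nat.lt_succ_iff, S7.rev_val, rv, if_true,
      Bool.false_eq_true, if_false]
    split_ifs
    · rw [add_mul a.1, add_mul a.1, one_mul, neg_one_mul, ← sub_eq_add_neg]
      linear_combination θ * w (k - a.2) * this
    · ring
  have h2 : ∀ u : ℕ → ℝ, x ⬝ᵥ (fun a => c (a.1 * κ) * u a.2) =
      (∑ i, c (i * κ) * c (i * κ)) * ∑ j ∈ range n, w j * u j := fun u => by
    rw [dotProduct, Fintype.sum_prod_type, Finset.sum_range, Finset.sum_mul_sum]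
    exact Finset.sum_congr rfl fun _ _ => Finset.sum_congr rfl fun _ _ => by rw [hx]; ring
  have h3 : 0 < ∑ i, c (i * κ) * c (i * κ) := Finset.sum_pos' (fun _ _ => mul_self_nonneg _)
    ⟨0, mem_univ _, by rw [zero_mul, hc.zero]; norm_num⟩
  have h4 : x ⬝ᵥ x = _ := h2 w
  have h5 : 0 < x ⬝ᵥ x := h4 ▸ mul_pos h3 hw
  have h6 := gap_le (θ • QM m n) Q_symm _ (Q_nonneg hθ) Q_row (card_Q hn) x (by
      rw [Fintype.sum_prod_type]
      simp only [hx, ← Finset.mul_sum, ← Finset.sum_mul]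
      rw [hc.sum (· * κ) (fun _ _ => add_mul _ _ _) 1 (by simpa), zero_mul]) h5
    (2 * θ * n - (x ⬝ᵥ (θ • QM m n) *ᵥ x) / (x ⬝ᵥ x)) (sub_nonneg.2 ((div_le_iff₀ h5).2
      (S7.rayleigh_le _ Q_symm _ (Q_nonneg hθ) Q_row x)))
    (by rw [sub_sub_cancel, div_mul_cancel₀ _ h5.ne'])
  rw [le_sub_comm, div_le_iff₀ h5, h1, h2 fun j => 2 * θ * M1 n (c κ) w j, h4, mul_left_comm] at h6
  refine le_of_eq_of_le ?_ (le_of_mul_le_mul_left h6 h3)
  rw [Finset.mul_sum]
  exact Finset.sum_congr rfl fun _ _ => by ring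

theorem ray_eig (hc : Cos c) (hθ : 0 < θ) (hn : 2 ≤ n) {κ : ZMod m} (hκ : κ ≠ 0) {l : ℝ}
    (hl : 2 * θ * n - gap (θ • QM m n) < 2 * θ * l) (w : ℕ → ℝ) (hw : Eig n (c κ) l w) :
    ∀ j < n, w j = 0 := by
  intro j hj
  by_contra e
  have h1 : 0 < ∑ j ∈ range n, w j * w j := Finset.sum_pos' (fun _ _ => mul_self_nonneg _)
    ⟨j, mem_range.2 hj, mul_self_pos.2 e⟩
  have h2 := ray hc hθ hn hκ w h1
  rw [Finset.sum_congr rfl (g := fun j => l * (w j * w j)) fun j hj => by
    rw [← hw j (mem_range.1 hj), mul_left_comm], ← Finset.mul_sum, ← mul_assoc] at h2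
  exact absurd (le_of_mul_le_mul_right h2 h1) (not_le.2 hl)

theorem ray_two (hc : Cos c) (hθ : 0 < θ) (hn : 0 < n) {κ : ZMod m} (hκ : κ ≠ 0) {l : ℝ}
    (hl : 2 * θ * (n + 1 : ℕ) - gap (θ • QM m (n + 1)) < 2 * θ * l) (a : ℝ) :
    c κ * a * (a + 2) < (l - n) * (a ^ 2 + 1) + n * a ^ 2 := by
  have e : ∀ F : ℕ → ℝ, ∑ j ∈ range (n + 1), (a * dlt 0 j + dlt n j) * F j = a * F 0 + F n :=
    fun F => by simp [dlt, add_mul, Finset.sum_add_distrib]
  have e1 := e fun _ => 1
  have e2 : dlt 0 0 = 1 ∧ dlt n n = 1 ∧ dlt 0 n = 0 ∧ dlt n 0 = 0 :=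
    ⟨if_pos rfl, if_pos rfl, if_neg hn.ne', if_neg hn.ne⟩
  have h := ray (n := n + 1) hc hθ (Nat.succ_le_succ hn) hκ fun j => a * dlt 0 j + dlt n j
  simp only [mul_one] at e1
  rw [e, e, M1_eq (zero_add _), M1_eq (j := n) (e := 1) rfl, e1, Finset.sum_range_one] at h
  simp only [e2] at h
  have h1 : 0 < a * (a * 1 + 0) + (a * 0 + 1) := by nlinarith [sq_nonneg a]
  have h2 := (h h1).trans_lt (mul_lt_mul_of_pos_right hl h1)
  rw [mul_assoc _ l] at h2
  have h3 := lt_of_mul_lt_mul_left h2 (by positivity)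
  push_cast at h3
  linarith

/-- The positions of the letters. -/
def pos (ψ : Equiv.Perm (Fin n)) (a : Fin n) : ℕ := (ψ⁻¹ a).val

theorem pos_inj : Function.Injective (pos (n := n)) := fun _ _ h =>
  inv_injective (Equiv.ext fun a => Fin.ext (congrFun h a))

theorem St_eq : St n n univ = univ.image (pos (n := n)) := by
  ext p
  simp only [mem_St, mem_univ, mem_image, true_and, true_imp_iff, not_true, false_imp_iff,
    implies_true]
  constructor
  · rintro ⟨h1, h2⟩
    have h : Function.Injective fun a => (⟨p a, h1 a⟩ : Fin n) := fun a b e =>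
      h2 a b (congrArg Fin.val e)
    exact ⟨(Equiv.ofBijective _ h.bijective_of_finite)⁻¹, rfl⟩
  · rintro ⟨ψ, rfl⟩
    exact ⟨fun a => Fin.is_lt _, fun a b e => ψ⁻¹.injective (Fin.ext e)⟩

theorem Sc.ge (h : Sc m n θ) (hc : Cos c) (hn : 2 ≤ n)
    (top : ∀ (l : ℝ) (ch : Fin n → ZMod m) (g : (Fin n → ℕ) → ℝ),
      2 * θ * n - gap (θ • QM m n) < 2 * θ * l →
      (∀ p ∈ St n n univ, Op n (fun p k => c (pc ch p k)) g p = l * g p) →
      ((∀ a, ch a = 0) → ∑ p ∈ St n n univ, g p = 0) → ∀ p ∈ St n n univ, g p = 0) (hθ : 0 < θ) :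
    gap (θ • QM m n) ≤ gap (adjMat m n) := by
  by_contra hh
  refine lt_irrefl _ (lt_gap (adjMat m n) (adjMat_symm m n) _ h.row (card_A hn) _
    fun f l hf0 hs hf => ?_)
  by_contra hl
  let F : (Fin n → ZMod m) → ZMod m → Equiv.Perm (Fin n) → ℝ := fun ch z ψ =>
    ∑ χ : Fin n → ZMod m, c (z + ∑ a, ch a * χ a) * f (χ ∘ ψ, ψ)
  have h1 : ∀ ch z ψ, F ch z ψ = 0 := fun ch z ψ => by
    have e := pos_inj.extend_apply (F ch z) (fun _ => 0)
    rw [← e]
    refine top (l / (2 * θ)) ch _ (by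
      rw [mul_div_cancel₀ _ (by positivity)]; linarith [not_le.1 hh, not_lt.1 hl])
      (fun p hp => ?_) (fun h0 => ?_) _ (St_eq ▸ mem_image_of_mem _ (mem_univ _))
    · obtain ⟨ψ, -, rfl⟩ := mem_image.1 (St_eq ▸ hp)
      let ρ : Fin n → Equiv.Perm (Fin n) := fun k => ψ * (revPos_involutive (k.val + 1)).toPerm
      have a1 : ∀ k : Fin n, mo k (pos ψ) = pos (ρ k) :=
        fun k => funext fun a => (S7.rev_val k (ψ⁻¹ a)).symm
      have a2 : ∀ χ : Fin n → ZMod m, l * f (χ ∘ ψ, ψ) =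
          θ * ∑ p : Fin n × Bool, f (mov p (χ ∘ ψ, ψ)) := fun χ => by
        rw [← h]; exact (congrFun hf _).symm
      have a3 : ∀ (k : Fin n) (b : Bool), ∑ χ : Fin n → ZMod m, c (z + ∑ a, ch a * χ a) *
          f (mov (k, b) (χ ∘ ψ, ψ)) = ∑ χ : Fin n → ZMod m,
          c (z + ∑ a, ch a * χ a - pc ch (pos ψ) k * sg m b) * f (χ ∘ ρ k, ρ k) := fun k b => by
        refine Fintype.sum_equiv (Equiv.addRight fun a => if pos ψ a ≤ k then sg m b else 0) _ _
          fun χ => ?_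
        congr 2
        · simp only [Equiv.coe_addRight, Pi.add_apply, mul_add, Finset.sum_add_distrib, pc,
            Finset.sum_mul, mul_ite, ite_mul, mul_zero, zero_mul]
          ring
        · refine Prod.ext (funext fun t => ?_) rfl
          change (if t.val < k.val + 1 then χ (ψ (revPos (k.val + 1) t)) + sg m b else χ (ψ t)) =
            χ (ψ (revPos (k.val + 1) t)) +
              if (ψ.symm (ψ (revPos (k.val + 1) t))).val ≤ k.val then sg m b else 0
          simp only [Equiv.symm_apply_apply, ← Nat.lt_succ_iff, revPos_lt]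
          split_ifs with e
          · rfl
          · rw [revPos_of_not_lt _ _ e, add_zero]
      rw [Op, Finset.sum_range, div_mul_eq_mul_div, eq_div_iff (by positivity)]
      simp only [a1, e, F, Finset.mul_sum, mul_left_comm l, a2, mul_left_comm _ θ,
        Fintype.sum_prod_type, Finset.sum_mul]
      rw [Finset.sum_comm (s := (univ : Finset (Fin n → ZMod m)))]
      refine Finset.sum_congr rfl fun k _ => ?_
      rw [Finset.sum_comm]
      simp only [← Finset.mul_sum, a3, Fintype.sum_bool, sg, if_true, Bool.false_eq_true, if_false,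
        ← Finset.sum_add_distrib]
      rw [Finset.mul_sum]
      refine Finset.sum_congr rfl fun χ _ => ?_
      rw [mul_one, mul_neg_one, sub_neg_eq_add]
      linear_combination (-θ * f (χ ∘ ρ k, ρ k)) * hc.add (z + ∑ a, ch a * χ a) (pc ch (pos ψ) k)
    · rw [St_eq, Finset.sum_image pos_inj.injOn]
      simp only [e]
      simp only [F, h0, zero_mul, Finset.sum_const_zero, ← Finset.mul_sum]
      rw [Fintype.sum_prod_type_right] at hs
      rw [Finset.sum_congr rfl fun ψ _ => Fintype.sum_equiv (Equiv.arrowCongr' ψ⁻¹ (Equiv.refl _))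
        (fun χ => f (χ ∘ ψ, ψ)) (fun χ => f (χ, ψ)) fun _ => rfl, hs, mul_zero]
  refine hf0 (funext fun u => ?_)
  have h2 := Finset.sum_eq_zero fun ch (_ : ch ∈ univ) => h1 ch (-∑ a, ch a * u.1 (u.2⁻¹ a)) u.2
  rw [Finset.sum_comm, Finset.sum_eq_single (fun a => u.1 (u.2⁻¹ a)) (fun χ _ e => ?_) (by simp)] at h2
  · simp only [neg_add_cancel, hc.zero, one_mul, Finset.sum_const,
      nsmul_eq_mul, mul_eq_zero, Nat.cast_eq_zero, card_univ, Fintype.card_ne_zero, false_or] at h2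
    rw [Pi.zero_apply, ← h2]
    exact congrArg f (Prod.ext (funext fun t => by simp) rfl)
  · obtain ⟨a, ha⟩ := Function.ne_iff.1 e
    rw [← Finset.sum_mul, hc.sum _ (fun x y => ?_) (Pi.single a 1) ?_, zero_mul]
    · simpa [Pi.single_apply, neg_add_eq_sub, sub_eq_zero] using ha
    · simp only [Pi.add_apply, add_mul, Finset.sum_add_distrib]
      ring

end Pool.Agent.P.MP_ad1e8a_co.FC
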