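import Mathlib
import Pool.Agent.P.MP_ad1e8a_co.FC2

/-!
The gluing induction for charges modulo four.
-/

open Finset

namespace Pool.Agent.P.MP_ad1e8a_co.FC

variable {α : Type} [Fintype α] [DecidableEq α] {N n : ℕ} {s : Finset α}
  {W : (α → ℕ) → ℕ → ℝ} {g : (α → ℕ) → ℝ} {l : ℝ}

theorem en_last {W' : (α → ℕ) → ℕ → ℝ} {y : α} {p : α → ℕ} {k : ℕ} (hp : p ∈ St N n s)
    (hk : k < n) (h : W (ins N n y p) k = W' p k) :
    en W g (ins N n y p) k = en W' (fun p => g (ins N n y p)) p k := by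
  rw [en, en, h, mo_ins_last y hp hk]

theorem en_pair {W₁ W₂ : (α → ℕ) → ℕ → ℝ} {x y : α} {p : α → ℕ} {k : ℕ} (hp : p ∈ St N n s)
    (hk : k < n) (hN : n + 1 ≤ N) (h1 : W (ins N (p x) y p) (lift (p x) k) = W₁ p k)
    (h2 : W (ins N (p x + 1) y p) (lift (p x) k) = W₁ p k)
    (h3 : W₂ p k = if p x ≤ k then -W₁ p k else W₁ p k) :
    2 * (en W g (ins N (p x) y p) (lift (p x) k) + en W g (ins N (p x + 1) y p) (lift (p x) k)) =
      en W₁ (fun p => g (ins N (p x + 1) y p) + 1 * g (ins N (p x) y p)) p k +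
      en W₂ (fun p => g (ins N (p x + 1) y p) + -1 * g (ins N (p x) y p)) p k := by
  obtain ⟨e1, e2⟩ := mo_ins y (t := p x) hp hk hN
  simp only [en, h1, h2, h3, e1, e2, show mo k p x = rv k (p x) from rfl]
  split_ifs <;> simp only [add_zero] <;> ring

theorem lev0 (hs : s.card = 0) (hg : ∑ p ∈ St N 0 s, g p = 0) (γ : ℝ) :
    γ * Nm N 0 s g ≤ Phi N 0 s W g := by
  obtain rfl := Finset.card_eq_zero.1 hs
  have h : St N 0 (∅ : Finset α) = {fun _ => N} := Finset.eq_singleton_iff_unique_mem.2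
    ⟨mem_St.2 ⟨by simp, by simp, by simp⟩, fun p hp => funext fun a => (mem_St.1 hp).2.1 a (by simp)⟩
  rw [h, Finset.sum_singleton] at hg
  simp [Nm, Phi, h, hg]

theorem Phi_succ (hs : s.card = n + 1) (hN : n + 1 ≤ N) {W' : α → (α → ℕ) → ℕ → ℝ}
    (h : ∀ y ∈ s, ∀ p ∈ St N n (s.erase y), ∀ k < n, W (ins N n y p) k = W' y p k) :
    Phi N (n + 1) s W g = ∑ y ∈ s, Phi N n (s.erase y) (W' y) (fun p => g (ins N n y p)) +
      ∑ p ∈ St N (n + 1) s, en W g p n := by
  simp only [Phi, Finset.sum_range_succ, Finset.sum_add_distrib]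
  rw [plate hs hN]
  congr 1
  exact Finset.sum_congr rfl fun y hy => Finset.sum_congr rfl fun p hp =>
    Finset.sum_congr rfl fun k hk => en_last hp (mem_range.1 hk) (h y hy p hp k (mem_range.1 hk))

theorem cesi (n : ℕ) : ∀ {s : Finset α} {g : (α → ℕ) → ℝ}, s.card = n → n ≤ N →
    ∑ p ∈ St N n s, g p = 0 → 1 * Nm N n s g ≤ Phi N n s (fun _ _ => 1) g := by
  induction n with
  | zero => exact fun hs _ hg => lev0 hs hg 1
  | succ n ih =>
    intro s g hs hN hg
    refine quad_c hN (fun _ _ => rfl) (c := True) (fun _ _ _ _ _ => rfl)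
      (fun v l hl hv h0 => eig_zero hv ?_ hl) fun _ => hg
    have h1 := en_ge (s := s) (W := fun _ _ => 1) (g := v) (Nat.lt_succ_self n) hN fun _ _ => rfl
    simp only [abs_one, sub_self, zero_mul, Finset.sum_const_zero] at h1
    rw [Phi_succ hs hN (W' := fun _ _ _ => 1) fun _ _ _ _ _ _ => rfl, Nm, plate hs hN,
      Finset.mul_sum]
    refine le_add_of_le_of_nonneg (Finset.sum_le_sum fun y hy => ih
      (by rw [card_erase_of_mem hy, hs, Nat.add_sub_cancel]) (by omega) ?_) h1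
    rw [← marg_last hy hN]
    exact (marg hN (fun _ _ => rfl) hv (c := 1) hy fun _ _ _ _ => (ite_self _).symm).triv
      (by linarith) (Or.inr ((marg_sum hy v).trans (h0 trivial))) n (by omega)

/-- The real part of `i ^ z`. -/
def cw (z : ZMod 4) : ℝ := if z = 0 then 1 else if z = 2 then -1 else 0

theorem cw_add_two (z : ZMod 4) : cw (z + 2) = -cw z := by
  have h : ∀ z : ZMod 4, (z + 2 = 0 ↔ z = 2) ∧ (z + 2 = 2 ↔ z = 0) ∧ ¬(z = 0 ∧ z = 2) := by decide
  obtain ⟨h1, h2, h3⟩ := h z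
  simp only [cw, h1, h2]
  split_ifs <;> simp_all

theorem cw_zero : cw 0 = 1 := if_pos rfl

theorem cw_two : cw 2 = -1 := by rw [← zero_add (2 : ZMod 4), cw_add_two, cw_zero]

/-- The weights of a system of charges. -/
def W4 (ch : α → ZMod 4) (p : α → ℕ) (k : ℕ) : ℝ := cw (pc ch p k)

omit [DecidableEq α] in
theorem W4_mo (ch : α → ZMod 4) (p : α → ℕ) (k : ℕ) : W4 ch (mo k p) k = W4 ch p k :=
  congrArg cw (pc_mo ch p k)

theorem pc_last {G : Type} [AddCommMonoid G] (ch : α → G) {y : α} {p : α → ℕ} {k : ℕ}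
    (hp : p ∈ St N n (s.erase y)) (hk : k < n) (hN : n ≤ N) :
    pc ch (ins N n y p) k = pc ch p k := by
  rw [pc_ins ch hp hk hN (fun t ht => by rw [if_neg (by omega)]) (by omega), if_neg (by omega),
    add_zero]

theorem pc_pair {G : Type} [AddCommMonoid G] (ch : α → G) {y : α} {p : α → ℕ} {k t : ℕ}
    (hp : p ∈ St N n (s.erase y)) (hk : k < n) (hN : n + 1 ≤ N) :
    pc ch (ins N t y p) (lift t k) = pc ch p k + (if t ≤ k then ch y else 0) ∧
    pc ch (ins N (t + 1) y p) (lift t k) = pc ch p k + if t ≤ k then ch y else 0 := by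
  have h : lift t k < N := by rw [lift]; split_ifs <;> omega
  constructor <;> rw [pc_ins ch hp hk (by omega) (fun r _ => by rw [lift]; grind) h] <;>
    exact congrArg _ (if_congr (by rw [lift]; grind) rfl rfl)

theorem glue_bound (hs : s.card = n + 1) (hN : n + 1 ≤ N) {ch : α → ZMod 4} {γ : ℝ}
    (h1 : ∀ y ∈ s, γ * Nm N n (s.erase y) (fun p => g (ins N n y p)) ≤
      Phi N n (s.erase y) (W4 ch) fun p => g (ins N n y p))
    (h2 : ∀ y ∈ s, ∀ x ∈ s.erase y, ∀ z σ, z = 0 ∧ σ = 1 ∨ z = 2 ∧ σ = -1 →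
      γ * Nm N n (s.erase y) (fun p => g (ins N (p x + 1) y p) + σ * g (ins N (p x) y p)) ≤
      Phi N n (s.erase y) (W4 (Function.update ch x (ch x + (ch y + z))))
        fun p => g (ins N (p x + 1) y p) + σ * g (ins N (p x) y p)) :
    (n + 1) * γ * Nm N (n + 1) s g ≤ n * Phi N (n + 1) s (W4 ch) g := by
  have h := glue hs hN fun p j =>
    ∑ k ∈ range (n + 1), en (W4 ch) g p k - en (W4 ch) g p j - γ * g p ^ 2
  have e : ∑ p ∈ St N (n + 1) s, ∑ j ∈ range (n + 1), (∑ k ∈ range (n + 1), en (W4 ch) g p k -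
      en (W4 ch) g p j - γ * g p ^ 2) =
      n * Phi N (n + 1) s (W4 ch) g - (n + 1) * γ * Nm N (n + 1) s g := by
    rw [Phi, Nm, Finset.mul_sum, Finset.mul_sum, ← Finset.sum_sub_distrib]
    refine Finset.sum_congr rfl fun p _ => ?_
    simp only [Finset.sum_sub_distrib, Finset.sum_const, card_range, nsmul_eq_mul]
    push_cast
    ring
  rw [e] at h
  refine sub_nonneg.1 (nonneg_of_mul_nonneg_right (h.ge.trans' ?_) two_pos)
  refine Finset.sum_nonneg fun y hy => add_nonneg (mul_nonneg two_pos.le ?_)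
    (Finset.sum_nonneg fun x hx => ?_)
  · refine (sub_nonneg.2 (h1 y hy)).trans_eq ?_
    rw [Phi, Nm, Finset.mul_sum, ← Finset.sum_sub_distrib]
    refine Finset.sum_congr rfl fun p hp => ?_
    rw [Finset.sum_range_succ, add_sub_cancel_right]
    exact congrArg (· - _) (Finset.sum_congr rfl fun k hk => (en_last hp (mem_range.1 hk)
      (congrArg cw (pc_last ch hp (mem_range.1 hk) (by omega)))).symm)
  · refine nonneg_of_mul_nonneg_right ((add_nonneg (sub_nonneg.2 (h2 y hy x hx 0 1 (by simp)))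
      (sub_nonneg.2 (h2 y hy x hx 2 (-1) (by simp)))).trans_eq ?_) two_pos
    simp only [Phi, Nm, Finset.mul_sum, ← Finset.sum_sub_distrib, ← Finset.sum_add_distrib]
    refine Finset.sum_congr rfl fun p hp => ?_
    have ht := ((mem_St.1 hp).1 x hx).le
    have h3 := Finset.sum_congr rfl fun k (hk : k ∈ range n) => en_pair (W := W4 ch) (g := g)
      (W₁ := W4 (Function.update ch x (ch x + (ch y + 0))))
      (W₂ := W4 (Function.update ch x (ch x + (ch y + 2)))) (x := x) (y := y) hp (mem_range.1 hk) hN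
      (by rw [W4, W4, pc_update, (pc_pair ch hp (mem_range.1 hk) hN).1, add_zero])
      (by rw [W4, W4, pc_update, (pc_pair ch hp (mem_range.1 hk) hN).2, add_zero])
      (by
        rw [W4, W4, pc_update, pc_update]
        split_ifs
        · rw [← add_assoc, cw_add_two, add_zero]
        · rfl)
    rw [← Finset.mul_sum, Finset.sum_add_distrib, Finset.sum_add_distrib] at h3
    rw [sum_lift ht, sum_lift ht]
    linarith

theorem step4 (hs : s.card = n + 1) (hN : n + 1 ≤ N) {γ : ℝ}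
    (ih : ∀ (s : Finset α) (ch : α → ZMod 4) (g : (α → ℕ) → ℝ), s.card = n →
      ((∀ a ∈ s, ch a = 0) → ∑ p ∈ St N n s, g p = 0) → γ * Nm N n s g ≤ Phi N n s (W4 ch) g)
    (l1 : (n : ℝ) < l) (l2 : ∀ w, Eig (n + 1) (-1) l w → ∀ j < n + 1, w j = 0)
    (l3 : n * (n + 1 - l) < (n + 1) * γ) {ch : α → ZMod 4}
    (he : ∀ p ∈ St N (n + 1) s, Op (n + 1) (W4 ch) g p = l * g p)
    (h0 : (∀ a ∈ s, ch a = 0) → ∑ p ∈ St N (n + 1) s, g p = 0) : ∀ p ∈ St N (n + 1) s, g p = 0 := by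
  have hc : ∀ y ∈ s, (s.erase y).card = n := fun y hy => by
    rw [card_erase_of_mem hy, hs, Nat.add_sub_cancel]
  have l1' : ((n + 1 : ℕ) : ℝ) - 1 < l := by push_cast; linarith
  have hb := glue_bound hs hN (g := g) (ch := ch) (γ := γ) (fun y hy => ih _ _ _ (hc y hy) fun h => ?_)
    fun y hy x hx z σ hz => ih _ _ _ (hc y hy) fun h => ?_
  · have h1 : ∑ p ∈ St N (n + 1) s, g p * Op (n + 1) (W4 ch) g p = l * Nm N (n + 1) s g := by
      rw [Nm, Finset.mul_sum]
      exact Finset.sum_congr rfl fun p hp => by rw [he p hp]; ring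
    rw [Phi_eq, h1] at hb
    push_cast at hb
    have h2 : 0 ≤ Nm N (n + 1) s g := Finset.sum_nonneg fun _ _ => sq_nonneg _
    have h3 : Nm N (n + 1) s g = 0 := by nlinarith
    exact fun p hp => pow_eq_zero_iff two_ne_zero |>.1
      ((Finset.sum_eq_zero_iff_of_nonneg fun _ _ => sq_nonneg _).1 h3 p hp)
  · have h1 := marg hN (W4_mo ch) he (c := cw (ch y)) hy fun p hp k hk => by
      rw [W4, pc_one ch hp (by omega) h]
      split_ifs
      · rfl
      · exact cw_zero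
    rw [← marg_last hy hN]
    by_cases e : ch y = 2
    · rw [e, cw_two] at h1
      exact l2 _ h1 n (by omega)
    · refine h1.triv l1' ?_ n (by omega)
      by_cases e' : ch y = 0
      · exact Or.inr ((marg_sum hy g).trans (h0 fun a ha =>
          if k : a = y then k ▸ e' else h a (mem_erase.2 ⟨k, ha⟩)))
      · exact Or.inl (by rw [cw, if_neg e', if_neg e])
  · obtain ⟨hxy, hxs⟩ := mem_erase.1 hx
    have h1 : ch x + (ch y + z) = 0 := by simpa using h x hx
    have h2 : ∀ a ∈ s, a ≠ x → a ≠ y → ch a = 0 := fun a ha e e' => by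
      simpa [Function.update_of_ne e] using h a (mem_erase.2 ⟨e', ha⟩)
    have h3 : ∀ p ∈ St N (n + 1) s, ∀ k < n + 1, W4 ch p k =
        cw ((if p x ≤ k then ch x else 0) + if p y ≤ k then ch y else 0) := fun p hp k hk => by
      rw [W4, pc_two ch hp (by omega) hxy h2]
    rw [← adj_sum hy hx hN]
    have key : ∀ a b z : ZMod 4, a + (b + z) = 0 → (z = 0 ∨ z = 2) →
        (a = 0 ∧ b = 0 ∧ z = 0) ∨ (a = 2 ∧ b = 0 ∧ z = 2) ∨ (a = 0 ∧ b = 2 ∧ z = 2) ∨
        (a ≠ 0 ∧ (a = 2 ↔ b = 2) ∧ b ≠ 0 ∧ a + b = z) := by decide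
    have hσ : σ = cw z := by rcases hz with ⟨rfl, rfl⟩ | ⟨rfl, rfl⟩ <;> simp [cw_zero, cw_two]
    have hσ2 : σ * σ = 1 := by rcases hz with ⟨-, rfl⟩ | ⟨-, rfl⟩ <;> norm_num
    rcases key _ _ _ h1 (hz.imp And.left And.left) with ⟨a1, a2, a3⟩ | ⟨a1, a2, a3⟩ | ⟨a1, a2, a3⟩ |
      ⟨a1, a2, a3, a4⟩
    · rw [a3, cw_zero] at hσ
      refine adj_zero hN (W4_mo ch) he l1' (c := 1) hσ2 hxs hy hxy (fun p hp k hk => ?_)
        (Or.inr ⟨hσ, h0 fun a ha => if k : a = x then k ▸ a1 else if k' : a = y then k' ▸ a2 else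
          h2 a ha k k'⟩)
      simp [h3 p hp k hk, a1, a2, hσ, cw_zero]
    · rw [hσ, a3, cw_two]
      refine J_zero hN (W4_mo ch) he l2 hxs hy hxy fun p hp k hk => ?_
      rw [h3 p hp k hk, a1, a2]
      split_ifs <;> simp [cw_zero, cw_two]
    · rw [hσ, a3, cw_two, ← neg_eq_zero, ← Finset.sum_neg_distrib]
      refine Eq.trans (Finset.sum_congr rfl fun p hp => ?_)
        (J_zero hN (W4_mo ch) he l2 hy hxs hxy.symm fun p hp k hk => ?_)
      · have : p x ≠ p y := fun e => hxy ((mem_St.1 hp).2.2 x hxs y hy e)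
        rw [← neg_mul]
        congr 1
        simp only [SY, adj]
        grind
      · rw [h3 p hp k hk, a1, a2]
        split_ifs <;> simp [cw_zero, cw_two]
    · have a5 : cw (ch y) = cw (ch x) := by simp only [cw, a1, a2, a3, if_false]
      refine adj_zero hN (W4_mo ch) he l1' (c := cw (ch x)) hσ2 hxs hy hxy (fun p hp k hk => ?_)
        (Or.inl ?_)
      · rw [h3 p hp k hk]
        split_ifs <;> simp [a4, a5, hσ, cw_zero]
      · rw [cw, if_neg a1]
        split_ifs <;> norm_num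

theorem all4 (n : ℕ) : n ≤ N → ∀ γ : ℝ, n = 0 ∨ γ ≤ n / (n + 2) →
    ∀ (s : Finset α) (ch : α → ZMod 4) (g : (α → ℕ) → ℝ), s.card = n →
      ((∀ a ∈ s, ch a = 0) → ∑ p ∈ St N n s, g p = 0) → γ * Nm N n s g ≤ Phi N n s (W4 ch) g := by
  induction n with
  | zero =>
    exact fun _ γ _ s ch g hs hg => lev0 hs (hg (by simp [Finset.card_eq_zero.1 hs])) γ
  | succ n ih =>
    intro hN γ hγ s ch g hs hg
    have h1 : γ ≤ (n + 1) / (n + 3) := by
      have := hγ.resolve_left (Nat.succ_ne_zero n)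
      push_cast at this
      rwa [add_assoc, show (1 : ℝ) + 2 = 3 by norm_num] at this
    have h3 : (0 : ℝ) < n + 3 := by positivity
    refine quad_c hN (W4_mo ch) (c := ∀ a ∈ s, ch a = 0)
      (fun h p hp k hk => by rw [W4, pc_zero ch hp (by omega) h, cw_zero]) (fun v l hl hv h0 => ?_) hg
    push_cast at hl
    have h2 := hl.trans_le h1
    have h4 := (lt_div_iff₀ h3).1 h2
    rcases Nat.eq_zero_or_pos n with rfl | hn
    · exact step4 hs hN (ih (by omega) 1 (Or.inl rfl)) (by nlinarith) (fun w hw => hw.neg h2)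
        (by simp) hv h0
    · refine step4 hs hN (ih (by omega) _ (Or.inr le_rfl)) (by nlinarith) (fun w hw => hw.neg h2)
        ?_ hv h0
      have h5 : (0 : ℝ) < n := by exact_mod_cast hn
      rw [← mul_div_assoc, lt_div_iff₀ (by positivity)]
      have h6 : (n + 1 - l) * (n + 2) < n + 1 := by
        rcases le_or_gt 0 (n + 1 - l) with e | e <;> nlinarith
      nlinarith

theorem top4 (hs : s.card = n + 1) (hN : n + 1 ≤ N) (hn : 0 < n) (l1 : n + 1 / (n + 2) < l)
    (l2 : ∀ w, Eig (n + 1) (-1) l w → ∀ j < n + 1, w j = 0) {ch : α → ZMod 4}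
    (he : ∀ p ∈ St N (n + 1) s, Op (n + 1) (W4 ch) g p = l * g p)
    (h0 : (∀ a ∈ s, ch a = 0) → ∑ p ∈ St N (n + 1) s, g p = 0) : ∀ p ∈ St N (n + 1) s, g p = 0 := by
  have h5 : (0 : ℝ) < n := by exact_mod_cast hn
  have h2 : (0 : ℝ) < n + 2 := by positivity
  refine step4 hs hN (all4 n (by omega) _ (Or.inr le_rfl))
    (lt_trans (lt_add_of_pos_right _ (by positivity)) l1) l2 ?_ he h0
  have h3 := (div_lt_iff₀ h2).1 (show 1 / ((n : ℝ) + 2) < l - n by linarith)
  rw [← mul_div_assoc, lt_div_iff₀ h2]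
  nlinarith

end Pool.Agent.P.MP_ad1e8a_co.FC
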