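import Mathlib
import Pool.Agent.P.MP_ad1e8a_co.FC3

/-!
Charges modulo three.
-/

open Finset

namespace Pool.Agent.P.MP_ad1e8a_co.FC

theorem sw (L : ℕ) (F : ℕ → ℕ → ℝ) :
    ∑ j ∈ range L, ∑ r ∈ range (L - j), F j r = ∑ j ∈ range L, ∑ r ∈ range (L - j), F r j :=
  Finset.sum_comm' fun j r => by simp only [mem_range]; omega

theorem quadP (L : ℕ) (x : ℕ → ℝ) {σ : ℝ} (hσ : σ * σ = 1) :
    -σ * ∑ j ∈ range L, x j * ∑ r ∈ range (L - j), x r ≤ ∑ j ∈ range L, (((L : ℝ) - j) * x j ^ 2 -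
      if j = 0 then (1 + σ) ^ 2 / 2 * x 0 ^ 2 else (x j + σ * x 0) ^ 2) := by
  have h1 : ∑ j ∈ range L, ∑ r ∈ range (L - j), x j ^ 2 = ∑ j ∈ range L, ((L : ℝ) - j) * x j ^ 2 :=
    Finset.sum_congr rfl fun j hj => by
      rw [Finset.sum_const, card_range, nsmul_eq_mul, Nat.cast_sub (mem_range.1 hj).le]
  have h2 : ∑ j ∈ range L, ∑ r ∈ range (L - j), (x j + σ * x r) ^ 2 =
      2 * ∑ j ∈ range L, ((L : ℝ) - j) * x j ^ 2 +
        2 * σ * ∑ j ∈ range L, x j * ∑ r ∈ range (L - j), x r := by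
    have e : ∀ a b : ℝ, (a + σ * b) ^ 2 = a ^ 2 + b ^ 2 + 2 * σ * (a * b) := fun a b => by
      linear_combination b ^ 2 * hσ
    simp only [e, Finset.sum_add_distrib, ← Finset.mul_sum]
    rw [← sw L fun j _ => x j ^ 2, h1]
    ring
  cases L with
  | zero => simp
  | succ L =>
    have h3 : ∑ j ∈ range L, (x (j + 1) + σ * x 0) ^ 2 ≤
        ∑ j ∈ range L, ∑ r ∈ range (L + 1 - (j + 1)), (x (j + 1) + σ * x r) ^ 2 :=
      Finset.sum_le_sum fun j hj => Finset.single_le_sum (f := fun r => (x (j + 1) + σ * x r) ^ 2)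
        (fun _ _ => sq_nonneg _) (mem_range.2 (by have := mem_range.1 hj; omega))
    have h4 : ∑ r ∈ range L, (x 0 + σ * x (r + 1)) ^ 2 = ∑ j ∈ range L, (x (j + 1) + σ * x 0) ^ 2 :=
      Finset.sum_congr rfl fun j _ => by linear_combination (x (j + 1) ^ 2 - x 0 ^ 2) * hσ
    rw [Finset.sum_range_succ', Nat.sub_zero, Finset.sum_range_succ' _ L, h4] at h2
    rw [Finset.sum_sub_distrib, Finset.sum_range_succ' (fun j => if j = 0 then _ else _)]
    simp only [Nat.succ_ne_zero, if_true, if_false]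
    linarith

theorem rediag (n : ℕ) (F : ℕ → ℕ → ℝ) : ∑ q ∈ range n, ∑ p ∈ range q, F p q =
    ∑ d ∈ range n, ∑ p ∈ range (n - (d + 1)), F p (p + (d + 1)) := by
  rw [Finset.sum_sigma', Finset.sum_sigma']
  refine Finset.sum_nbij' (fun x => ⟨x.1 - x.2 - 1, x.2⟩) (fun x => ⟨x.2 + (x.1 + 1), x.2⟩)
    ?_ ?_ ?_ ?_ ?_ <;> rintro ⟨a, b⟩ h <;>
    simp only [mem_sigma, mem_range, Sigma.mk.injEq, heq_eq_eq, and_true] at h ⊢
  · omega
  · omega
  · omega
  · omega
  · congr 1; omega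

theorem half_sq (b : ℕ → ℝ) (n : ℕ) : ∑ q ∈ range (n + 1), ∑ p ∈ range q,
    (if p = 0 then b q ^ 2 / 2 else b q * b (q - p)) = (∑ i ∈ range n, b (i + 1)) ^ 2 / 2 := by
  induction n with
  | zero => simp
  | succ n ih =>
    rw [Finset.sum_range_succ, ih, Finset.sum_range_succ', Finset.sum_range_succ]
    simp only [Nat.succ_ne_zero, if_true, if_false]
    have e : ∑ j ∈ range n, b (n + 1 - (j + 1)) = ∑ i ∈ range n, b (i + 1) := by
      rw [← Finset.sum_range_reflect (fun i => b (i + 1)) n]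
      refine Finset.sum_congr rfl fun j hj => congrArg b ?_
      have := mem_range.1 hj
      omega
    rw [← Finset.mul_sum, e]
    ring

theorem sos (n : ℕ) (M : ℕ → ℕ → ℝ) :
    ∑ q ∈ range (n + 1), ∑ p ∈ range q, T2 (n + 1) (-1 / 2) M p q * M p q ≤
      n * ∑ q ∈ range (n + 1), ∑ p ∈ range q, M p q * M p q := by
  have h1 : -∑ q ∈ range (n + 1), ∑ p ∈ range q, M p q * ∑ i ∈ range (q - p), M i q ≤
      ∑ q ∈ range (n + 1), ∑ p ∈ range q, (((q : ℝ) - p) * M p q ^ 2 -
        if p = 0 then (1 + 1) ^ 2 / 2 * M 0 q ^ 2 else (M p q + 1 * M 0 q) ^ 2) := by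
    rw [← Finset.sum_neg_distrib]
    exact Finset.sum_le_sum fun q _ => by simpa using quadP q (fun p => M p q) (one_mul 1)
  have h2 : ∑ q ∈ range (n + 1), ∑ p ∈ range q, M p q * ∑ i ∈ range (n + 1 - q), M i (i + (q - p)) ≤
      ∑ q ∈ range (n + 1), ∑ p ∈ range q, (((n : ℝ) + 1 - q) * M p q ^ 2 -
        if p = 0 then 0 else (M p q - M 0 (q - p)) ^ 2) := by
    rw [rediag, rediag]
    refine Finset.sum_le_sum fun d hd => ?_
    have h := quadP (n + 1 - (d + 1)) (fun p => M p (p + (d + 1))) (σ := -1) (by norm_num)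
    rw [neg_neg, one_mul, Nat.cast_sub (mem_range.1 hd)] at h
    refine (Finset.sum_congr rfl fun p _ => ?_).trans_le
      (h.trans_eq (Finset.sum_congr rfl fun p _ => ?_))
    · rw [Nat.add_sub_cancel_left, show n + 1 - (p + (d + 1)) = n + 1 - (d + 1) - p by omega]
    · rw [Nat.add_sub_cancel_left, Nat.zero_add]
      push_cast
      split_ifs <;> ring
  have h3 : ∑ q ∈ range (n + 1), ∑ p ∈ range q,
      ((if p = 0 then M 0 q ^ 2 / 2 else M 0 q * M 0 (q - p)) + p * (M p q * M p q) +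
      1 / 2 * (((q : ℝ) - p) * M p q ^ 2 -
        if p = 0 then (1 + 1) ^ 2 / 2 * M 0 q ^ 2 else (M p q + 1 * M 0 q) ^ 2) +
      (((n : ℝ) + 1 - q) * M p q ^ 2 - if p = 0 then 0 else (M p q - M 0 (q - p)) ^ 2)) ≤
      ∑ q ∈ range (n + 1), ∑ p ∈ range q, n * (M p q * M p q) :=
    Finset.sum_le_sum fun q _ => Finset.sum_le_sum fun p hp => by
      have h : (p : ℝ) + 1 ≤ q := by exact_mod_cast mem_range.1 hp
      have h' := mul_nonneg (sub_nonneg.2 h) (sq_nonneg (M p q))
      split_ifs with e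
      · subst e
        push_cast at h' ⊢
        nlinarith
      · nlinarith [sq_nonneg (2 * M p q + M 0 q - 2 * M 0 (q - p)), sq_nonneg (M 0 q)]
  have e : ∀ p q, T2 (n + 1) (-1 / 2) M p q * M p q = p * (M p q * M p q) +
      -1 / 2 * (M p q * ∑ i ∈ range (q - p), M i q) +
      M p q * ∑ i ∈ range (n + 1 - q), M i (i + (q - p)) := fun p q => by rw [T2]; ring
  simp only [e, Finset.sum_add_distrib, ← Finset.mul_sum, half_sq (M 0) n] at h3 ⊢
  nlinarith [sq_nonneg (∑ i ∈ range n, M 0 (i + 1))]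

variable {α : Type} [Fintype α] [DecidableEq α] {N n : ℕ} {s : Finset α}
  {W : (α → ℕ) → ℕ → ℝ} {g : (α → ℕ) → ℝ} {l : ℝ}

theorem adj_zero3 (hN : n + 1 ≤ N) (hW : ∀ p k, W (mo k p) k = W p k)
    (he : ∀ p ∈ St N (n + 1) s, Op (n + 1) W g p = l * g p) (hl : (n : ℝ) < l)
    {x y : α} (hx : x ∈ s) (hy : y ∈ s) (hxy : x ≠ y) (h : ∀ p ∈ St N (n + 1) s, ∀ k < n + 1, W p k =
      if p x ≤ k then (if p y ≤ k then 1 else -1 / 2) else if p y ≤ k then -1 / 2 else 1) :
    ∑ p ∈ St N (n + 1) s, SY 1 adj (p x) (p y) * g p = 0 := by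
  set M : ℕ → ℕ → ℝ := fun a b => ∑ p ∈ St N (n + 1) s,
    dlt a (min (p x) (p y)) * dlt b (max (p x) (p y)) * g p with hM
  have ev2 : ∀ G : ℕ → ℕ → ℝ, ∑ p ∈ St N (n + 1) s, SY 1 G (p x) (p y) * g p =
      ∑ b ∈ range (n + 1), ∑ a ∈ range b, G a b * M a b := fun G => by
    simp only [hM, Finset.mul_sum]
    rw [Finset.sum_congr rfl fun b _ => Finset.sum_comm, Finset.sum_comm]
    refine Finset.sum_congr rfl fun p hp => ?_
    obtain ⟨h1, -, h3⟩ := mem_St.1 hp
    have a1 := h1 x hx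
    have a2 := h1 y hy
    have a3 : p x ≠ p y := fun e => hxy (h3 x hx y hy e)
    rw [Finset.sum_eq_single_of_mem (max (p x) (p y)) (mem_range.2 (by omega)) fun b _ hb =>
      Finset.sum_eq_zero fun a _ => by simp [dlt, hb.symm],
      Finset.sum_eq_single_of_mem (min (p x) (p y)) (mem_range.2 (by omega)) fun a _ ha => by
        simp [dlt, ha.symm]]
    simp only [dlt, if_true, one_mul, SY]
    split_ifs with e
    · rw [min_eq_left e.le, max_eq_right e.le]
    · rw [min_eq_right (not_lt.1 e), max_eq_left (not_lt.1 e)]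
  have h1 := test2 hN hW he (one_mul 1) hx hy hxy h (G := M) fun _ _ _ _ => rfl
  rw [ev2, ev2] at h1
  have h2 := sos n M
  have h3 : ∀ b ∈ range (n + 1), 0 ≤ ∑ a ∈ range b, M a b * M a b := fun b _ =>
    Finset.sum_nonneg fun _ _ => mul_self_nonneg _
  have h4 : ∑ b ∈ range (n + 1), ∑ a ∈ range b, M a b * M a b = 0 := by
    nlinarith [Finset.sum_nonneg h3]
  rw [ev2]
  refine Finset.sum_eq_zero fun b hb => Finset.sum_eq_zero fun a ha => ?_
  rw [mul_self_eq_zero.1 ((Finset.sum_eq_zero_iff_of_nonneg fun _ _ => mul_self_nonneg _).1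
    ((Finset.sum_eq_zero_iff_of_nonneg h3).1 h4 b hb) a ha), mul_zero]

theorem Phi_ge (hN : n ≤ N) (hW : ∀ p k, W (mo k p) k = W p k) {γ : ℝ}
    (h : ∀ p ∈ St N n s, γ ≤ ∑ k ∈ range n, (1 - |W p k|)) : γ * Nm N n s g ≤ Phi N n s W g := by
  rw [Phi, Finset.sum_comm, Nm, Finset.mul_sum]
  refine le_trans ?_ (Finset.sum_le_sum fun k hk => en_ge (mem_range.1 hk) hN hW)
  rw [Finset.sum_comm]
  exact Finset.sum_le_sum fun p hp => by
    rw [← Finset.sum_mul]; exact mul_le_mul_of_nonneg_right (h p hp) (sq_nonneg _)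

theorem half_neg (hs : s.card = n) (hN : n ≤ N) {x : α} (hx : x ∈ s) :
    1 / 2 * Nm N n s g ≤ Phi N n s (fun p k => if p x ≤ k then -1 else 1) g := by
  have hn : 0 < n := hs ▸ Finset.card_pos.2 ⟨x, hx⟩
  rcases (Nat.succ_le_of_lt hn).eq_or_lt with rfl | h
  · rw [Phi, Nm, Finset.mul_sum]
    refine Finset.sum_le_sum fun p hp => ?_
    have e : mo 0 p = p := funext fun a => by simp only [mo, rv]; split_ifs <;> omega
    have := (mem_St.1 hp).1 x hx
    rw [Finset.sum_range_one, en, e, if_pos (by omega)]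
    nlinarith [sq_nonneg (g p)]
  · have h2 : (2 : ℝ) ≤ n := by exact_mod_cast h
    refine (all4 n hN (1 / 2) (Or.inr (by rw [div_le_div_iff₀] <;> linarith)) s
      (Pi.single x 2) g hs fun e => absurd (e x hx) (by rw [Pi.single_eq_same]; decide)).trans_eq ?_
    refine Finset.sum_congr rfl fun p hp => Finset.sum_congr rfl fun k hk => ?_
    have := mem_range.1 hk
    rw [en, en, W4, pc_one _ hp (by omega) (x := x) fun a ha => Pi.single_eq_of_ne (mem_erase.1 ha).1 _,
      Pi.single_eq_same]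
    split_ifs <;> simp [cw_zero, cw_two]

theorem pair3 (hs : s.card = n + 1) (hN : n + 1 ≤ N) (hW : ∀ p k, W (mo k p) k = W p k)
    {x y : α} (hx : x ∈ s) (hy : y ∈ s) (hxy : x ≠ y) (h : ∀ p ∈ St N (n + 1) s, ∀ k < n + 1, W p k =
      if p x ≤ k then (if p y ≤ k then 1 else -1 / 2) else if p y ≤ k then -1 / 2 else 1)
    (h0 : ∑ p ∈ St N (n + 1) s, SY 1 adj (p x) (p y) * g p = 0) :
    1 * Nm N (n + 1) s g ≤ Phi N (n + 1) s W g := by
  have hx' : x ∈ s.erase y := mem_erase.2 ⟨hxy, hx⟩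
  have hc : (s.erase y).card = n := by rw [card_erase_of_mem hy, hs, Nat.add_sub_cancel]
  let A : (α → ℕ) → Prop := fun p => p y = p x + 1 ∨ p x = p y + 1
  let I : (α → ℕ) → ℕ → Prop := fun p k => A p ∧ (p x ≤ k ↔ p y ≤ k)
  have h1 := fun k (hk : k ∈ range (n + 1)) => en_ge (s := s) (g := g)
    (W := fun p k => if I p k then 0 else W p k) (mem_range.1 hk) hN fun p k => by
      rw [hW]
      exact if_congr (by simp only [I, A, mo, rv]; grind) rfl rfl
  have h2 := Finset.sum_le_sum h1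
  rw [Finset.sum_comm, Finset.sum_comm (s := range (n + 1))] at h2
  have h3 : ∑ p ∈ St N (n + 1) s, (if A p then ∑ k ∈ range (n + 1), en W g p k -
      en W g p (min (p x) (p y)) - g p ^ 2 / 2 else 0) = ∑ p ∈ St N n (s.erase y),
      (∑ k ∈ range n, (en W g (ins N (p x) y p) (lift (p x) k) +
        en W g (ins N (p x + 1) y p) (lift (p x) k)) -
        (g (ins N (p x) y p) ^ 2 + g (ins N (p x + 1) y p) ^ 2) / 2) := by
    rw [sum_ins hy hN]
    refine Finset.sum_congr rfl fun p hp => ?_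
    have a1 := (mem_St.1 hp).1 x hx'
    have a2 : ∀ i, ins N i y p x = if i ≤ p x then p x + 1 else p x := fun i => by
      simp only [ins, hxy, if_false]; grind
    rw [Finset.sum_eq_add_of_mem (p x) (p x + 1) (mem_range.2 (by omega)) (mem_range.2 (by omega))
      (by omega) fun i _ hi => if_neg (by simp only [A, a2, ins_self]; grind),
      if_pos (by simp [A, a2, ins_self]), if_pos (by simp [A, a2, ins_self]),
      show min (ins N (p x) y p x) (ins N (p x) y p y) = p x by simp [a2, ins_self],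
      show min (ins N (p x + 1) y p x) (ins N (p x + 1) y p y) = p x by simp [a2, ins_self],
      sum_lift a1.le, sum_lift a1.le, Finset.sum_add_distrib]
    ring
  have h4 := cesi n hc (Nat.le_of_succ_le hN) ((adj_sum hy hx' hN 1 g).symm.trans h0)
  have h5 := half_neg (g := fun p => g (ins N (p x + 1) y p) + -1 * g (ins N (p x) y p)) hc
    (Nat.le_of_succ_le hN) hx'
  have h6 : 0 ≤ ∑ p ∈ St N (n + 1) s, (if A p then ∑ k ∈ range (n + 1), en W g p k -
      en W g p (min (p x) (p y)) - g p ^ 2 / 2 else 0) := by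
    have h7 : 0 ≤ Nm N n (s.erase y) fun p => g (ins N (p x + 1) y p) + 1 * g (ins N (p x) y p) :=
      Finset.sum_nonneg fun _ _ => sq_nonneg _
    rw [h3]
    refine nonneg_of_mul_nonneg_right ((add_nonneg (sub_nonneg.2 ((mul_le_mul_of_nonneg_right
      (show (1 / 2 : ℝ) ≤ 1 by norm_num) h7).trans h4)) (sub_nonneg.2 h5)).trans_eq ?_) two_pos
    simp only [Phi, Nm, Finset.mul_sum, ← Finset.sum_sub_distrib, ← Finset.sum_add_distrib]
    refine Finset.sum_congr rfl fun p hp => ?_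
    have a1 := (mem_St.1 hp).1 x hx'
    have a2 : ∀ i, ins N i y p x = if i ≤ p x then p x + 1 else p x := fun i => by
      simp only [ins, hxy, if_false]; grind
    have a3 := Finset.sum_congr rfl fun k (hk : k ∈ range n) => en_pair (W := W) (g := g)
      (W₁ := fun _ _ => 1) (W₂ := fun p k => if p x ≤ k then -1 else 1) (x := x) (y := y) hp
      (mem_range.1 hk) hN
      (by
        have := mem_range.1 hk
        rw [h _ (ins_mem hy hN hp (by omega)) _ (by rw [lift]; grind), a2, ins_self, lift]; grind)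
      (by
        have := mem_range.1 hk
        rw [h _ (ins_mem hy hN hp (by omega)) _ (by rw [lift]; grind), a2, ins_self, lift]; grind)
      rfl
    rw [mul_sub, Finset.mul_sum, a3, Finset.sum_add_distrib]
    ring
  refine le_trans (le_add_of_le_of_nonneg (le_add_of_nonneg_right (sub_nonneg.2 h2)) h6) ?_
  rw [Phi, Nm, Finset.mul_sum, ← Finset.sum_sub_distrib, ← Finset.sum_add_distrib,
    ← Finset.sum_add_distrib]
  refine Finset.sum_le_sum fun p hp => ?_
  obtain ⟨b1, -, b3⟩ := mem_St.1 hp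
  have a1 := b1 x hx
  have a2 := b1 y hy
  have a3 : p x ≠ p y := fun e => hxy (b3 x hx y hy e)
  have a4 : ∀ k, min (p x) (p y) ≤ k → k < max (p x) (p y) → |W p k| = 1 / 2 := fun k e e' => by
    rw [h p hp k (by omega), show (if p x ≤ k then if p y ≤ k then 1 else -1 / 2 else
      if p y ≤ k then -1 / 2 else 1 : ℝ) = -(1 / 2) by split_ifs <;> first | omega | norm_num, abs_neg,
      abs_of_pos (by norm_num)]
  by_cases e : A p
  · rw [if_pos e, ← Finset.sum_sub_distrib, Finset.sum_eq_single_of_mem (min (p x) (p y))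
      (mem_range.2 (by omega)) fun k _ hk => by
        rw [en, if_pos (show I p k from ⟨e, by simp only [A] at e; omega⟩)]
        simp]
    simp only [en]
    rw [if_neg (show ¬I p _ from fun e => by have := e.2; omega), a4 _ le_rfl (by omega)]
    linarith
  · simp only [en, I, e, false_and, if_false, ← Finset.sum_mul]
    have a5 := Finset.add_le_sum (s := range (n + 1)) (f := fun k => 1 - |W p k|)
      (i := min (p x) (p y)) (j := min (p x) (p y) + 1) (fun k hk => by
        rw [h p hp k (mem_range.1 hk)]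
        split_ifs <;> norm_num [abs_div]) (mem_range.2 (by omega)) (mem_range.2 (by omega))
      (by omega)
    rw [a4 _ le_rfl (by omega), a4 _ (by omega) (by simp only [A] at e; omega)] at a5
    nlinarith [sq_nonneg (g p)]

theorem Phi_congr {W' : (α → ℕ) → ℕ → ℝ} (h : ∀ p ∈ St N n s, ∀ k < n, W p k = W' p k) :
    Phi N n s W g = Phi N n s W' g :=
  Finset.sum_congr rfl fun p hp => Finset.sum_congr rfl fun k hk => by
    rw [en, en, h p hp k (mem_range.1 hk)]

theorem pc_step {G : Type} [AddCommMonoid G] (ch : α → G) {p : α → ℕ} (hp : p ∈ St N n s)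
    (hN : n ≤ N) {a : α} (ha : a ∈ s) :
    pc ch p (p a) = ch a + if p a = 0 then 0 else pc ch p (p a - 1) := by
  obtain ⟨h1, h2, h3⟩ := mem_St.1 hp
  have h4 : ∀ b ∈ univ.erase a, p b ≠ p a := fun b hb e => by
    by_cases k : b ∈ s
    · exact (mem_erase.1 hb).1 (h3 b k a ha e)
    · have := h1 a ha
      have := h2 b k
      omega
  rw [pc, ← Finset.add_sum_erase _ _ (mem_univ a), if_pos le_rfl]
  congr 1
  split_ifs with e
  · exact Finset.sum_eq_zero fun b hb => if_neg (by have := h4 b hb; omega)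
  · rw [pc, ← Finset.add_sum_erase _ _ (mem_univ a), if_neg (by omega), zero_add]
    exact Finset.sum_congr rfl fun b hb => if_congr (by have := h4 b hb; omega) rfl rfl

/-- The cosine of `2 π z / 3`. -/
noncomputable def c3 (z : ZMod 3) : ℝ := if z = 0 then 1 else -1 / 2

theorem c3_zero : c3 0 = 1 := if_pos rfl

theorem c3_abs (z : ZMod 3) : 1 - |c3 z| = if z = 0 then 0 else 1 / 2 := by
  unfold c3
  split_ifs <;> norm_num [abs_div]

theorem top3 (hs : s.card = n + 1) (hN : n + 1 ≤ N) (l1 : (n : ℝ) < l)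
    (l2 : ∀ w, Eig (n + 1) (-1 / 2) l w → ∀ j < n + 1, w j = 0) {ch : α → ZMod 3}
    (he : ∀ p ∈ St N (n + 1) s, Op (n + 1) (fun p k => c3 (pc ch p k)) g p = l * g p)
    (h0 : (∀ a ∈ s, ch a = 0) → ∑ p ∈ St N (n + 1) s, g p = 0) : ∀ p ∈ St N (n + 1) s, g p = 0 := by
  have hW : ∀ p k, c3 (pc ch (mo k p) k) = c3 (pc ch p k) := fun p k => by rw [pc_mo]
  have hc : ∀ z, 0 ≤ 1 - |c3 z| := fun z => by rw [c3_abs]; split_ifs <;> norm_num
  refine eig_zero he (γ := 1) ?_ (by push_cast; linarith)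
  by_cases e1 : ∀ a ∈ s, ch a = 0
  · rw [Phi_congr (W' := fun _ _ => 1) fun p hp k hk => by
      rw [pc_zero ch hp (by omega) e1, c3_zero]]
    exact cesi _ hs hN (h0 e1)
  push Not at e1
  obtain ⟨x, hx, cx⟩ := e1
  by_cases e2 : ∀ a ∈ s.erase x, ch a = 0
  · have h1 := en_ge (s := s) (g := g) (W := fun p k => c3 (pc ch p k)) (Nat.lt_succ_self n) hN hW
    rw [Finset.sum_congr rfl (g := fun p => 1 / 2 * g p ^ 2) fun p hp => by
      rw [c3_abs, pc_one ch hp (by omega) e2, if_pos (Nat.le_of_lt_succ ((mem_St.1 hp).1 x hx)),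
        if_neg cx], ← Finset.mul_sum] at h1
    rw [Phi_succ hs hN (W' := fun _ p k => c3 (pc ch p k)) fun y _ p hp k hk => by
      rw [pc_last ch hp hk (by omega)], Nm, ← add_halves (1 : ℝ), add_mul]
    refine add_le_add ?_ h1
    rw [plate hs hN, Finset.mul_sum]
    refine Finset.sum_le_sum fun y hy => ?_
    by_cases e : y = x
    · subst e
      rw [Phi_congr (W' := fun _ _ => 1) fun p hp k hk => by
        rw [pc_zero ch hp (by omega) e2, c3_zero]]
      refine le_trans (mul_le_mul_of_nonneg_right (by norm_num)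
        (Finset.sum_nonneg fun _ _ => sq_nonneg _)) (cesi n
        (by rw [card_erase_of_mem hy, hs, Nat.add_sub_cancel]) (by omega) ?_)
      rw [← marg_last hy hN]
      refine l2 _ (marg hN hW he hy fun p hp k hk => ?_) n (by omega)
      rw [pc_one ch hp (by omega) e2]
      split_ifs
      · exact if_neg cx
      · exact c3_zero
    · refine Phi_ge (by omega) hW fun p hp => ?_
      have a1 := (mem_St.1 hp).1 x (mem_erase.2 ⟨Ne.symm e, hx⟩)
      refine le_of_eq_of_le ?_ (Finset.single_le_sum (fun k _ => hc _) (mem_range.2 a1))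
      rw [c3_abs, pc_one ch hp (x := x) (by omega) fun a ha => e2 a (mem_erase.2
        ⟨(mem_erase.1 ha).1, mem_of_mem_erase (mem_of_mem_erase ha)⟩), if_pos le_rfl, if_neg cx]
  push Not at e2
  obtain ⟨y, hy, cy⟩ := e2
  obtain ⟨hxy, hy⟩ := mem_erase.1 hy
  by_cases H : ∀ p ∈ St N (n + 1) s, ∃ i < n + 1, ∃ j < n + 1, i ≠ j ∧ pc ch p i ≠ 0 ∧ pc ch p j ≠ 0
  · refine Phi_ge hN hW fun p hp => ?_
    obtain ⟨i, hi, j, hj, a1, a2, a3⟩ := H p hp
    refine le_of_eq_of_le ?_ (Finset.add_le_sum (fun k _ => hc _) (mem_range.2 hi) (mem_range.2 hj) a1)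
    rw [c3_abs, c3_abs, if_neg a2, if_neg a3, add_halves]
  push Not at H
  obtain ⟨p, hp, H⟩ := H
  obtain ⟨b1, -, b3⟩ := mem_St.1 hp
  have h1 : ∀ a ∈ s, ch a ≠ 0 → ∃ i < n + 1, pc ch p i ≠ 0 ∧ (p a = i ∨ p a = i + 1) := by
    intro a ha ca
    have a1 := pc_step ch hp hN ha
    have a2 := b1 a ha
    by_cases e : pc ch p (p a) = 0
    · rw [e] at a1
      split_ifs at a1 with e'
      · exact absurd (a1.trans (add_zero _)).symm ca
      · exact ⟨p a - 1, by omega, fun k => ca (by rw [a1, k, add_zero]), by omega⟩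
    · exact ⟨p a, a2, e, Or.inl rfl⟩
  obtain ⟨i, hi, a1, a2⟩ := h1 x hx cx
  have h2 : ∀ a ∈ s, ch a ≠ 0 → p a = i ∨ p a = i + 1 := fun a ha ca => by
    obtain ⟨j, hj, a3, a4⟩ := h1 a ha ca
    rwa [show i = j from by_contra fun e => a3 (H i hi j hj e a1)]
  have a3 := h2 y hy cy
  have a4 : p y ≠ p x := fun e => hxy (b3 y hy x hx e)
  have h3 : ∀ a ∈ s, a ≠ x → a ≠ y → ch a = 0 := fun a ha e e' => by_contra fun ca => by
    have a5 := h2 a ha ca
    have a6 : p a ≠ p x := fun k => e (b3 a ha x hx k)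
    have a7 : p a ≠ p y := fun k => e' (b3 a ha y hy k)
    omega
  have a5 := b1 x hx
  have a6 := b1 y hy
  have h4 := H i hi (i + 1) (by omega) (by omega) a1
  rw [pc_two ch hp (by omega) hxy.symm h3, if_pos (by omega), if_pos (by omega)] at h4
  have h5 : ∀ p ∈ St N (n + 1) s, ∀ k < n + 1, c3 (pc ch p k) =
      if p x ≤ k then (if p y ≤ k then 1 else -1 / 2) else if p y ≤ k then -1 / 2 else 1 :=
    fun p hp k hk => by
      rw [pc_two ch hp (by omega) hxy.symm h3]
      split_ifs <;> simp [c3, h4, cx, cy]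
  exact pair3 hs hN hW hx hy hxy.symm h5 (adj_zero3 hN hW he l1 hx hy hxy.symm h5)

end Pool.Agent.P.MP_ad1e8a_co.FC
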