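import Mathlib
import Pool.Agent.P.MP_ad1e8a_co.FC4

/-!
General tools for the induction on the last position.
-/

open Finset

namespace Pool.Agent.P.MP_ad1e8a_co.FC

variable {α : Type} [Fintype α] [DecidableEq α] {N n : ℕ} {s : Finset α}
  {W : (α → ℕ) → ℕ → ℝ} {g : (α → ℕ) → ℝ} {l : ℝ}

theorem recp (hs : s.card = n + 1) (hN : n + 1 ≤ N) (hW : ∀ p k, W (mo k p) k = W p k)
    (hW' : ∀ y ∈ s, ∀ p ∈ St N n (s.erase y), ∀ k < n, W (ins N n y p) k = W p k)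
    {a τ : (α → ℕ) → ℝ}
    (h1 : ∀ y ∈ s, ∑ p ∈ St N n (s.erase y), a (ins N n y p) * g (ins N n y p) ^ 2 ≤
      Phi N n (s.erase y) W fun p => g (ins N n y p))
    (h2 : ∀ p ∈ St N (n + 1) s, τ p ≤ a p + 1 ∧
      W p n ^ 2 ≤ (a p + 1 - τ p) * (a (mo n p) + 1 - τ (mo n p))) :
    ∑ p ∈ St N (n + 1) s, τ p * g p ^ 2 ≤ Phi N (n + 1) s W g := by
  have h3 := Finset.sum_le_sum h1
  rw [← plate hs hN fun p => a p * g p ^ 2] at h3
  have h4 := sum_mo (s := s) (Nat.lt_succ_self n) hN fun p =>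
    a p * g p ^ 2 + en W g p n - τ p * g p ^ 2
  have h5 : 0 ≤ ∑ p ∈ St N (n + 1) s, (a p * g p ^ 2 + en W g p n - τ p * g p ^ 2 +
      (a (mo n p) * g (mo n p) ^ 2 + en W g (mo n p) n - τ (mo n p) * g (mo n p) ^ 2)) :=
    Finset.sum_nonneg fun p hp => by
      obtain ⟨a1, a2⟩ := h2 p hp
      have a3 := sub_nonneg.2 (h2 _ (mo_mem (Nat.lt_succ_self n) hN hp)).1
      rw [en, en, mo_mo, hW]
      rcases (sub_nonneg.2 a1).eq_or_lt with e | e
      · rw [← e, zero_mul] at a2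
        rw [pow_eq_zero_iff two_ne_zero |>.1 (le_antisymm a2 (sq_nonneg _))]
        nlinarith [mul_nonneg a3 (sq_nonneg (g (mo n p)))]
      · refine nonneg_of_mul_nonneg_right ?_ e
        nlinarith [sq_nonneg ((a p + 1 - τ p) * g p - W p n * g (mo n p)),
          mul_nonneg (sub_nonneg.2 a2) (sq_nonneg (g (mo n p)))]
  rw [Finset.sum_add_distrib, h4, Finset.sum_sub_distrib, Finset.sum_add_distrib] at h5
  rw [Phi_succ hs hN (W' := fun _ => W) hW']
  linarith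

theorem surj {p : α → ℕ} (hs : s.card = n) (hp : p ∈ St N n s) {j : ℕ} (hj : j < n) :
    ∃ a ∈ s, p a = j := by
  by_contra h
  have := sum_pos hs hp (dlt j)
  rw [Finset.sum_eq_zero (s := s) (f := fun a => dlt j (p a)) fun a ha =>
    if_neg fun e => h ⟨a, ha, e⟩] at this
  simp [dlt, hj] at this

theorem rec2 (hs : s.card = n + 1) (hN : n + 1 ≤ N) (hn : 0 < n)
    (hW : ∀ p k, W (mo k p) k = W p k)
    (hW' : ∀ y ∈ s, ∀ p ∈ St N n (s.erase y), ∀ k < n, W (ins N n y p) k = W p k) {A : α → ℝ}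
    (h1 : ∀ y ∈ s, 0 ≤ A y ∧ A y * Nm N n (s.erase y) (fun p => g (ins N n y p)) ≤
      Phi N n (s.erase y) W fun p => g (ins N n y p))
    (h2 : ∀ p ∈ St N (n + 1) s, ∀ y ∈ s, ∀ z ∈ s, y ≠ z → W p n ^ 2 ≤ A y * A z) :
    1 * Nm N (n + 1) s g ≤ Phi N (n + 1) s W g := by
  have e : ∀ p ∈ St N (n + 1) s, ∀ y ∈ s, p y = n → ∑ y ∈ s, (if p y = n then A y else 0) = A y :=
    fun p hp y hy h => (Finset.sum_eq_single_of_mem y hy fun z hz k => if_neg fun k' =>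
      k ((mem_St.1 hp).2.2 z hz y hy (k'.trans h.symm))).trans (if_pos h)
  rw [Nm, Finset.mul_sum]
  refine recp hs hN hW hW' (a := fun p => ∑ y ∈ s, if p y = n then A y else 0) (τ := fun _ => 1)
    (fun y hy => le_of_eq_of_le ?_ (h1 y hy).2) fun p hp => ?_
  · rw [Nm, Finset.mul_sum]
    exact Finset.sum_congr rfl fun p hp => by
      rw [e _ (ins_mem hy hN hp (Nat.lt_succ_self n)) y hy (ins_self _ _ _ _)]
  · obtain ⟨y, hy, a1⟩ := surj hs hp (Nat.lt_succ_self n)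
    obtain ⟨z, hz, a2⟩ := surj hs hp (Nat.succ_pos n)
    simp only [add_sub_cancel_right]
    rw [e p hp y hy a1, e _ (mo_mem (Nat.lt_succ_self n) hN hp) z hz (by simp [mo, rv, a2])]
    exact ⟨le_add_of_nonneg_left (h1 y hy).1, h2 p hp y hy z hz fun k => by subst k; omega⟩

theorem perron (hN : n ≤ N) (hW : ∀ p k, W (mo k p) k = W p k) {V : (α → ℕ) → ℕ → ℝ}
    (h0 : ∀ p ∈ St N n s, ∀ k < n, |V p k| ≤ W p k) {φ : (α → ℕ) → ℝ} {μ : ℝ}
    (h1 : ∀ p ∈ St N n s, 0 < φ p) (h2 : ∀ p ∈ St N n s, Op n W φ p ≤ μ * φ p) (hl : μ < l)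
    (he : ∀ p ∈ St N n s, Op n V g p = l * g p) : ∀ p ∈ St N n s, g p = 0 := by
  have h3 : ∑ p ∈ St N n s, φ p * (l * |g p|) ≤ ∑ p ∈ St N n s, φ p * Op n W (fun p => |g p|) p :=
    Finset.sum_le_sum fun p hp => mul_le_mul_of_nonneg_left (by
      refine (mul_le_mul_of_nonneg_right (le_abs_self l) (abs_nonneg _)).trans ?_
      rw [← abs_mul, ← he p hp]
      refine (Finset.abs_sum_le_sum_abs _ _).trans (Finset.sum_le_sum fun k hk => ?_)
      rw [abs_mul]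
      exact mul_le_mul_of_nonneg_right (h0 p hp k (mem_range.1 hk)) (abs_nonneg _)) (h1 p hp).le
  rw [Op_symm hN hW] at h3
  have h4 := h3.trans (Finset.sum_le_sum fun p hp =>
    mul_le_mul_of_nonneg_right (h2 p hp) (abs_nonneg (g p)))
  simp only [mul_left_comm _ l, mul_assoc, ← Finset.mul_sum] at h4
  have h5 : ∀ p ∈ St N n s, 0 ≤ φ p * |g p| := fun p hp => mul_nonneg (h1 p hp).le (abs_nonneg _)
  have h6 : ∑ p ∈ St N n s, φ p * |g p| = 0 := by nlinarith [Finset.sum_nonneg h5]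
  exact fun p hp => abs_eq_zero.1 ((mul_eq_zero.1
    ((Finset.sum_eq_zero_iff_of_nonneg h5).1 h6 p hp)).resolve_left (h1 p hp).ne')

theorem quad0 (hN : n ≤ N) (hW : ∀ p k, W (mo k p) k = W p k) {γ : ℝ}
    (h : ∀ (v : (α → ℕ) → ℝ) (l : ℝ), n - l < γ → (∀ p ∈ St N n s, Op n W v p = l * v p) →
      ∀ p ∈ St N n s, v p = 0) : γ * Nm N n s g ≤ Phi N n s W g :=
  quad hN hW fun v l hl hv => Finset.sum_eq_zero fun p hp => by rw [h v l hl hv p hp, zero_mul]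

theorem Nm_mono {a b : ℝ} (hab : a ≤ b) (h : b * Nm N n s g ≤ Phi N n s W g) :
    a * Nm N n s g ≤ Phi N n s W g :=
  (mul_le_mul_of_nonneg_right hab (Finset.sum_nonneg fun _ _ => sq_nonneg _)).trans h

section
variable {G : Type} [AddCommMonoid G] (c : G → ℝ) (ch : α → G)

theorem pc_top {p : α → ℕ} (hp : p ∈ St N (n + 1) s) (hN : n + 1 ≤ N) :
    pc ch p n = ∑ a ∈ s, ch a := by
  rw [pc, ← Finset.sum_subset (subset_univ s) fun a _ ha => if_neg (by
    rw [(mem_St.1 hp).2.1 a ha]; omega)]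
  exact Finset.sum_congr rfl fun a ha => if_pos (Nat.le_of_lt_succ ((mem_St.1 hp).1 a ha))

omit [DecidableEq α] in
theorem pc_rev (p : α → ℕ) {k j : ℕ} (h : k + j + 1 = n) :
    pc ch (mo n p) k + pc ch p j = pc ch p n := by
  rw [pc, pc, pc, ← Finset.sum_add_distrib]
  refine Finset.sum_congr rfl fun a _ => ?_
  simp only [mo, rv]
  split_ifs <;> first | omega | simp

theorem one_step (c0 : c 0 = 1) (hs : s.card = n + 1) (hN : n + 1 ≤ N) {x : α} (hx : x ∈ s)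
    (e2 : ∀ a ∈ s.erase x, ch a = 0)
    (l2 : ∀ w, Eig (n + 1) (c (ch x)) l w → ∀ j < n + 1, w j = 0)
    (he : ∀ p ∈ St N (n + 1) s, Op (n + 1) (fun p k => c (pc ch p k)) g p = l * g p) {β : ℝ}
    (hβ : β ≤ 1) (hl : n + 1 - l < β + (1 - |c (ch x)|))
    (ih : ∀ y ∈ s, y ≠ x → β * Nm N n (s.erase y) (fun p => g (ins N n y p)) ≤
      Phi N n (s.erase y) (fun p k => c (pc ch p k)) fun p => g (ins N n y p)) :
    ∀ p ∈ St N (n + 1) s, g p = 0 := by
  have hW : ∀ p k, c (pc ch (mo k p) k) = c (pc ch p k) := fun p k => by rw [pc_mo]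
  refine eig_zero he ?_ (by push_cast; exact hl)
  have h1 := en_ge (s := s) (g := g) (W := fun p k => c (pc ch p k)) (Nat.lt_succ_self n) hN hW
  rw [Finset.sum_congr rfl (g := fun p => (1 - |c (ch x)|) * g p ^ 2) fun p hp => by
    rw [pc_one ch hp (by omega) e2, if_pos (Nat.le_of_lt_succ ((mem_St.1 hp).1 x hx))],
    ← Finset.mul_sum] at h1
  rw [Phi_succ hs hN (W' := fun _ p k => c (pc ch p k)) fun y _ p hp k hk => by
    rw [pc_last ch hp hk (by omega)], Nm, add_mul]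
  refine add_le_add ?_ h1
  rw [plate hs hN, Finset.mul_sum]
  refine Finset.sum_le_sum fun y hy => ?_
  by_cases e : y = x
  · subst e
    rw [Phi_congr (W' := fun _ _ => 1) fun p hp k hk => by rw [pc_zero ch hp (by omega) e2, c0]]
    refine Nm_mono hβ (cesi n (by rw [card_erase_of_mem hy, hs, Nat.add_sub_cancel]) (by omega) ?_)
    rw [← marg_last hy hN]
    refine l2 _ (marg hN hW he hy fun p hp k hk => ?_) n (by omega)
    rw [pc_one ch hp (by omega) e2]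
    split_ifs
    · rfl
    · exact c0
  · exact ih y hy e

end

/-- The weights for two letters of opposite charges. -/
def W2 (c : ℝ) (x y : α) (p : α → ℕ) (k : ℕ) : ℝ :=
  if p x ≤ k then (if p y ≤ k then 1 else c) else if p y ≤ k then c else 1

omit [Fintype α] [DecidableEq α] in
theorem W2_mo (c : ℝ) (x y : α) (p : α → ℕ) (k : ℕ) : W2 c x y (mo k p) k = W2 c x y p k := by
  have e : ∀ t, rv k t ≤ k ↔ t ≤ k := fun t => by rw [rv]; split_ifs <;> omega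
  simp only [W2, mo, e]

theorem two_half (hs : s.card = n + 1) (hN : n + 1 ≤ N) {x y : α} (hx : x ∈ s) (hy : y ∈ s)
    (hxy : x ≠ y) : 1 * Nm N (n + 1) s g ≤ Phi N (n + 1) s (W2 (-1 / 2) x y) g :=
  quad0 hN (W2_mo _ x y) fun _ _ hl hv => eig_zero hv (pair3 hs hN (W2_mo _ x y) hx hy hxy
    (fun _ _ _ _ => rfl) (adj_zero3 hN (W2_mo _ x y) hv (by push_cast at hl; linarith) hx hy hxy
      fun _ _ _ _ => rfl)) hl

theorem two_neg (hs : s.card = n + 1) (hN : n + 1 ≤ N) {x y : α} (hx : x ∈ s) (hy : y ∈ s)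
    (hxy : x ≠ y) : (n + 1) / (n + 2) * Nm N (n + 1) s g ≤ Phi N (n + 1) s (W2 (-1) x y) g := by
  have hc : ∀ y ∈ s, (s.erase y).card = n := fun y hy => by
    rw [card_erase_of_mem hy, hs, Nat.add_sub_cancel]
  have hn : 0 < n := hc y hy ▸ Finset.card_pos.2 ⟨x, mem_erase.2 ⟨hxy, hx⟩⟩
  have hn' : (0 : ℝ) < n := by exact_mod_cast hn
  let ch : α → ZMod 4 := fun a => if a = x ∨ a = y then 2 else 0
  have cx : ch x = 2 := if_pos (Or.inl rfl)
  have cy : ch y = 2 := if_pos (Or.inr rfl)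
  have h2 : (2 : ZMod 4) ≠ 0 := by decide
  have e : ∀ p ∈ St N (n + 1) s, ∀ k < n + 1, W2 (-1) x y p k = W4 ch p k := fun p hp k hk => by
    rw [W4, pc_two ch hp (by omega) hxy fun a _ e e' => if_neg (not_or.2 ⟨e, e'⟩), cx, cy, W2]
    split_ifs <;> simp [cw_zero, cw_two, cw_add_two]
  refine quad0 hN (W2_mo _ x y) fun v l hl hv => eig_zero hv ?_ hl
  have l1 : ((n + 1 : ℕ) : ℝ) - 1 < l := by
    have : ((n : ℝ) + 1) / (n + 2) ≤ 1 := by rw [div_le_one (by positivity)]; linarith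
    linarith
  have h3 := adj_zero hN (W2_mo (-1) x y) hv l1 (c := -1) (one_mul 1) hx hy hxy
    (fun _ _ _ _ => rfl) (Or.inl (by norm_num))
  have h4 := adj_zero hN (W2_mo (-1) x y) hv l1 (c := -1) (one_mul 1) hy hx hxy.symm
    (fun p _ k _ => by rw [W2]; split_ifs <;> rfl) (Or.inl (by norm_num))
  have hb := glue_bound hs hN (g := v) (ch := ch) (γ := n / (n + 2))
    (fun y' hy' => all4 n (by omega) _ (Or.inr le_rfl) _ _ _ (hc y' hy') fun h => ?_)
    fun y' hy' x' hx' z σ hz => all4 n (by omega) _ (Or.inr le_rfl) _ _ _ (hc y' hy') fun h => ?_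
  · rw [Phi_congr e]
    refine le_of_mul_le_mul_left (le_of_eq_of_le ?_ hb) hn'
    ring
  · by_cases k : y' = x
    · exact absurd (cy.symm.trans (h y (mem_erase.2 ⟨k ▸ hxy.symm, hy⟩))) h2
    · exact absurd (cx.symm.trans (h x (mem_erase.2 ⟨Ne.symm k, hx⟩))) h2
  · have a1 : ∀ a ∈ s, ch a = 2 → a = y' ∨ a = x' := fun a ha ca => by
      by_contra k
      rw [not_or] at k
      have := h a (mem_erase.2 ⟨k.1, ha⟩)
      rw [Function.update_of_ne k.2, ca] at this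
      exact h2 this
    have a2 := h x' hx'
    rw [Function.update_self] at a2
    rw [← adj_sum hy' hx' hN]
    rcases a1 x hx cx with rfl | rfl <;> rcases a1 y hy cy with rfl | rfl
    · exact absurd rfl hxy
    · rcases hz with ⟨-, rfl⟩ | ⟨rfl, -⟩
      · exact h4
      · rw [cx, cy] at a2
        exact absurd a2 (by decide)
    · rcases hz with ⟨-, rfl⟩ | ⟨rfl, -⟩
      · exact h3
      · rw [cx, cy] at a2
        exact absurd a2 (by decide)
    · exact absurd rfl hxy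

theorem two_mix (hs : s.card = n + 1) (hN : n + 1 ≤ N) {x y : α} (hx : x ∈ s) (hy : y ∈ s)
    (hxy : x ≠ y) {t : ℝ} (h0 : 0 ≤ t) (h1 : t ≤ 1) :
    (1 - t / (n + 2)) * Nm N (n + 1) s g ≤ Phi N (n + 1) s (W2 (-((t + 1) / 2)) x y) g := by
  have e : Phi N (n + 1) s (W2 (-((t + 1) / 2)) x y) g =
      t * Phi N (n + 1) s (W2 (-1) x y) g + (1 - t) * Phi N (n + 1) s (W2 (-1 / 2) x y) g := by
    simp only [Phi, Finset.mul_sum, ← Finset.sum_add_distrib]
    refine Finset.sum_congr rfl fun p _ => Finset.sum_congr rfl fun k _ => ?_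
    simp only [en, W2]
    split_ifs <;> ring
  rw [e]
  refine le_of_eq_of_le ?_ (add_le_add (mul_le_mul_of_nonneg_left (two_neg hs hN hx hy hxy) h0)
    (mul_le_mul_of_nonneg_left (two_half hs hN hx hy hxy) (sub_nonneg.2 h1)))
  field_simp
  ring

theorem two_pos' (hN : n ≤ N) {x y : α} (hx : x ∈ s) (hy : y ∈ s) (hxy : x ≠ y) {c μ : ℝ}
    (hc : ∀ p ∈ St N n s, ∀ k < n, |W p k| ≤ W2 c x y p k) {G : ℕ → ℕ → ℝ}
    (h1 : ∀ p q, p < q → q < n → 0 < G p q)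
    (h2 : ∀ p q, p < q → q < n → T2 n c G p q ≤ μ * G p q) (hl : μ < l)
    (he : ∀ p ∈ St N n s, Op n W g p = l * g p) : ∀ p ∈ St N n s, g p = 0 := by
  have h0 : ∀ p ∈ St N n s, p x < n ∧ p y < n ∧ p x ≠ p y := fun p hp =>
    ⟨(mem_St.1 hp).1 x hx, (mem_St.1 hp).1 y hy, fun e => hxy ((mem_St.1 hp).2.2 x hx y hy e)⟩
  refine perron hN (W2_mo c x y) hc
    (φ := fun p => SY 1 G (p x) (p y)) (fun p hp => ?_) (fun p hp => ?_) hl he <;>
    obtain ⟨a1, a2, a3⟩ := h0 p hp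
  · simp only [SY, one_mul]
    split_ifs with e
    · exact h1 _ _ e a2
    · exact h1 _ _ (by omega) a1
  · refine le_of_eq_of_le (SY_int a1 a2 a3 (one_mul 1) c G) ?_
    simp only [SY, one_mul]
    split_ifs with e
    · exact h2 _ _ e a2
    · exact h2 _ _ (by omega) a1

theorem cls3 (hN : n + 1 ≤ N) (ch : α → ZMod 3) : (∀ a ∈ s, ch a = 0) ∨
    (∃ x ∈ s, ch x ≠ 0 ∧ ∀ a ∈ s.erase x, ch a = 0) ∨
    (∀ p ∈ St N (n + 1) s, ∃ i < n + 1, ∃ j < n + 1, i ≠ j ∧ pc ch p i ≠ 0 ∧ pc ch p j ≠ 0) ∨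
    ∃ x ∈ s, ∃ y ∈ s, x ≠ y ∧ ch x ≠ 0 ∧ ch y ≠ 0 ∧ ch x + ch y = 0 ∧
      ∀ a ∈ s, a ≠ x → a ≠ y → ch a = 0 := by
  refine (em _).imp_right fun e1 => ?_
  push Not at e1
  obtain ⟨x, hx, cx⟩ := e1
  by_cases e2 : ∀ a ∈ s.erase x, ch a = 0
  · exact Or.inl ⟨x, hx, cx, e2⟩
  push Not at e2
  obtain ⟨y, hy, cy⟩ := e2
  obtain ⟨hxy, hy⟩ := mem_erase.1 hy
  refine Or.inr ((em _).imp_right fun H => ?_)
  push Not at H
  obtain ⟨p, hp, H⟩ := H
  obtain ⟨b1, -, b3⟩ := mem_St.1 hp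
  have h1 : ∀ a ∈ s, ch a ≠ 0 → ∃ i < n + 1, pc ch p i ≠ 0 ∧ (p a = i ∨ p a = i + 1) := by
    intro a ha ca
    have a1 := pc_step ch hp hN ha
    have a2 := b1 a ha
    by_cases e : pc ch p (p a) = 0
    · rw [e] at a1
      split_ifs at a1 with e'
      · exact absurd (a1.trans (add_zero _)).symm ca
      · exact ⟨p a - 1, by omega, fun k => ca (by rw [a1, k, add_zero]), by omega⟩
    · exact ⟨p a, a2, e, Or.inl rfl⟩
  obtain ⟨i, hi, a1, a2⟩ := h1 x hx cx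
  have h2 : ∀ a ∈ s, ch a ≠ 0 → p a = i ∨ p a = i + 1 := fun a ha ca => by
    obtain ⟨j, hj, a3, a4⟩ := h1 a ha ca
    rwa [show i = j from by_contra fun e => a3 (H i hi j hj e a1)]
  have a3 := h2 y hy cy
  have a4 : p y ≠ p x := fun e => hxy (b3 y hy x hx e)
  have h3 : ∀ a ∈ s, a ≠ x → a ≠ y → ch a = 0 := fun a ha e e' => by_contra fun ca => by
    have a5 := h2 a ha ca
    have a6 : p a ≠ p x := fun k => e (b3 a ha x hx k)
    have a7 : p a ≠ p y := fun k => e' (b3 a ha y hy k)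
    omega
  have a5 := b1 x hx
  have a6 := b1 y hy
  have h4 := H i hi (i + 1) (by omega) (by omega) a1
  rw [pc_two ch hp (by omega) hxy.symm h3, if_pos (by omega), if_pos (by omega)] at h4
  exact ⟨x, hx, y, hy, hxy.symm, cx, cy, h4, h3⟩

end Pool.Agent.P.MP_ad1e8a_co.FC
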