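import Mathlib
import Pool.Agent.P.MP_ad1e8a_co.FC5
import Pool.Agent.P.MP_ad1e8a_co.FC8

/-!
Charges modulo six.
-/

open Finset

namespace Pool.Agent.P.MP_ad1e8a_co.FC

variable {α : Type} [Fintype α] [DecidableEq α] {N n : ℕ} {s : Finset α}
  {g : (α → ℕ) → ℝ} {l : ℝ} {ch : α → ZMod 6}

/-- Twice the cosine of `2 π z / 6`. -/
def t6 (z : ZMod 6) : ℤ := if z = 0 then 2 else if z = 3 then -2 else if z = 1 ∨ z = 5 then 1 else -1

/-- The cosine of `2 π z / 6`. -/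
noncomputable def c6 (z : ZMod 6) : ℝ := t6 z / 2

/-- Reduction modulo three. -/
def f3 : ZMod 6 →+ ZMod 3 := ⟨⟨fun z => (z.val : ZMod 3), rfl⟩, by decide⟩

/-- Twice the parity. -/
def f4 : ZMod 6 →+ ZMod 4 := ⟨⟨fun z => 2 * (z.val : ZMod 4), rfl⟩, by decide⟩

theorem c6_zero : c6 0 = 1 := by norm_num [c6, t6]

theorem cos_six : Cos c6 := by
  refine ⟨c6_zero, fun y hy => ?_, fun x y => ?_⟩
  · rw [c6, t6, if_neg hy]
    split_ifs <;> norm_num
  · have key : ∀ x y : ZMod 6, t6 (x + y) + t6 (x - y) = t6 x * t6 y := by decide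
    have h1 := congrArg (Int.cast : ℤ → ℝ) (key x y)
    push_cast at h1
    unfold c6
    linear_combination h1 / 2

theorem c6_abs (z : ZMod 6) : |c6 z| = if f3 z = 0 then 1 else 1 / 2 := by
  have key : ∀ z : ZMod 6, |t6 z| = if f3 z = 0 then 2 else 1 := by decide
  rw [c6, abs_div, ← Int.cast_abs, key]
  split_ifs <;> norm_num

theorem c6_cw {z : ZMod 6} (h : f3 z = 0) : c6 z = cw (f4 z) := by
  have key : ∀ z : ZMod 6, f3 z = 0 → (t6 z = 2 ∧ f4 z = 0) ∨ (t6 z = -2 ∧ f4 z = 2) := by decide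
  rcases key z h with ⟨a, b⟩ | ⟨a, b⟩ <;> norm_num [c6, a, b, cw_zero, cw_two]

omit [DecidableEq α] in
theorem pc_map {G : Type} [AddCommGroup G] (f : ZMod 6 →+ G) (p : α → ℕ) (k : ℕ) :
    f (pc ch p k) = pc (fun a => f (ch a)) p k := by
  simp only [pc, map_sum, apply_ite f, map_zero]

theorem W6_eq (hN : n ≤ N) (h : ∀ a ∈ s, f3 (ch a) = 0) : ∀ p ∈ St N n s, ∀ k < n,
    c6 (pc ch p k) = W4 (fun a => f4 (ch a)) p k := fun p hp k hk => by
  rw [c6_cw (by rw [pc_map, pc_zero _ hp (by omega) h]), pc_map, W4]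

theorem top6 (hs : s.card = n + 1) (hN : n + 1 ≤ N) (hn : 2 ≤ n) (l1 : n + 1 / (n + 2) < l)
    (l2 : ∀ κ, κ ≠ 0 → ∀ w, Eig (n + 1) (c6 κ) l w → ∀ j < n + 1, w j = 0) {μ : ℝ} (hμ : μ < l)
    {G : ℕ → ℕ → ℝ} (g1 : ∀ p q, p < q → q < n + 1 → 0 < G p q)
    (g2 : ∀ p q, p < q → q < n + 1 → T2 (n + 1) (1 / 2) G p q ≤ μ * G p q)
    (he : ∀ p ∈ St N (n + 1) s, Op (n + 1) (fun p k => c6 (pc ch p k)) g p = l * g p)
    (h0 : (∀ a ∈ s, ch a = 0) → ∑ p ∈ St N (n + 1) s, g p = 0) : ∀ p ∈ St N (n + 1) s, g p = 0 := by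
  have l0 : 0 < 1 / ((n : ℝ) + 2) := by positivity
  have l3 : ((n + 1 : ℕ) : ℝ) - l < 1 := by push_cast; linarith
  have hW : ∀ p k, c6 (pc ch (mo k p) k) = c6 (pc ch p k) := fun p k => by rw [pc_mo]
  have hc : ∀ z, 0 ≤ 1 - |c6 z| := fun z => by rw [c6_abs]; split_ifs <;> norm_num
  have k0 : ∀ z : ZMod 6, f3 z = 0 → f4 z = 0 → z = 0 := by decide
  rcases cls3 (s := s) hN fun a => f3 (ch a) with e | ⟨x, hx, cx, e⟩ | e |
    ⟨x, hx, y, hy, hxy, cx, cy, c, e⟩
  · refine top4 (ch := fun a => f4 (ch a)) hs hN (by omega) l1 (fun w hw => l2 3 (by decide) w ?_)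
      (fun p hp => ?_) fun k => h0 fun a ha => k0 _ (e a ha) (k a ha)
    · rwa [show c6 3 = -1 by rw [c6, show t6 3 = -2 by decide]; norm_num]
    · rw [← he p hp]
      exact Finset.sum_congr rfl fun k hk => by rw [← W6_eq hN e p hp k (mem_range.1 hk)]
  · have h1 : ∀ y ∈ s, y ≠ x → 1 / 2 * Nm N n (s.erase y) (fun p => g (ins N n y p)) ≤
        Phi N n (s.erase y) (fun p k => c6 (pc ch p k)) fun p => g (ins N n y p) := fun y _ hy => by
      refine Phi_ge (by omega) hW fun p hp => ?_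
      have a1 := (mem_St.1 hp).1 x (mem_erase.2 ⟨hy.symm, hx⟩)
      refine le_of_eq_of_le ?_ (Finset.single_le_sum (fun k _ => hc _) (mem_range.2 a1))
      rw [c6_abs, pc_map, pc_one _ hp (x := x) (by omega) fun a ha => e a (mem_erase.2
        ⟨(mem_erase.1 ha).1, mem_of_mem_erase (mem_of_mem_erase ha)⟩), if_pos le_rfl, if_neg cx]
      norm_num
    by_cases e' : ∀ a ∈ s.erase x, ch a = 0
    · refine one_step c6 ch c6_zero hs hN hx e' (l2 _ fun k => cx (by rw [k, map_zero])) he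
        (β := 1 / 2) (by norm_num) ?_ h1
      rw [c6_abs, if_neg cx]
      linarith
    · refine eig_zero he (rec2 hs hN (by omega) hW (fun y _ p hp k hk => by
        rw [pc_last ch hp hk (by omega)]) (A := fun _ => 1 / 2) (fun y hy => ⟨by norm_num, ?_⟩)
        fun p hp _ _ _ _ _ => ?_) l3
      · by_cases k : y = x
        · subst k
          have h2 : (2 : ℝ) ≤ n := by exact_mod_cast hn
          rw [Phi_congr (W6_eq (by omega) e)]
          exact all4 n (by omega) _ (Or.inr (by rw [div_le_div_iff₀] <;> linarith)) _ _ _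
            (by rw [card_erase_of_mem hy, hs, Nat.add_sub_cancel])
            fun k => absurd (fun a ha => k0 _ (e a ha) (k a ha)) e'
        · exact h1 y hy k
      · rw [← sq_abs, c6_abs, pc_map, pc_one _ hp (by omega) e,
          if_pos (Nat.le_of_lt_succ ((mem_St.1 hp).1 x hx)), if_neg cx, sq]
  · refine eig_zero he (Phi_ge hN hW fun p hp => ?_) l3
    obtain ⟨i, hi, j, hj, a1, a2, a3⟩ := e p hp
    refine le_of_eq_of_le ?_ (Finset.add_le_sum (fun k _ => hc _) (mem_range.2 hi) (mem_range.2 hj) a1)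
    rw [c6_abs, c6_abs, pc_map, pc_map, if_neg a2, if_neg a3]
    norm_num
  · refine two_pos' hN hx hy hxy (fun p hp k hk => le_of_eq ?_) g1 g2 hμ he
    rw [c6_abs, pc_map, pc_two _ hp (by omega) hxy e, W2]
    by_cases a1 : p x ≤ k <;> by_cases a2 : p y ≤ k <;> simp [a1, a2, c, cx, cy]

end Pool.Agent.P.MP_ad1e8a_co.FC
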