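import Mathlib
import Pool.Agent.P.MP_ad1e8a_co.S7B

/-!
The gap of the graph is smaller than the gap of the quotient matrix for seven or more colours.
-/

open Finset Matrix

namespace Pool.Agent.P.MP_ad1e8a_co.S7

theorem cos_cases {m : ℕ} [NeZero m] (hm : 7 ≤ m) (κ : ZMod m) (hκ : κ ≠ 0) :
    0 < Real.cos (2 * Real.pi / m) ∧
    (|2 * (ZMod.stdAddChar κ).re| ≤ 2 * Real.cos (2 * Real.pi / m) ∨
      ∃ s, 2 * (ZMod.stdAddChar κ).re = -2 * s ∧ 0 < s ∧ s ≤ 1 ∧
        4 * s ^ 2 ≤ (2 * Real.cos (2 * Real.pi / m) + 2 * Real.cos (2 * Real.pi / m) ^ 2) *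
          (2 - s / 3)) := by
  have h1 := re_char_le κ hκ
  have h2 : -1 ≤ (ZMod.stdAddChar κ).re := by rw [re_char]; exact Real.neg_one_le_cos _
  have hπ := Real.pi_pos
  have key : ∃ s₀ : ℝ, -s₀ ≤ (ZMod.stdAddChar κ).re ∧ s₀ ≤ 1 ∧ 0 < Real.cos (2 * Real.pi / m) ∧
      4 * s₀ ^ 2 ≤ (2 * Real.cos (2 * Real.pi / m) + 2 * Real.cos (2 * Real.pi / m) ^ 2) *
        (5 / 3) := by
    rcases hm.eq_or_lt with rfl | hm
    · have e : Real.cos (2 * Real.pi / (7 : ℕ)) = 2 * Real.cos (Real.pi / 7) ^ 2 - 1 := by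
        rw [← Real.cos_two_mul]; congr 1; push_cast; ring
      have a1 := Real.one_sub_sq_div_two_le_cos (x := Real.pi / 7)
      have a2 := Real.pi_lt_d2
      have a3 : 898 / 1000 ≤ Real.cos (Real.pi / 7) := by nlinarith
      have a4 : 8 / 10 + 1 / 200 ≤ Real.cos (Real.pi / 7) ^ 2 := by nlinarith
      have a5 : ∀ v : ℕ, v ≤ 3 → -Real.cos (Real.pi / 7) ≤ Real.cos (2 * Real.pi * v / 7) :=
        fun v hv => by
          have : (v : ℝ) ≤ 3 := by exact_mod_cast hv
          rw [← Real.cos_pi_sub]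
          exact Real.cos_le_cos_of_nonneg_of_le_pi (by positivity) (by linarith) (by nlinarith)
      refine ⟨Real.cos (Real.pi / 7), ?_, Real.cos_le_one _, by rw [e]; linarith,
        by rw [e]; nlinarith⟩
      rw [re_char]
      have b1 := ZMod.val_lt κ
      rcases le_or_gt κ.val 3 with h | h
      · exact_mod_cast a5 _ h
      · have b2 := a5 (7 - κ.val) (by omega)
        rw [Nat.cast_sub b1.le] at b2
        refine b2.trans_eq ?_
        rw [← Real.cos_two_pi_sub]
        congr 1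
        push_cast
        ring
    · have hm' : (8 : ℝ) ≤ m := by exact_mod_cast hm
      have a1 : Real.cos (Real.pi / 4) ≤ Real.cos (2 * Real.pi / m) :=
        Real.cos_le_cos_of_nonneg_of_le_pi (by positivity) (by linarith)
          (by rw [div_le_div_iff₀ (by linarith) (by norm_num)]; nlinarith)
      rw [Real.cos_pi_div_four] at a1
      have a2 : (1414 / 1000 : ℝ) ≤ √2 := Real.le_sqrt_of_sq_le (by norm_num)
      exact ⟨1, h2, le_rfl, by linarith, by nlinarith⟩
  obtain ⟨s₀, k1, k2, k3, k4⟩ := key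
  refine ⟨k3, ?_⟩
  set c := Real.cos (2 * Real.pi / m)
  set x := (ZMod.stdAddChar κ).re
  rcases le_or_gt (-c) x with h | h
  · exact Or.inl (abs_le.2 ⟨by linarith, by linarith⟩)
  · refine Or.inr ⟨-x, by ring, by linarith, by linarith, ?_⟩
    have h3 : (-x) ^ 2 ≤ s₀ ^ 2 := pow_le_pow_left₀ (by linarith) (by linarith) 2
    have h4 : 0 ≤ 2 * c + 2 * c ^ 2 := by positivity
    nlinarith [mul_le_mul_of_nonneg_left (show (5 / 3 : ℝ) ≤ 2 - -x / 3 by linarith) h4]

theorem gap_lt {m n : ℕ} [NeZero m] (hn : 2 ≤ n) (hm7 : 7 ≤ m) :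
    gap (adjMat m n) < gap (QM m n) := by
  have hm : 3 ≤ m := by omega
  refine lt_gap (QM m n) (QM_symm m n) (2 * n) ?_ ?_ _ ?_
  · intro a
    have := QM_sum (m := m) (n := n) (fun _ => 1) a
    simp only [mul_one] at this
    rw [this]
    simp [mul_comm]
  · rw [Fintype.card_prod, ZMod.card, Fintype.card_fin]
    nlinarith
  intro x l hx0 hsum hx
  obtain ⟨a, ha⟩ := Function.ne_iff.mp hx0
  have hd : ZMod.dft (fun i : ZMod m => (x (i, a.2) : ℂ)) ≠ 0 := by
    rw [Ne, LinearEquiv.map_eq_zero_iff]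
    intro h0
    have := congrFun h0 a.1
    exact ha (by simpa using this)
  obtain ⟨κ, hκ⟩ := Function.ne_iff.mp hd
  set y : Fin n → ℂ := fun j => ∑ i : ZMod m, ZMod.stdAddChar (-(i * κ)) * (x (i, j) : ℂ) with hy
  have hya : y a.2 ≠ 0 := by simpa [ZMod.dft_apply] using hκ
  have hfe := fourier_eq x l hx κ y (fun _ => rfl)
  have main : ∀ φ : ℂ →ₗ[ℝ] ℝ, φ (y a.2) ≠ 0 → l < 2 * n - gap (adjMat m n) := by
    intro φ hφ
    set w : ℕ → ℝ := fun j => if h : j < n then φ (y ⟨j, h⟩) else 0 with hw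
    have hwj : ∀ j : Fin n, w j.val = φ (y j) := fun j => by simp [hw]
    obtain ⟨g, hg⟩ := core7 hn (cos_cases hm7 1 (one_ne hm)).1 (sub_pos.1 (eta_pos hm))
      (K := 2 * (ZMod.stdAddChar κ).re) (l := l) (w := w) ⟨a.2.val, a.2.2, by rwa [hwj]⟩ (by
        by_cases hk : κ = 0
        · left
          refine ⟨by simp [hk], ?_⟩
          rw [Finset.sum_range]
          simp only [hwj]
          rw [← map_sum]
          have : ∑ j, y j = 0 := by
            simp only [hy, hk, mul_zero, neg_zero, AddChar.map_zero_eq_one, one_mul]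
            rw [Finset.sum_comm]
            rw [Fintype.sum_prod_type] at hsum
            exact_mod_cast hsum
          rw [this, map_zero]
        · exact Or.inr (cos_cases hm7 κ hk).2) (by
        intro j hj
        have h1 := congrArg φ (hfe ⟨j, hj⟩)
        rw [← Complex.real_smul, map_smul, ← hwj, map_sum] at h1
        rw [← smul_eq_mul, h1, Finset.sum_range]
        refine Finset.sum_congr rfl fun k _ => ?_
        split_ifs with hjk
        · rw [← Complex.real_smul, map_smul, ← hwj, revPos_val _ _ hjk, smul_eq_mul]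
        · rw [two_mul, map_add, ← hwj, two_mul])
    linarith [adj_lt hn hm hg]
  by_cases hre : (y a.2).re = 0
  · refine main Complex.imLm fun him => hya ?_
    exact Complex.ext hre him
  · exact main Complex.reLm hre

end Pool.Agent.P.MP_ad1e8a_co.S7
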