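import Mathlib
import Pool.Agent.P.MP_ad1e8a_co.S7C

/-!
Six colours and at most six letters.
-/

open Finset Matrix

namespace Pool.Agent.P.MP_ad1e8a_co.FC

theorem beats_nat {n a b : ℕ} (hn : 2 ≤ n) (hb : 0 < b) (t : ℕ → ℕ → ℕ) (h0 : 0 < t 0 1)
    (h : ∀ q < n, ∀ p < q, a * t p q < b * (2 * p * t p q + ∑ i ∈ range (q - p), t i q +
      2 * ∑ i ∈ range (n - q), t i (i + (q - p)))) :
    S7.Beats n (1 / 2) (a / b) fun p q => t p q := by
  have key : ∀ p d e, 0 < d → 0 < e → p + d + e = n →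
      (a / b : ℝ) * t p (p + d) < S7.TT (1 / 2) (fun p q => t p q) p d e := fun p d e hd he k => by
    have h1 := h (p + d) (by omega) p (by omega)
    rw [Nat.add_sub_cancel_left, show n - (p + d) = e by omega] at h1
    rw [div_mul_eq_mul_div, div_lt_iff₀' (by exact_mod_cast hb), S7.TT, mul_one_div_cancel two_ne_zero,
      one_mul]
    exact_mod_cast h1
  exact ⟨fun _ _ => Nat.cast_nonneg _, fun p d e hd he k => (key p d e hd he k).le,
    Nat.cast_pos.2 h0, key 0 1 (n - 1) one_pos (by omega) (by omega)⟩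

theorem core6 {n : ℕ} (hn : 2 ≤ n) (h6 : n ≤ 6) {l : ℝ} {w : ℕ → ℝ} (hw : ∃ j < n, w j ≠ 0)
    (hr : ∀ j e, 0 < e → j + e = n → (l - 2 * j) * w j = -2 * ∑ i ∈ range e, w i) :
    ∃ l' g, l ≤ l' ∧ S7.Beats n (1 / 2) l' g := by
  have hz := fun hl => S7.w0_ne hl hr hw
  have key : ∀ (a b : ℕ) (T : List (List ℕ)), 0 < b → 0 < (T.getD 1 []).getD 0 0 →
      (∀ q < n, ∀ p < q, a * (T.getD q []).getD p 0 < b * (2 * p * (T.getD q []).getD p 0 +
        ∑ i ∈ range (q - p), (T.getD q []).getD i 0 +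
        2 * ∑ i ∈ range (n - q), (T.getD (i + (q - p)) []).getD i 0)) →
      ¬(a / b : ℝ) ≤ l → ∃ l' g, l ≤ l' ∧ S7.Beats n (1 / 2) l' g := fun a b T hb h1 h2 h3 =>
    ⟨_, _, (not_le.1 h3).le, beats_nat hn hb (fun p q => (T.getD q []).getD p 0) h1 h2⟩
  interval_cases n
  · refine key 29 10 [[], [1000]] (by norm_num) (by decide) (by decide) fun hl => ?_
    have h0 := hr 0 2 (by norm_num) rfl
    have h1 := hr 1 1 (by norm_num) rfl
    simp only [Finset.sum_range_succ, Finset.sum_range_zero] at h0 h1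
    push_cast at h0 h1 hl
    refine absurd ((mul_eq_zero.1 (show
      (-8 + l ^ 2) * w 0 = 0 by
      linear_combination (-2 + l) * h0 +
      (-2) * h1)).resolve_right
      (hz (by push_cast; linarith))) (ne_of_gt ?_)
    obtain ⟨t, ht, rfl⟩ : ∃ t, 0 ≤ t ∧ l = t + 29 / 10 := ⟨l - 29 / 10, by linarith, by ring⟩
    ring_nf
    positivity
  · refine key 19 4 [[], [1000], [500, 896]] (by norm_num) (by decide) (by decide) fun hl => ?_
    have h0 := hr 0 3 (by norm_num) rfl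
    have h1 := hr 1 2 (by norm_num) rfl
    have h2 := hr 2 1 (by norm_num) rfl
    simp only [Finset.sum_range_succ, Finset.sum_range_zero] at h0 h1 h2
    push_cast at h0 h1 h2 hl
    refine absurd ((mul_eq_zero.1 (show
      (16 - 16 * l - 2 * l ^ 2 + l ^ 3) * w 0 = 0 by
      linear_combination (-4 * l + l ^ 2) * h0 +
      (8 - 2 * l) * h1 +
      (-2 * l) * h2)).resolve_right
      (hz (by push_cast; linarith))) (ne_of_gt ?_)
    obtain ⟨t, ht, rfl⟩ : ∃ t, 0 ≤ t ∧ l = t + 19 / 4 := ⟨l - 19 / 4, by linarith, by ring⟩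
    ring_nf
    positivity
  · refine key 33 5 [[], [1000], [440, 927], [337, 335, 888]] (by norm_num) (by decide) (by decide) fun hl => ?_
    have h0 := hr 0 4 (by norm_num) rfl
    have h1 := hr 1 3 (by norm_num) rfl
    have h2 := hr 2 2 (by norm_num) rfl
    have h3 := hr 3 1 (by norm_num) rfl
    simp only [Finset.sum_range_succ, Finset.sum_range_zero] at h0 h1 h2 h3
    push_cast at h0 h1 h2 h3 hl
    refine absurd ((mul_eq_zero.1 (show
      (-128 + 160 * l - 12 * l ^ 2 - 8 * l ^ 3 + l ^ 4) * w 0 = 0 by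
      linear_combination (24 + 20 * l - 10 * l ^ 2 + l ^ 3) * h0 +
      (-72 + 24 * l - 2 * l ^ 2) * h1 +
      (-24 + 16 * l - 2 * l ^ 2) * h2 +
      (8 + 8 * l - 2 * l ^ 2) * h3)).resolve_right
      (hz (by push_cast; linarith))) (ne_of_gt ?_)
    obtain ⟨t, ht, rfl⟩ : ∃ t, 0 ≤ t ∧ l = t + 33 / 5 := ⟨l - 33 / 5, by linarith, by ring⟩
    ring_nf
    positivity
  · refine key 17 2 [[], [1000], [374, 936], [294, 297, 924], [247, 199, 265, 895]] (by norm_num) (by decide) (by decide) fun hl => ?_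
    have h0 := hr 0 5 (by norm_num) rfl
    have h1 := hr 1 4 (by norm_num) rfl
    have h2 := hr 2 3 (by norm_num) rfl
    have h3 := hr 3 2 (by norm_num) rfl
    have h4 := hr 4 1 (by norm_num) rfl
    simp only [Finset.sum_range_succ, Finset.sum_range_zero] at h0 h1 h2 h3 h4
    push_cast at h0 h1 h2 h3 h4 hl
    refine absurd ((mul_eq_zero.1 (show
      (768 - 1216 * l + 360 * l ^ 2 + 20 * l ^ 3 - 14 * l ^ 4 + l ^ 5) * w 0 = 0 by
      linear_combination (-256 + 68 * l ^ 2 - 16 * l ^ 3 + l ^ 4) * h0 +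
      (448 - 248 * l + 40 * l ^ 2 - 2 * l ^ 3) * h1 +
      (192 - 152 * l + 32 * l ^ 2 - 2 * l ^ 3) * h2 +
      (64 - 72 * l + 24 * l ^ 2 - 2 * l ^ 3) * h3 +
      (-64 - 8 * l + 16 * l ^ 2 - 2 * l ^ 3) * h4)).resolve_right
      (hz (by push_cast; linarith))) (ne_of_gt ?_)
    obtain ⟨t, ht, rfl⟩ : ∃ t, 0 ≤ t ∧ l = t + 17 / 2 := ⟨l - 17 / 2, by linarith, by ring⟩
    ring_nf
    positivity
  · refine key 10417 1000 [[],
      [100000],
      [31699, 94136],
      [24780, 25056, 93481],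
      [21679, 17539, 23795, 92779],
      [18961, 13357, 15111, 21662, 90533]] (by norm_num) (by decide) (by decide) fun hl => ?_
    have h0 := hr 0 6 (by norm_num) rfl
    have h1 := hr 1 5 (by norm_num) rfl
    have h2 := hr 2 4 (by norm_num) rfl
    have h3 := hr 3 3 (by norm_num) rfl
    have h4 := hr 4 2 (by norm_num) rfl
    have h5 := hr 5 1 (by norm_num) rfl
    simp only [Finset.sum_range_succ, Finset.sum_range_zero] at h0 h1 h2 h3 h4 h5
    push_cast at h0 h1 h2 h3 h4 h5 hl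
    refine absurd ((mul_eq_zero.1 (show
      (-9216 + 16128 * l - 6336 * l ^ 2 + 400 * l ^ 3 + 148 * l ^ 4 - 24 * l ^ 5 + l ^ 6) * w 0 = 0 by
      linear_combination (4160 - 1216 * l - 520 * l ^ 2 + 220 * l ^ 3 - 26 * l ^ 4 + l ^ 5) * h0 +
      (-5440 + 3424 * l - 728 * l ^ 2 + 64 * l ^ 3 - 2 * l ^ 4) * h1 +
      (-2560 + 2176 * l - 552 * l ^ 2 + 56 * l ^ 3 - 2 * l ^ 4) * h2 +
      (-1280 + 1248 * l - 392 * l ^ 2 + 48 * l ^ 3 - 2 * l ^ 4) * h3 +
      (-320 + 512 * l - 248 * l ^ 2 + 40 * l ^ 3 - 2 * l ^ 4) * h4 +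
      (832 - 160 * l - 120 * l ^ 2 + 32 * l ^ 3 - 2 * l ^ 4) * h5)).resolve_right
      (hz (by push_cast; linarith))) (ne_of_gt ?_)
    obtain ⟨t, ht, rfl⟩ : ∃ t, 0 ≤ t ∧ l = t + 10417 / 1000 := ⟨l - 10417 / 1000, by linarith, by ring⟩
    ring_nf
    positivity

theorem six_small {n : ℕ} (hn : 2 ≤ n) (h6 : n ≤ 6) : gap (adjMat 6 n) < gap (QM 6 n) := by
  have hc : Real.cos (2 * Real.pi / (6 : ℕ)) = 1 / 2 := by
    rw [← Real.cos_pi_div_three]; congr 1; push_cast; ring
  have c3 : S7.cs (3 : ZMod 6) = -1 := by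
    rw [S7.cs, re_char, show (3 : ZMod 6).val = 3 from rfl, ← Real.cos_pi]; congr 1; push_cast; ring
  refine lt_gap (QM 6 n) (QM_symm 6 n) (2 * n) ?_ ?_ _ ?_
  · intro a
    have := QM_sum (m := 6) (n := n) (fun _ => 1) a
    simp only [mul_one] at this
    rw [this]
    simp [mul_comm]
  · rw [Fintype.card_prod, ZMod.card, Fintype.card_fin]
    omega
  intro x l hx0 hsum hx
  obtain ⟨a, ha⟩ := Function.ne_iff.mp hx0
  have hd : ZMod.dft (fun i : ZMod 6 => (x (i, a.2) : ℂ)) ≠ 0 := by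
    rw [Ne, LinearEquiv.map_eq_zero_iff]
    intro h0
    have := congrFun h0 a.1
    exact ha (by simpa using this)
  obtain ⟨κ, hκ⟩ := Function.ne_iff.mp hd
  set y : Fin n → ℂ := fun j => ∑ i : ZMod 6, ZMod.stdAddChar (-(i * κ)) * (x (i, j) : ℂ) with hy
  have hya : y a.2 ≠ 0 := by simpa [ZMod.dft_apply] using hκ
  have hfe := fourier_eq x l hx κ y (fun _ => rfl)
  have main : ∀ φ : ℂ →ₗ[ℝ] ℝ, φ (y a.2) ≠ 0 → l < 2 * n - gap (adjMat 6 n) := by
    intro φ hφ
    set w : ℕ → ℝ := fun j => if h : j < n then φ (y ⟨j, h⟩) else 0 with hw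
    have hwj : ∀ j : Fin n, w j.val = φ (y j) := fun j => by simp [hw]
    have h1 : ∃ j < n, w j ≠ 0 := ⟨a.2.val, a.2.2, by rwa [hwj]⟩
    have heq : ∀ j < n, l * w j = ∑ k ∈ range n,
        if j ≤ k then 2 * (ZMod.stdAddChar κ).re * w (k - j) else 2 * w j := by
      intro j hj
      have h1 := congrArg φ (hfe ⟨j, hj⟩)
      rw [← Complex.real_smul, map_smul, ← hwj, map_sum] at h1
      rw [← smul_eq_mul, h1, Finset.sum_range]
      refine Finset.sum_congr rfl fun k _ => ?_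
      split_ifs with hjk
      · rw [← Complex.real_smul, map_smul, ← hwj, revPos_val _ _ hjk, smul_eq_mul]
      · rw [two_mul, map_add, ← hwj, two_mul]
    obtain ⟨l', g, hl, hg⟩ : ∃ l' g, l ≤ l' ∧ S7.Beats n (1 / 2) l' g := by
      by_cases h3 : κ = 3
      · refine core6 hn h6 h1 fun j e he k => ?_
        rw [S7.row heq j e he k, h3, ← S7.cs, c3]
        ring
      refine ⟨l, (S7.core7 hn (by norm_num) (by norm_num) h1 ?_ heq).imp fun g hg => ⟨le_rfl, hg⟩⟩
      by_cases hk : κ = 0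
      · left
        refine ⟨by simp [hk], ?_⟩
        rw [Finset.sum_range]
        simp only [hwj]
        rw [← map_sum]
        have : ∑ j, y j = 0 := by
          simp only [hy, hk, mul_zero, neg_zero, AddChar.map_zero_eq_one, one_mul]
          rw [Finset.sum_comm]
          rw [Fintype.sum_prod_type] at hsum
          exact_mod_cast hsum
        rw [this, map_zero]
      · have a1 := re_char_le κ hk
        have a2 := re_char_le (3 + κ) fun e =>
          h3 ((by decide : ∀ z : ZMod 6, 3 + z = 0 → z = 3) κ e)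
        have a3 := S7.cs_mul 3 κ
        rw [show (-3 : ZMod 6) = 3 from rfl, c3] at a3
        rw [hc, ← S7.cs] at a1 a2
        rw [← S7.cs]
        exact Or.inr (Or.inl (abs_le.2 ⟨by linarith, by linarith⟩))
    linarith [S7.adj_lt hn (by norm_num : 3 ≤ 6) (hc ▸ hg)]
  by_cases hre : (y a.2).re = 0
  · refine main Complex.imLm fun him => hya ?_
    exact Complex.ext hre him
  · exact main Complex.reLm hre

end Pool.Agent.P.MP_ad1e8a_co.FC
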