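import Mathlib
import Pool.Agent.P.MP_ad1e8a_co.FC4
import Pool.Agent.P.MP_ad1e8a_co.FC5

/-!
Two, three and four colours.
-/

open Finset Matrix

namespace Pool.Agent.P.MP_ad1e8a_co.FC

theorem cos_four : Cos cw := by
  refine ⟨cw_zero, fun y hy => ?_, fun x y => ?_⟩
  · rw [cw, if_neg hy]
    split_ifs <;> norm_num
  · have key : ∀ x y : ZMod 4, ((if x + y = 0 then 1 else if x + y = 2 then -1 else 0) +
        (if x - y = 0 then 1 else if x - y = 2 then -1 else 0) : ℤ) =
        2 * (if x = 0 then 1 else if x = 2 then -1 else 0) *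
          (if y = 0 then 1 else if y = 2 then -1 else 0) := by decide
    unfold cw
    exact_mod_cast key x y

theorem even_case {m n : ℕ} [NeZero m] {θ : ℝ} (h : Sc m n θ) (hθ : 0 < θ) (hn : 2 ≤ n)
    (φ : ZMod m →+ ZMod 4) (hφ : Function.Injective φ) {κ : ZMod m} (hκ : φ κ = 2) :
    gap (adjMat m n) = gap (θ • QM m n) := by
  have hc : Cos fun x => cw (φ x) := ⟨by rw [map_zero, cw_zero], fun y hy =>
    cos_four.ne _ fun e => hy (hφ (e.trans (map_zero φ).symm)), fun x y => by
      rw [map_add, map_sub, cos_four.add]⟩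
  have h0 : κ ≠ 0 := fun e => by
    rw [e, map_zero] at hκ
    exact absurd hκ (by decide)
  refine le_antisymm (h.le hn) (h.ge hc hn (fun l ch g hl he hg => ?_) hθ)
  obtain ⟨n, rfl⟩ : ∃ k, n = k + 1 := ⟨n - 1, by omega⟩
  have h1 := ray_eig hc hθ hn h0 hl
  have h2 := ray_two hc hθ (by omega) h0 hl (-1 / (n + 1))
  simp only [hκ, cw_two] at h1 h2
  refine top4 (ch := fun a => φ (ch a)) (by simp) le_rfl (by omega) ?_ h1 (fun p hp => ?_)
    fun e => hg fun a => hφ ((e a (mem_univ a)).trans (map_zero φ).symm)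
  · have h3 : (0 : ℝ) < n + 1 := by positivity
    have h4 : n + 1 < (l - n) * (1 + (n + 1) ^ 2) := by
      have := mul_lt_mul_of_pos_right h2 (sq_pos_of_pos h3)
      field_simp at this
      nlinarith
    rw [← lt_sub_iff_add_lt', div_lt_iff₀ (by positivity)]
    by_contra e
    have h5 := mul_le_mul_of_nonneg_right (not_lt.1 e) (show (0 : ℝ) ≤ 1 + (n + 1) ^ 2 by positivity)
    nlinarith [mul_lt_mul_of_pos_right h4 (show (0 : ℝ) < n + 2 by positivity)]
  · rw [← he p hp]
    refine Finset.sum_congr rfl fun k _ => ?_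
    simp only [W4, pc, map_sum, apply_ite φ, map_zero]

theorem two_colours {n : ℕ} (hn : 2 ≤ n) : gap (adjMat 2 n) = gap ((1 / 2 : ℝ) • QM 2 n) :=
  even_case Sc_two (by norm_num) hn ⟨⟨fun z => if z = 0 then 0 else 2, rfl⟩, by decide⟩
    (by decide) (κ := 1) rfl

theorem four_colours {n : ℕ} (hn : 2 ≤ n) : gap (adjMat 4 n) = gap ((1 : ℝ) • QM 4 n) :=
  even_case (Sc_three (by norm_num)) one_pos hn (AddMonoidHom.id _) Function.injective_id (κ := 2)
    rfl

theorem cos_three : Cos c3 := by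
  refine ⟨c3_zero, fun y hy => by rw [c3, if_neg hy]; norm_num, fun x y => ?_⟩
  have key : ∀ x y : ZMod 3, ((if x + y = 0 then 2 else -1) + (if x - y = 0 then 2 else -1) : ℤ) =
      (if x = 0 then 2 else -1) * (if y = 0 then 2 else -1) := by decide
  have h := key x y
  unfold c3
  split_ifs at h ⊢ <;> first | omega | norm_num

theorem three_colours {n : ℕ} (hn : 2 ≤ n) : gap (adjMat 3 n) = gap ((1 : ℝ) • QM 3 n) := by
  have h : Sc 3 n 1 := Sc_three le_rfl
  have h0 : (1 : ZMod 3) ≠ 0 := by decide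
  refine le_antisymm (h.le hn) (h.ge cos_three hn (fun l ch g hl he hg => ?_) one_pos)
  obtain ⟨n, rfl⟩ : ∃ k, n = k + 1 := ⟨n - 1, by omega⟩
  have h1 := ray_eig cos_three one_pos hn h0 hl
  have h2 := ray_two cos_three one_pos (by omega) h0 hl 0
  rw [c3, if_neg h0] at h1
  exact top3 (by simp) le_rfl (by linarith) h1 he fun e => hg fun a => e a (mem_univ a)

end Pool.Agent.P.MP_ad1e8a_co.FC
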