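import Mathlib
import Pool.Agent.P.MP_ad1e8a_co.FC5
import Pool.Agent.P.MP_ad1e8a_co.FC8

/-!
Charges modulo five.
-/

open Finset

namespace Pool.Agent.P.MP_ad1e8a_co.FC

variable {α : Type} [Fintype α] [DecidableEq α] {N n : ℕ} {s : Finset α}
  {g : (α → ℕ) → ℝ} {l : ℝ} {ch : α → ZMod 5}

/-- A function of the class of a colour. -/
def cl (a b c : ℤ) (z : ZMod 5) : ℤ := if z = 0 then a else if z = 1 ∨ z = 4 then b else c

/-- The cosine of `2 π z / 5`. -/
noncomputable def c5 (z : ZMod 5) : ℝ := (cl 4 (-1) (-1) z + cl 0 1 (-1) z * √5) / 4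

theorem r5 : √5 * √5 = (5 : ℝ) ∧ (2236 / 1000 : ℝ) < √5 ∧ √5 < (22361 / 10000 : ℝ) :=
  ⟨Real.mul_self_sqrt (by norm_num), Real.lt_sqrt_of_sq_lt (by norm_num),
    (Real.sqrt_lt' (by norm_num)).2 (by norm_num)⟩

theorem c5_zero : c5 0 = 1 := by norm_num [c5, cl]

theorem c5_one {z : ZMod 5} (h : z = 1 ∨ z = 4) : c5 z = (√5 - 1) / 4 := by
  have : z ≠ 0 := by rcases h with rfl | rfl <;> decide
  simp only [c5, cl, this, h, if_true, if_false]
  push_cast
  ring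

theorem c5_two {z : ZMod 5} (h0 : z ≠ 0) (h : ¬(z = 1 ∨ z = 4)) : c5 z = -((√5 + 1) / 4) := by
  simp only [c5, cl, h0, h, if_false]
  push_cast
  ring

theorem cos_five : Cos c5 := by
  obtain ⟨r1, r2, r3⟩ := r5
  refine ⟨c5_zero, fun y hy => ?_, fun x y => ?_⟩
  · by_cases h : y = 1 ∨ y = 4
    · rw [c5_one h]; linarith
    · rw [c5_two hy h]; linarith
  · have key : ∀ x y : ZMod 5, 2 * (cl 4 (-1) (-1) (x + y) + cl 4 (-1) (-1) (x - y)) =
        cl 4 (-1) (-1) x * cl 4 (-1) (-1) y + 5 * (cl 0 1 (-1) x * cl 0 1 (-1) y) ∧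
        2 * (cl 0 1 (-1) (x + y) + cl 0 1 (-1) (x - y)) =
        cl 4 (-1) (-1) x * cl 0 1 (-1) y + cl 0 1 (-1) x * cl 4 (-1) (-1) y := by decide
    have h1 := congrArg (Int.cast : ℤ → ℝ) (key x y).1
    have h2 := congrArg (Int.cast : ℤ → ℝ) (key x y).2
    push_cast at h1 h2
    unfold c5
    linear_combination h1 / 8 + √5 / 8 * h2 - (cl 0 1 (-1) x : ℝ) * (cl 0 1 (-1) y : ℝ) / 8 * r1

theorem c5_bd (z : ZMod 5) : (cl 1000 1690 2809 z : ℝ) / 1000 ≤ 2 - c5 z ∧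
    c5 z ^ 2 ≤ (cl 1000000 95600 654600 z : ℝ) / 1000000 ∧ 0 ≤ 1 - |c5 z| := by
  obtain ⟨r1, r2, r3⟩ := r5
  by_cases h0 : z = 0
  · norm_num [h0, c5_zero, cl]
  by_cases h : z = 1 ∨ z = 4
  · simp only [c5_one h, cl, h0, h, if_true, if_false]
    rw [abs_of_pos (by linarith)]
    push_cast
    exact ⟨by linarith, by nlinarith, by linarith⟩
  · simp only [c5_two h0 h, cl, h0, h, if_false]
    rw [abs_neg, abs_of_pos (by linarith)]
    push_cast
    exact ⟨by linarith, by nlinarith, by linarith⟩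

/-- The weights of a system of charges. -/
noncomputable def W5 (ch : α → ZMod 5) (p : α → ℕ) (k : ℕ) : ℝ := c5 (pc ch p k)

omit [DecidableEq α] in
theorem W5_mo (ch : α → ZMod 5) (p : α → ℕ) (k : ℕ) : W5 ch (mo k p) k = W5 ch p k :=
  congrArg c5 (pc_mo ch p k)

theorem W5_last (hN : n + 1 ≤ N) : ∀ y ∈ s, ∀ p ∈ St N n (s.erase y), ∀ k < n,
    W5 ch (ins N n y p) k = W5 ch p k := fun _ _ _ hp _ hk =>
  congrArg c5 (pc_last ch hp hk (by omega))

/-- The table of potentials for two letters. -/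
def tb (u v : ZMod 5) : ℤ :=
  if u = 0 then cl 0 800 600 v else if v = 0 then cl 0 1200 1170 u else
  if u = v then cl 0 880 2490 u else if u + v = 0 then cl 0 690 1800 u else
  if v = 2 * u then cl 0 1100 2490 u else cl 0 1380 1690 u

theorem lev2 (hs : s.card = 2) (hN : 2 ≤ N) :
    ∑ p ∈ St N 2 s, (tb (pc ch p 0) (pc ch p 1 - pc ch p 0) : ℝ) / 1000 * g p ^ 2 ≤
      Phi N 2 s (W5 ch) g := by
  refine recp (n := 1) hs hN (W5_mo ch) (W5_last hN) (a := fun p => 1 - c5 (pc ch p 0))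
    (fun y _ => le_of_eq (Finset.sum_congr rfl fun p hp => ?_)) fun p _ => ?_
  · have e : mo 0 p = p := funext fun a => by simp only [mo, rv]; split_ifs <;> omega
    rw [Finset.sum_range_one, en, e, pc_last ch hp one_pos (by omega), W5]
    ring
  · have key : ∀ u z : ZMod 5, tb u (z - u) ≤ cl 1000 1690 2809 u ∧ cl 1000000 95600 654600 z ≤
        (cl 1000 1690 2809 u - tb u (z - u)) * (cl 1000 1690 2809 (z - u) - tb (z - u) u) := by
      decide
    rw [pc_mo, eq_sub_of_add_eq (pc_rev ch p (n := 1) (k := 0) (j := 0) rfl), sub_sub_cancel, W5]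
    generalize pc ch p 0 = u
    generalize pc ch p 1 = z
    have a1 : (tb u (z - u) : ℝ) ≤ cl 1000 1690 2809 u := by exact_mod_cast (key u z).1
    have a2 := (key (z - u) z).1
    rw [sub_sub_cancel] at a2
    have a3 : (tb (z - u) u : ℝ) ≤ cl 1000 1690 2809 (z - u) := by exact_mod_cast a2
    have a4 : (cl 1000000 95600 654600 z : ℝ) ≤ (cl 1000 1690 2809 u - tb u (z - u)) *
        (cl 1000 1690 2809 (z - u) - tb (z - u) u) := by exact_mod_cast (key u z).2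
    have b1 := (c5_bd u).1
    have b2 := (c5_bd (z - u)).1
    refine ⟨by linarith, (c5_bd z).2.1.trans (le_trans ?_ (mul_le_mul
      (a := (cl 1000 1690 2809 u - tb u (z - u) : ℝ) / 1000)
      (c := (cl 1000 1690 2809 (z - u) - tb (z - u) u : ℝ) / 1000) (by linarith) (by linarith)
      (by linarith) (by linarith)))⟩
    linarith

/-- Two charged letters whose charges are not opposite. -/
def Oth (s : Finset α) (ch : α → ZMod 5) : Prop :=
  ∃ x ∈ s, ∃ y ∈ s, x ≠ y ∧ ch x ≠ 0 ∧ ch y ≠ 0 ∧ ch x + ch y ≠ 0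

theorem lev3 (hs : s.card = 3) (hN : 3 ≤ N) (h : Oth s ch) :
    1 * Nm N 3 s g ≤ Phi N 3 s (W5 ch) g := by
  obtain ⟨x, hx, y, hy, hxy, cx, cy, cxy⟩ := h
  rw [Nm, Finset.mul_sum]
  refine recp (n := 2) hs hN (W5_mo ch) (W5_last hN) (τ := fun _ => 1)
    (a := fun p => (tb (pc ch p 0) (pc ch p 1 - pc ch p 0) : ℝ) / 1000) (fun y hy => le_of_eq_of_le
      (Finset.sum_congr rfl fun p hp => ?_) (lev2 (by rw [card_erase_of_mem hy, hs]) (by omega)))
    fun p hp => ?_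
  · rw [pc_last ch hp two_pos (by omega), pc_last ch hp one_lt_two (by omega)]
  · have key : ∀ a b d : ZMod 5, 0 ≤ tb a b ∧ ((a ≠ 0 ∧ b ≠ 0 ∧ a + b ≠ 0) ∨
        (a ≠ 0 ∧ d ≠ 0 ∧ a + d ≠ 0) ∨ (b ≠ 0 ∧ d ≠ 0 ∧ b + d ≠ 0) →
        cl 1000000 95600 654600 (a + b + d) ≤ tb a b * tb d b) := by decide
    have a1 := pc_step ch hp hN hx
    have a2 := pc_step ch hp hN hy
    have a3 := (mem_St.1 hp).1 x hx
    have a4 := (mem_St.1 hp).1 y hy
    have a5 : p x ≠ p y := fun e => hxy ((mem_St.1 hp).2.2 x hx y hy e)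
    obtain ⟨k1, k2⟩ := key (pc ch p 0) (pc ch p 1 - pc ch p 0) (pc ch p 2 - pc ch p 1)
    have k3 := k2 (by
      generalize p x = i at *
      generalize p y = j at *
      interval_cases i <;> interval_cases j <;> simp only [OfNat.ofNat_ne_zero, one_ne_zero,
        if_true, if_false, add_zero, ne_eq, not_true, Nat.add_one_sub_one, Nat.sub_self] at a1 a2 a5 <;>
        simp [a1, a2, cx, cy, cxy, add_comm (ch y)])
    rw [eq_sub_of_add_eq (pc_rev ch p (n := 2) (k := 0) (j := 1) rfl),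
      eq_sub_of_add_eq (pc_rev ch p (n := 2) (k := 1) (j := 0) rfl), sub_sub_sub_cancel_left, W5]
    rw [add_sub_cancel, add_sub_cancel] at k3
    have k4 : (0 : ℝ) ≤ tb (pc ch p 0) (pc ch p 1 - pc ch p 0) := by exact_mod_cast k1
    have k5 := (Int.cast_le (R := ℝ)).2 k3
    push_cast at k5
    exact ⟨by linarith, (c5_bd _).2.1.trans (by linarith)⟩

/-- Lower bounds for the energy with one letter of charge `± 2`. -/
noncomputable def b5 (n : ℕ) : ℝ :=
  if n ≤ 1 then 1 else if n ≤ 2 then 13 / 20 else if n ≤ 4 then 18 / 25 else 81 / 100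

theorem neg5 {w : ℕ → ℝ} (h : Eig (n + 1) (-((√5 + 1) / 4)) l w) (hl : n + 1 - l < b5 (n + 1)) :
    ∀ j < n + 1, w j = 0 := by
  obtain ⟨r1, r2, r3⟩ := r5
  intro j hj
  by_contra k
  have hl' : (n : ℝ) < l := by
    have : b5 (n + 1) ≤ 1 := by unfold b5; split_ifs <;> norm_num
    linarith
  have h0 := S7.w0_ne (by push_cast; linarith) h.row ⟨j, hj, k⟩
  cases n with
  | zero =>
    have h1 := h.row 0 1 one_pos rfl
    rw [Finset.sum_range_one] at h1
    have : (2 * l + 2 * ((√5 + 1) / 4)) * w 0 = 0 := by push_cast at h1; linarith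
    have := (mul_eq_zero.1 this).resolve_right h0
    push_cast at hl'
    linarith
  | succ n =>
    push_cast at hl hl'
    have h1 := S7.neg_bound (N := n) (l := 2 * l) (s := (√5 + 1) / 4) (by linarith) (by linarith)
      (by linarith) h0 fun j e he k => by rw [h.row j e he k]; ring
    have h2 : n * S7.H n / (n + 1) ≤ n / 2 := by
      rw [div_le_iff₀ (by positivity)]
      nlinarith [mul_le_mul_of_nonneg_left (H_half n) (Nat.cast_nonneg n)]
    have h3 : (0 : ℝ) ≤ n := Nat.cast_nonneg n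
    have h4 : (l - (n + 1)) * (l - (n + 1) + 18 / 10 + 59 / 100 * n) ≤ 6546 / 10000 := by
      have a1 := mul_le_mul_of_nonneg_left h2 (show 0 ≤ (√5 + 1) / 4 by linarith)
      have a2 : l - (n + 1) + 18 / 10 + 59 / 100 * n ≤
          l + (√5 + 1) / 4 - (√5 + 1) / 4 * (n * S7.H n / (n + 1)) := by nlinarith
      nlinarith [mul_le_mul_of_nonneg_left a2 (sub_pos.2 hl').le]
    unfold b5 at hl
    split_ifs at hl with e1 e2 e3
    · omega
    · nlinarith
    · have : (1 : ℝ) ≤ n := by exact_mod_cast (show 1 ≤ n by omega)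
      nlinarith
    · have : (3 : ℝ) ≤ n := by exact_mod_cast (show 3 ≤ n by omega)
      nlinarith

theorem one2 (n : ℕ) : n ≤ N → ∀ {s : Finset α} {g : (α → ℕ) → ℝ} {x : α}, s.card = n → x ∈ s →
    ch x ≠ 0 → ¬(ch x = 1 ∨ ch x = 4) → (∀ a ∈ s.erase x, ch a = 0) →
    b5 n * Nm N n s g ≤ Phi N n s (W5 ch) g := by
  induction n with
  | zero => exact fun _ s _ x hs hx => by simp [Finset.card_eq_zero.1 hs] at hx
  | succ n ih =>
    intro hN s g x hs hx cx cx' e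
    obtain ⟨r1, r2, r3⟩ := r5
    refine quad0 hN (W5_mo ch) fun v l hl hv => one_step c5 ch c5_zero hs hN hx e
      (fun w hw => neg5 (c5_two cx cx' ▸ hw) (by exact_mod_cast hl)) hv (β := b5 n)
      (by unfold b5; split_ifs <;> norm_num) ?_ fun y hy k => ih (by omega)
        (by rw [card_erase_of_mem hy, hs, Nat.add_sub_cancel]) (mem_erase.2 ⟨k.symm, hx⟩) cx cx'
        fun a ha => e a (mem_erase.2 ⟨(mem_erase.1 ha).1, mem_of_mem_erase (mem_of_mem_erase ha)⟩)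
    rw [c5_two cx cx', abs_neg, abs_of_pos (by linarith)]
    push_cast at hl
    unfold b5 at hl ⊢
    split_ifs at hl ⊢ <;> first | omega | linarith

theorem pot5 (hN : n ≤ N) (h : ∀ p ∈ St N n s, ∃ k < n, W5 ch p k = (√5 - 1) / 4) :
    69 / 100 * Nm N n s g ≤ Phi N n s (W5 ch) g := by
  obtain ⟨r1, r2, r3⟩ := r5
  refine Phi_ge hN (W5_mo ch) fun p hp => ?_
  obtain ⟨k, hk, e⟩ := h p hp
  refine le_trans ?_ (Finset.single_le_sum (fun k _ => (c5_bd _).2.2) (mem_range.2 hk))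
  rw [← W5, e, abs_of_pos (by linarith)]
  linarith

theorem one1 (hn : 2 ≤ n) (hN : n + 1 ≤ N) {x : α} (hx : x ∈ s) (cx : ch x = 1 ∨ ch x = 4)
    (e : ∀ a ∈ s.erase x, ch a = 0) :
    91 / 100 * Nm N (n + 1) s g ≤ Phi N (n + 1) s (W5 ch) g := by
  obtain ⟨r1, r2, r3⟩ := r5
  have h1 : ∀ p ∈ St N (n + 1) s, ∀ k < n + 1, W5 ch p k =
      if p x ≤ k then (√5 - 1) / 4 else 1 := fun p hp k hk => by
    rw [W5, pc_one ch hp (by omega) e]
    split_ifs
    · exact c5_one cx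
    · exact c5_zero
  let u : ℕ → ℝ := fun t => if t = n then 1 else 1 / 4
  refine quad0 hN (W5_mo ch) fun v l hl hv => perron hN (W5_mo ch) (fun p hp k hk => by
    rw [abs_of_nonneg]; rw [h1 p hp k hk]; split_ifs <;> linarith) (φ := fun p => u (p x)) (μ := n + 9 / 100)
    (fun p _ => by simp only [u]; split_ifs <;> norm_num) (fun p hp => ?_)
    (by push_cast at hl; linarith) hv
  have h2 : Op (n + 1) (W5 ch) (fun p => u (p x)) p = M1 (n + 1) ((√5 - 1) / 4) u (p x) :=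
    Finset.sum_congr rfl fun k hk => by rw [h1 p hp k (mem_range.1 hk)]; rfl
  have h3 := (mem_St.1 hp).1 x hx
  have h4 : ∀ e ≤ n, ∑ i ∈ range e, u i = e / 4 := fun e he => by
    rw [Finset.sum_congr rfl (g := fun _ => 1 / 4) fun i hi => if_neg (by
      have := mem_range.1 hi; omega)]
    simp [div_eq_mul_inv]
  have h5 : (2 : ℝ) ≤ n := by exact_mod_cast hn
  rw [h2]
  generalize p x = j at *
  rcases Nat.eq_zero_or_pos j with rfl | hj
  · rw [M1_eq (zero_add _), Finset.sum_range_succ, h4 n le_rfl]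
    simp only [u, if_true, if_neg (show 0 ≠ n by omega)]
    nlinarith
  · obtain ⟨e, he⟩ : ∃ e, j + e = n + 1 := ⟨n + 1 - j, by omega⟩
    have h6 : (j : ℝ) + e = n + 1 := by exact_mod_cast he
    rw [M1_eq he, h4 e (by omega)]
    simp only [u]
    split_ifs with k
    · have : (j : ℝ) = n := by exact_mod_cast k
      nlinarith
    · have : (2 : ℝ) ≤ e := by exact_mod_cast (show 2 ≤ e by omega)
      nlinarith

theorem W5_two (hN : n ≤ N) {x y : α} (hxy : x ≠ y) (c : ch x + ch y = 0)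
    (h : ∀ a ∈ s, a ≠ x → a ≠ y → ch a = 0) :
    ∀ p ∈ St N n s, ∀ k < n, W5 ch p k = W2 (c5 (ch x)) x y p k := fun p hp k hk => by
  have key : ∀ a b : ZMod 5, a + b = 0 → (b = 0 ↔ a = 0) ∧ (b = 1 ∨ b = 4 ↔ a = 1 ∨ a = 4) := by
    decide
  have e : c5 (ch y) = c5 (ch x) := by simp only [c5, cl, key _ _ c]
  rw [W5, W2, pc_two ch hp (by omega) hxy h]
  split_ifs <;> simp [c, c5_zero, e]

omit [Fintype α] in
theorem cls (h : ¬Oth s ch) {x : α} (hx : x ∈ s) (cx : ch x ≠ 0) : (∀ a ∈ s.erase x, ch a = 0) ∨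
    ∃ y ∈ s, x ≠ y ∧ ch x + ch y = 0 ∧ ∀ a ∈ s, a ≠ x → a ≠ y → ch a = 0 := by
  refine (em _).imp_right fun e => ?_
  push Not at e
  obtain ⟨y, hy, cy⟩ := e
  obtain ⟨hxy, hy⟩ := mem_erase.1 hy
  have h1 : ∀ a ∈ s, ∀ b ∈ s, a ≠ b → ch a ≠ 0 → ch b ≠ 0 → ch a + ch b = 0 :=
    fun a ha b hb e ca cb => by_contra fun k => h ⟨a, ha, b, hb, e, ca, cb, k⟩
  have key : ∀ x y a : ZMod 5, x + y = 0 → a + x = 0 → a + y = 0 → x = 0 := by decide
  exact ⟨y, hy, hxy.symm, h1 x hx y hy hxy.symm cx cy, fun a ha e e' => by_contra fun ca =>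
    cx (key _ _ _ (h1 x hx y hy hxy.symm cx cy) (h1 a ha x hx e ca cx) (h1 a ha y hy e' ca cy))⟩

theorem two2 (hs : s.card = n + 1) (hN : n + 1 ≤ N) {x y : α} (hx : x ∈ s) (hy : y ∈ s)
    (hxy : x ≠ y) (cx : ch x ≠ 0) (cx' : ¬(ch x = 1 ∨ ch x = 4)) (c : ch x + ch y = 0)
    (h : ∀ a ∈ s, a ≠ x → a ≠ y → ch a = 0) :
    (1 - 13 / 20 / (n + 2)) * Nm N (n + 1) s g ≤ Phi N (n + 1) s (W5 ch) g := by
  obtain ⟨r1, r2, r3⟩ := r5
  rw [Phi_congr (W5_two hN hxy c h), c5_two cx cx',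
    show (√5 + 1) / 4 = ((√5 - 1) / 2 + 1) / 2 by ring]
  exact Nm_mono (sub_le_sub_left (div_le_div_of_nonneg_right (by linarith) (by positivity)) 1)
    (two_mix hs hN hx hy hxy (by linarith) (by linarith))

theorem weak5 (hn : 2 ≤ n) (hs : s.card = n + 1) (hN : n + 1 ≤ N) {x : α} (hx : x ∈ s)
    (cx : ch x ≠ 0) (h : ¬Oth s ch) : ∃ A : ℤ, (A : ℝ) / 1000 * Nm N (n + 1) s g ≤
      Phi N (n + 1) s (W5 ch) g ∧ ((∑ a ∈ s, ch a = ch x ∧ A = cl 0 910 720 (ch x)) ∨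
        (∑ a ∈ s, ch a = 0 ∧ A = cl 0 690 810 (ch x))) := by
  rcases cls h hx cx with e | ⟨y, hy, hxy, c, e⟩
  · refine ⟨_, ?_, Or.inl ⟨Finset.sum_eq_single_of_mem x hx fun a ha k =>
      e a (mem_erase.2 ⟨k, ha⟩), rfl⟩⟩
    rw [cl, if_neg cx]
    split_ifs with k
    · exact Nm_mono (by norm_num) (one1 hn hN hx k e)
    · exact Nm_mono (by unfold b5; split_ifs <;> first | omega | norm_num)
        (one2 _ hN hs hx cx k e)
  · refine ⟨_, ?_, Or.inr ⟨(Finset.sum_eq_add_of_mem x y hx hy hxy fun a ha k =>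
      e a ha k.1 k.2).trans c, rfl⟩⟩
    rw [cl, if_neg cx]
    split_ifs with k
    · refine Nm_mono (by norm_num) (pot5 hN fun p hp => ?_)
      have a1 := (mem_St.1 hp).1 x hx
      have a2 : p x ≠ p y := fun e => hxy ((mem_St.1 hp).2.2 x hx y hy e)
      refine ⟨min (p x) (p y), by omega, ?_⟩
      rw [W5_two hN hxy c e p hp _ (by omega), W2, c5_one k]
      split_ifs <;> first | omega | rfl
    · refine Nm_mono ?_ (two2 hs hN hx hy hxy cx k c e)
      have : (2 : ℝ) ≤ n := by exact_mod_cast hn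
      have : 13 / 20 / ((n : ℝ) + 2) ≤ 19 / 100 := by rw [div_le_iff₀ (by positivity)]; linarith
      push_cast
      linarith

theorem oth5 (hn : 2 ≤ n) : n + 1 ≤ N → ∀ {s : Finset α} {g : (α → ℕ) → ℝ}, s.card = n + 1 →
    Oth s ch → 1 * Nm N (n + 1) s g ≤ Phi N (n + 1) s (W5 ch) g := by
  induction n, hn using Nat.le_induction with
  | base => exact fun hN _ _ hs h => lev3 hs hN h
  | succ n hn ih =>
    rintro hN s g hs ⟨x, hx, y, hy, hxy, cx, cy, cxy⟩
    have hc : ∀ y ∈ s, (s.erase y).card = n + 1 := fun y hy => by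
      rw [card_erase_of_mem hy, hs, Nat.add_sub_cancel]
    have bd : ∀ x ∈ s, ∀ y ∈ s, x ≠ y → ch y ≠ 0 → ∃ A : ℤ, (A : ℝ) / 1000 *
        Nm N (n + 1) (s.erase x) (fun p => g (ins N (n + 1) x p)) ≤
        Phi N (n + 1) (s.erase x) (W5 ch) (fun p => g (ins N (n + 1) x p)) ∧ (A = 1000 ∨
        (∑ a ∈ s, ch a = ch x + ch y ∧ A = cl 0 910 720 (ch y)) ∨
        (∑ a ∈ s, ch a = ch x + 0 ∧ A = cl 0 690 810 (ch y))) := fun x hx y hy hxy cy => by
      by_cases e : Oth (s.erase x) ch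
      · exact ⟨1000, Nm_mono (by norm_num) (ih (by omega) (hc x hx) e), Or.inl rfl⟩
      · obtain ⟨A, a1, a2⟩ := weak5 (N := N) (g := fun p => g (ins N (n + 1) x p)) hn (hc x hx)
          (by omega) (mem_erase.2 ⟨hxy.symm, hy⟩) cy e
        rw [← Finset.add_sum_erase _ _ hx]
        exact ⟨A, a1, Or.inr (a2.imp (fun k => ⟨by rw [k.1], k.2⟩) fun k => ⟨by rw [k.1], k.2⟩)⟩
    obtain ⟨A, a1, a2⟩ := bd x hx y hy hxy cy
    obtain ⟨B, b1, b2⟩ := bd y hy x hx hxy.symm cx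
    have key : ∀ a b z : ZMod 5, a ≠ 0 → b ≠ 0 → a + b ≠ 0 → ∀ A ∈ [1000, 910, 720, 690, 810],
        ∀ B ∈ [1000, 910, 720, 690, 810], (A = 1000 ∨ (z = a + b ∧ A = cl 0 910 720 b) ∨
          (z = a + 0 ∧ A = cl 0 690 810 b)) → (B = 1000 ∨ (z = b + a ∧ B = cl 0 910 720 a) ∨
          (z = b + 0 ∧ B = cl 0 690 810 a)) → cl 1000000 95600 654600 z ≤ A * B ∧
          cl 1000000 95600 654600 z ≤ A * 1000 ∧ cl 1000000 95600 654600 z ≤ B * 1000 ∧
          cl 1000000 95600 654600 z ≤ 1000000 := by decide +kernel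
    have k0 : ∀ {A : ℤ} {b : ZMod 5} {P Q : Prop}, b ≠ 0 → (A = 1000 ∨ (P ∧ A = cl 0 910 720 b) ∨
        (Q ∧ A = cl 0 690 810 b)) → A ∈ [1000, 910, 720, 690, 810] := fun hb h => by
      rcases h with rfl | ⟨-, rfl⟩ | ⟨-, rfl⟩
      · decide
      all_goals rw [cl, if_neg hb]; split_ifs <;> decide
    obtain ⟨k1, k2, k3, k4⟩ := key _ _ _ cx cy cxy A (k0 cy a2) B (k0 cx b2) a2 b2
    have k5 := (c5_bd (∑ a ∈ s, ch a)).2.1
    have k6 := (Int.cast_le (R := ℝ)).2 k1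
    have k7 := (Int.cast_le (R := ℝ)).2 k2
    have k8 := (Int.cast_le (R := ℝ)).2 k3
    have k9 := (Int.cast_le (R := ℝ)).2 k4
    push_cast at k6 k7 k8 k9
    refine rec2 hs hN (by omega) (W5_mo ch) (W5_last hN)
      (A := fun a => if a = x then A / 1000 else if a = y then B / 1000 else 1) (fun a ha => ?_)
      fun p hp a _ b _ hab => ?_
    · split_ifs with e e'
      · exact ⟨by nlinarith [sq_nonneg (c5 (∑ a ∈ s, ch a))], e ▸ a1⟩
      · exact ⟨by nlinarith [sq_nonneg (c5 (∑ a ∈ s, ch a))], e' ▸ b1⟩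
      · exact ⟨one_pos.le, ih (by omega) (hc a ha) ⟨x, mem_erase.2 ⟨Ne.symm e, hx⟩, y,
          mem_erase.2 ⟨Ne.symm e', hy⟩, hxy, cx, cy, cxy⟩⟩
    · rw [W5, pc_top ch hp hN]
      split_ifs <;> first | linarith | simp_all

theorem top5 (hs : s.card = n + 1) (hN : n + 1 ≤ N) (hn : 0 < n) (l1 : n + 13 / 20 / (n + 2) < l)
    (l2 : ∀ κ, κ ≠ 0 → ∀ w, Eig (n + 1) (c5 κ) l w → ∀ j < n + 1, w j = 0) {μ : ℝ} (hμ : μ < l)
    {G : ℕ → ℕ → ℝ} (g1 : ∀ p q, p < q → q < n + 1 → 0 < G p q)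
    (g2 : ∀ p q, p < q → q < n + 1 → T2 (n + 1) ((√5 - 1) / 4) G p q ≤ μ * G p q)
    (he : ∀ p ∈ St N (n + 1) s, Op (n + 1) (W5 ch) g p = l * g p)
    (h0 : (∀ a ∈ s, ch a = 0) → ∑ p ∈ St N (n + 1) s, g p = 0) : ∀ p ∈ St N (n + 1) s, g p = 0 := by
  obtain ⟨r1, r2, r3⟩ := r5
  have l0 : 0 < 13 / 20 / ((n : ℝ) + 2) := by positivity
  have l3 : ((n + 1 : ℕ) : ℝ) - l < 1 := by push_cast; linarith
  by_cases e1 : ∀ a ∈ s, ch a = 0
  · refine eig_zero he ?_ l3
    rw [Phi_congr (W' := fun _ _ => 1) fun p hp k hk => by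
      rw [W5, pc_zero ch hp (by omega) e1, c5_zero]]
    exact cesi _ hs hN (h0 e1)
  by_cases e2 : Oth s ch
  · rcases (Nat.succ_le_of_lt hn).eq_or_lt with rfl | h
    · obtain ⟨x, hx, y, hy, hxy, cx, cy, cxy⟩ := e2
      refine eig_zero he (γ := 88 / 100) (le_trans ?_ (lev2 hs hN)) (by norm_num at l1 ⊢; linarith)
      rw [Nm, Finset.mul_sum]
      refine Finset.sum_le_sum fun p hp => mul_le_mul_of_nonneg_right ?_ (sq_nonneg _)
      have key : ∀ a b : ZMod 5, a ≠ 0 → b ≠ 0 → a + b ≠ 0 → 880 ≤ tb a b := by decide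
      have a1 := pc_step ch hp hN hx
      have a2 := pc_step ch hp hN hy
      have a3 := (mem_St.1 hp).1 x hx
      have a4 := (mem_St.1 hp).1 y hy
      have a5 : p x ≠ p y := fun e => hxy ((mem_St.1 hp).2.2 x hx y hy e)
      have a6 : 880 ≤ tb (pc ch p 0) (pc ch p 1 - pc ch p 0) := by
        generalize p x = i at *
        generalize p y = j at *
        refine key _ _ ?_ ?_ ?_ <;> interval_cases i <;> interval_cases j <;>
          simp only [one_ne_zero, if_true, if_false, add_zero, ne_eq, not_true,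
            Nat.sub_self] at a1 a2 a5 <;> simp [a1, a2, cx, cy, cxy, add_comm (ch y)]
      have a7 := (Int.cast_le (R := ℝ)).2 a6
      push_cast at a7
      linarith
    · exact eig_zero he (oth5 h hN hs e2) l3
  push Not at e1
  obtain ⟨x, hx, cx⟩ := e1
  rcases cls e2 hx cx with e | ⟨y, hy, hxy, c, e⟩
  · have e' : ∀ y, ∀ a ∈ (s.erase y).erase x, ch a = 0 := fun y a ha =>
      e a (mem_erase.2 ⟨(mem_erase.1 ha).1, mem_of_mem_erase (mem_of_mem_erase ha)⟩)
    by_cases k : ch x = 1 ∨ ch x = 4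
    · refine one_step c5 ch c5_zero hs hN hx e (l2 _ cx) he (β := 69 / 100) (by norm_num) ?_
        fun y _ hy => pot5 (by omega) fun p hp => ?_
      · rw [c5_one k, abs_of_pos (by linarith)]
        linarith
      · have a1 := (mem_St.1 hp).1 x (mem_erase.2 ⟨hy.symm, hx⟩)
        exact ⟨p x, a1, by rw [W5, pc_one ch hp (by omega) (e' y), if_pos le_rfl, c5_one k]⟩
    · refine one_step c5 ch c5_zero hs hN hx e (l2 _ cx) he (β := b5 n)
        (by unfold b5; split_ifs <;> norm_num) ?_ fun y hy hy' => one2 n (by omega)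
        (by rw [card_erase_of_mem hy, hs, Nat.add_sub_cancel]) (mem_erase.2 ⟨hy'.symm, hx⟩) cx k (e' y)
      rw [c5_two cx k, abs_neg, abs_of_pos (by linarith)]
      have a1 : ∀ j : ℕ, n ≤ j → 13 / 20 / ((j : ℝ) + 2) ≤ 13 / 20 / ((n : ℝ) + 2) := fun j hj =>
        div_le_div_of_nonneg_left (by norm_num) (by positivity) (by exact_mod_cast (by omega))
      unfold b5
      split_ifs with b1 b2 b3
      · linarith
      · have := a1 2 b2
        norm_num at this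
        linarith
      · have := a1 4 b3
        norm_num at this
        linarith
      · linarith
  · by_cases k : ch x = 1 ∨ ch x = 4
    · refine two_pos' hN hx hy hxy (fun p hp j hj => ?_) g1 g2 hμ he
      rw [W5_two hN hxy c e p hp j hj, c5_one k, abs_of_nonneg]
      rw [W2]
      split_ifs <;> linarith
    · exact eig_zero he (two2 hs hN hx hy hxy cx k c e) (by push_cast; linarith)

end Pool.Agent.P.MP_ad1e8a_co.FC
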