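import Mathlib
import Pool.Agent.P.MP_ad1e8a_co.FC6
import Pool.Agent.P.MP_ad1e8a_co.FC9
import Pool.Agent.P.MP_ad1e8a_co.FC11
import Pool.Agent.P.MP_ad1e8a_co.FC12
import Pool.Agent.P.MP_ad1e8a_co.FC13

/-!
Five colours, and six colours with at least seven letters.
-/

open Finset Matrix

namespace Pool.Agent.P.MP_ad1e8a_co.FC

theorem ray' {m n : ℕ} [NeZero m] {θ : ℝ} {c : ZMod m → ℝ} (hc : Cos c) (hθ : 0 < θ) (hn : 2 ≤ n)
    {κ : ZMod m} (hκ : κ ≠ 0) (w : ℕ → ℝ) : ∑ j ∈ range n, w j * M1 n (c κ) w j ≤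
      (2 * θ * n - gap (θ • QM m n)) / (2 * θ) * ∑ j ∈ range n, w j * w j := by
  have h0 : ∀ j ∈ range n, 0 ≤ w j * w j := fun _ _ => mul_self_nonneg _
  rcases (Finset.sum_nonneg h0).eq_or_lt with e | e
  · rw [← e, mul_zero]
    exact (Finset.sum_eq_zero fun j hj => by rw [mul_self_eq_zero.1
      ((Finset.sum_eq_zero_iff_of_nonneg h0).1 e.symm j hj), zero_mul]).le
  · rw [div_mul_eq_mul_div, le_div_iff₀' (by positivity)]
    exact ray hc hθ hn hκ w e

theorem five_colours {n : ℕ} (hn : 2 ≤ n) : gap (adjMat 5 n) = gap ((1 : ℝ) • QM 5 n) := by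
  have h : Sc 5 n 1 := Sc_three (by norm_num)
  have h0 : (2 : ZMod 5) ≠ 0 := by decide
  have h1 : c5 2 = -((√5 + 1) / 4) := c5_two h0 (by decide)
  refine le_antisymm (h.le hn) (h.ge cos_five hn (fun l ch g hl he hg => ?_) one_pos)
  obtain ⟨G, g1, g2⟩ := sup5 hn fun w => h1 ▸ ray' cos_five one_pos hn h0 w
  obtain ⟨n, rfl⟩ : ∃ k, n = k + 1 := ⟨n - 1, by omega⟩
  have h2 := ray_two cos_five one_pos (by omega) h0 hl (-(4 / 5) / (n + 1))
  refine top5 (by simp) le_rfl (by omega) ?_ (fun κ hκ => ray_eig cos_five one_pos hn hκ hl)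
    ((div_lt_iff₀' (by norm_num)).2 hl) g1 g2 he fun e => hg fun a => e a (mem_univ a)
  obtain ⟨r1, r2, r3⟩ := r5
  have h3 : (1 : ℝ) ≤ n := by exact_mod_cast (show 1 ≤ n by omega)
  have h4 : 13 / 20 * (n + 1) < (l - n) * (16 / 25 + (n + 1) ^ 2) := by
    have := mul_lt_mul_of_pos_right h2 (show (0 : ℝ) < (n + 1) ^ 2 by positivity)
    rw [h1] at this
    field_simp at this
    nlinarith
  rw [← lt_sub_iff_add_lt', div_lt_iff₀ (by positivity)]
  by_contra e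
  have h5 := mul_le_mul_of_nonneg_right (not_lt.1 e)
    (show (0 : ℝ) ≤ 16 / 25 + (n + 1) ^ 2 by positivity)
  nlinarith [mul_lt_mul_of_pos_right h4 (show (0 : ℝ) < n + 2 by positivity)]

theorem six_colours {n : ℕ} (h7 : 7 ≤ n) : gap (adjMat 6 n) = gap ((1 : ℝ) • QM 6 n) := by
  have hn : 2 ≤ n := by omega
  have h : Sc 6 n 1 := Sc_three (by norm_num)
  have h0 : (3 : ZMod 6) ≠ 0 := by decide
  have h1 : c6 3 = -1 := by rw [c6, show t6 3 = -2 by decide]; norm_num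
  refine le_antisymm (h.le hn) (h.ge cos_six hn (fun l ch g hl he hg => ?_) one_pos)
  obtain ⟨G, g1, g2⟩ := sup6 h7 fun w => h1 ▸ ray' cos_six one_pos hn h0 w
  obtain ⟨n, rfl⟩ : ∃ k, n = k + 1 := ⟨n - 1, by omega⟩
  have h2 := ray_two cos_six one_pos (by omega) h0 hl (-1 / (n + 1))
  refine top6 (by simp) le_rfl (by omega) ?_ (fun κ hκ => ray_eig cos_six one_pos hn hκ hl)
    ((div_lt_iff₀' (by norm_num)).2 hl) g1 g2 he fun e => hg fun a => e a (mem_univ a)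
  rw [h1] at h2
  have h3 : (0 : ℝ) < n + 1 := by positivity
  have h4 : n + 1 < (l - n) * (1 + (n + 1) ^ 2) := by
    have := mul_lt_mul_of_pos_right h2 (sq_pos_of_pos h3)
    field_simp at this
    nlinarith
  rw [← lt_sub_iff_add_lt', div_lt_iff₀ (by positivity)]
  by_contra e
  have h5 := mul_le_mul_of_nonneg_right (not_lt.1 e) (show (0 : ℝ) ≤ 1 + (n + 1) ^ 2 by positivity)
  nlinarith [mul_lt_mul_of_pos_right h4 (show (0 : ℝ) < n + 2 by positivity)]

end Pool.Agent.P.MP_ad1e8a_co.FC
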