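import Mathlib
import Pool.Agent.P.MP_ad1e8a_co.TestFn

/-!
For every `n ≥ 2` and every `m` with `m ^ 2 ≥ 600 n`, the spectral gap of the generalised pancake
graph `P_m(n)` is strictly smaller than the gap of the quotient matrix.
-/

namespace Pool.Agent.P.MP_ad1e8a_co.OldAllN

open Pool.Agent.P.MP_ad1e8a_co

theorem result (m n : ℕ) [NeZero m] (hn : 2 ≤ n) (hmn : 600 * n ≤ m ^ 2) :
    ∃ Q : Matrix (ZMod m × Fin n) (ZMod m × Fin n) ℝ,
      (∀ a b, ∀ u ∈ part m n a,
        Q a b = ((part m n b ∩ (pancake m n).neighborSet u).ncard : ℝ)) ∧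
      gap (adjMat m n) < gap Q := by
  have hm : 3 ≤ m := by
    by_contra h
    have : m ≤ 2 := by omega
    nlinarith
  exact ⟨QM m n, QM_spec hm, (adj_gap hn hm).trans_lt (QM_gap hn hm hmn)⟩

end Pool.Agent.P.MP_ad1e8a_co.OldAllN
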