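import Mathlib
import Pool.Agent.P.MP_ad1e8a_co.FC6

/-!
For `m = 2, 3, 4` and every `n ≥ 2`, the spectral gap of the generalised pancake graph `P_m(n)`
equals the gap of the quotient matrix.
-/

namespace Pool.Agent.P.MP_ad1e8a_co.OldFew

open Pool.Agent.P.MP_ad1e8a_co

theorem result (m n : ℕ) [NeZero m] (h2 : 2 ≤ m) (h4 : m ≤ 4) (hn : 2 ≤ n) :
    ∃ Q : Matrix (ZMod m × Fin n) (ZMod m × Fin n) ℝ,
      (∀ a b, ∀ u ∈ part m n a,
        Q a b = ((part m n b ∩ (pancake m n).neighborSet u).ncard : ℝ)) ∧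
      gap (adjMat m n) = gap Q := by
  obtain rfl | rfl | rfl : m = 2 ∨ m = 3 ∨ m = 4 := by omega
  · exact ⟨_, FC.Sc_two.spec, FC.two_colours hn⟩
  · exact ⟨_, (FC.Sc_three le_rfl).spec, FC.three_colours hn⟩
  · exact ⟨_, (FC.Sc_three (by norm_num)).spec, FC.four_colours hn⟩

end Pool.Agent.P.MP_ad1e8a_co.OldFew
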