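import Mathlib
import Pool.Agent.P.MP_ad1e8a_co.S7C

/-!
For every `m ≥ 7` and every `n ≥ 2`, the spectral gap of the generalised pancake graph `P_m(n)` is
strictly smaller than the gap of the quotient matrix.
-/

namespace Pool.Agent.P.MP_ad1e8a_co.OldSeven

open Pool.Agent.P.MP_ad1e8a_co

theorem result (m n : ℕ) [NeZero m] (hm : 7 ≤ m) (hn : 2 ≤ n) :
    ∃ Q : Matrix (ZMod m × Fin n) (ZMod m × Fin n) ℝ,
      (∀ a b, ∀ u ∈ part m n a,
        Q a b = ((part m n b ∩ (pancake m n).neighborSet u).ncard : ℝ)) ∧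
      gap (adjMat m n) < gap Q :=
  ⟨QM m n, QM_spec (by omega), S7.gap_lt hn hm⟩

end Pool.Agent.P.MP_ad1e8a_co.OldSeven
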